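import Pool.Agent.K7.H54.GT.Mdl

/-!
# Project GT: the hypotheses of the model
-/

set_option autoImplicit false
set_option linter.all false

namespace Pool.Agent.K7.H54.GT

open Finset Polynomial Pool.Agent.W262.RK Pool.Agent.W307.RT Pool.Agent.TH841.PT
open Pool.Agent.R421.HF
open Pool.Agent.R421.UR
open Pool.Agent.K7.H54.HR
open Pool.Agent.K7.H54.SG (SFam)

open Pool.Agent.H474R2.PG (rho)

section

variable {J : Type} [Fintype J] [DecidableEq J]

variable {cls : J → Fin 4} {a : Fin 3 → ℤ} {f : J → ℤ[X]} {ε : Fin 3 → J → ℕ} {m z c : ℕ}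

/-- the polynomial of the tangent directions, `1` for the class `3` -/
noncomputable def kk (cls : J → Fin 4) (a : Fin 3 → ℤ) (f : J → ℤ[X]) (ε : Fin 3 → J → ℕ)
    (j : J) : ℤ[X] := if cls j = 3 then 1 else KQ cls a f ε j

lemma kk_eq {j : J} (h : cls j ≠ 3) : kk cls a f ε j = KQ cls a f ε j := if_neg h

lemma kk_ndvd (h : HG cls a f ε m) (hG : ZZ a f z c) {p : ℕ} (hp : p.Prime) (hz : z < p)
    {t : ℤ} {j : J} (hj : (p : ℤ) ∣ (f j).eval t) : ¬ (p : ℤ) ∣ (kk cls a f ε j).eval t := by
  by_cases h3 : cls j = 3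
  · unfold kk
    rw [if_pos h3, eval_one]
    exact (Nat.prime_iff_prime_int.1 hp).not_dvd_one
  · rw [kk_eq h3]
    exact KQ_ndvd h hG hp hz h3 hj

lemma HG.ndvd (h : HG cls a f ε m) (j : J) : ¬ mQ (f j) ∣ mQ (kk cls a f ε j) := by
  by_cases h3 : cls j = 3
  · unfold kk mQ
    rw [if_pos h3, Polynomial.map_one]
    exact fun hd => (h.hf.irrQ j).not_isUnit (isUnit_of_dvd_one hd)
  · rw [kk_eq h3]
    have h1 : KQ cls a f ε j = C (sgM (cls j) * a (cpM (cls j))) *
        ∏ l ∈ univ.erase j, f l ^ ε (cpM (cls j)) l := by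
      unfold KQ
      rw [UQ_CQ j, h.hE.e0 j _ h3 (fun h2 => cpM_ne h3 h2.symm), pow_zero, one_mul]
      unfold CQ
      rw [C_mul]
      ring
    rw [h1]
    apply mul_finprod_ndvd h.hf
    · apply mul_ne_zero _ (h.ha _)
      rcases sgM_cases (cls j) with h2 | h2 <;> rw [h2] <;> norm_num
    · exact notMem_erase _ _

/-- the sums over the types and the primes -/
lemma Sp_tyq (h : HG cls a f ε m) (hG : ZZ a f z c) {j : J} (h3 : cls j ≠ 3) (φ : Bool → ℝ)
    {z' y : ℕ} (hz : z ≤ z') (F : ℕ → ℝ) :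
    ∑ p ∈ PS z' y, (∑ θ : Ty, φ (θ 0) * (famq cls a f ε m z c).g (j, θ) p) * F p / (p : ℝ) =
      cA (eo ε j) φ * ∑ p ∈ PS z' y, (rho (f j) p : ℝ) * F p / (p : ℝ) +
      cB (eo ε j) φ * ∑ p ∈ PS z' y, rhoc (f j) (kk cls a f ε j) p * F p / (p : ℝ) := by
  rw [mul_sum, mul_sum, ← sum_add_distrib]
  refine sum_congr rfl fun p hp => ?_
  have hp' := mem_filter.1 hp
  have hzp := (mem_Ioc.1 hp'.1).1
  rw [sum_tyq h hG h3 hp'.2 (by omega) φ, kk_eq h3]
  ring

lemma Sp_tyq1 (h : HG cls a f ε m) (hG : ZZ a f z c) {j : J} (h3 : cls j ≠ 3) (φ : Bool → ℝ)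
    {z' y : ℕ} (hz : z ≤ z') :
    Sp (fun p => ∑ θ : Ty, φ (θ 0) * (famq cls a f ε m z c).g (j, θ) p) z' y =
      cA (eo ε j) φ * Sp (fun p => rho (f j) p) z' y +
      cB (eo ε j) φ * Sp (fun p => rhoc (f j) (kk cls a f ε j) p) z' y := by
  have := Sp_tyq h hG h3 φ (y := y) hz (fun _ => 1)
  unfold Sp
  simpa only [mul_one] using this

/-- the total weight of the class `3` -/
lemma rs3 (h : HG cls a f ε m) {j : J} (h3 : cls j = 3) {p : ℕ} (hp : p.Prime) (hz : z < p) :
    rs (famq cls a f ε m z c).g j p = rho (f j) p := by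
  have h1 := sum_ty3 (a := a) (f := f) (z := z) (c := c) h h3 hp hz (fun _ => (1 : ℝ))
  unfold rs
  simp only [one_mul, sum_const, nsmul_eq_mul, mul_one] at h1
  exact h1

/-- **the hypotheses of the model** -/
theorem mdlQ (hh1 : Pool.Agent.TH841.TR.H1L) (htw : TWG) (h : HG cls a f ε m) (sp : J → Bool)
    (hsp1 : ∀ j, cls j ≠ 3 → sp j = false → NSqg (f j) (KQ cls a f ε j) 1)
    (hsp2 : ∀ j, cls j ≠ 3 → sp j = true → ∃ q : ℚ[X], mQ (f j) ∣ q ^ 2 - mQ (KQ cls a f ε j))
    (hG : ZZ a f z c) :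
    ∃ z0 : ℕ, ∀ z', z0 ≤ z' → ∃ C0 E0 : ℝ,
      Mdl cls (famq cls a f ε m z c).g (ddq cls ε sp) (sg1 sp) c z' C0 E0 := by
  classical
  have hf := h.hf
  have hnd : ∀ j, ∀ p : ℕ, p.Prime → z < p → ∀ t : ℤ, (p : ℤ) ∣ (f j).eval t →
      ¬ (p : ℤ) ∣ (kk cls a f ε j).eval t := fun j p hp hz t ht => kk_ndvd h hG hp hz ht
  -- the twisted sums
  choose E1 t1 hE1 ht1 using fun j : J => htw (f j) (hf.irr j) (hf.deg j) (kk cls a f ε j)
    (h.ndvd j)
  choose E2 t2 hE2 ht2 using fun j : J => htw (f j) (hf.irr j) (hf.deg j) 1 (by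
    rw [Polynomial.map_one]
    exact fun hd => (hf.irrQ j).not_isUnit (isUnit_of_dvd_one hd))
  -- the class `3`
  have hG3 : ∀ i : I4 cls, ∃ G : ℤ[X], ¬ mQ (f i.1.1) ∣ mQ G ∧ (cls i.1.1 = 3 →
      ∀ p : ℕ, p.Prime → z < p →
        acf cls (famq cls a f ε m z c).g i p = w4 cls i * rhoc (f i.1.1) G p) := by
    intro i
    by_cases hi : cls i.1.1 = 3
    · obtain ⟨G, h1, h2⟩ := acf3 h hG i hi
      exact ⟨G, h1, fun _ => h2⟩
    · refine ⟨1, ?_, fun h3 => absurd h3 hi⟩
      unfold mQ
      rw [Polynomial.map_one]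
      exact fun hd => (hf.irrQ i.1.1).not_isUnit (isUnit_of_dvd_one hd)
  choose G hGn hGa using hG3
  choose E3 t6 hE3 ht6 using fun i : I4 cls => htw (f i.1.1) (hf.irr i.1.1) (hf.deg i.1.1) (G i)
    (hGn i)
  -- the upper bounds
  have hup : ∀ j : J, ∃ z0 : ℕ, ∀ z, z0 ≤ z → ∃ C : ℝ, cls j ≠ 3 → sp j = false → ∀ y : ℕ,
      z < y → Sp (fun p => rhoc (f j) (kk cls a f ε j) p) z y ≤ C := by
    intro j
    by_cases hj : cls j ≠ 3 ∧ sp j = false
    · have hns := hsp1 j hj.1 hj.2
      rw [← kk_eq hj.1] at hns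
      obtain ⟨z0, hz0⟩ := hh1 (f j) (hf.irr j) (hf.deg j) (kk cls a f ε j) (h.ndvd j) hns
      exact ⟨z0, fun z hz => (hz0 z hz).imp fun C hC _ _ => hC⟩
    · exact ⟨0, fun z _ => ⟨0, fun h3 h4 => absurd ⟨h3, h4⟩ hj⟩⟩
  choose t3' ht3 using hup
  -- the lower bounds
  choose t4 ht4 using fun j : J => low_sum (f j) (kk cls a f ε j) (hf.irr j) (hf.deg j)
    (h.ndvd j) (hnd j)
  -- the split factors
  have hsq : ∀ j : J, ∃ z0 : ℕ, cls j ≠ 3 → sp j = true → ∀ p : ℕ, p.Prime → z0 < p →
      rhoc (f j) (kk cls a f ε j) p = rho (f j) p := by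
    intro j
    by_cases hj : cls j ≠ 3 ∧ sp j = true
    · obtain ⟨q, hq⟩ := hsp2 j hj.1 hj.2
      rw [← kk_eq hj.1] at hq
      obtain ⟨z0, hz0⟩ := rhoc_sq (hf.prim j) hq (hnd j)
      exact ⟨z0, fun _ _ => hz0⟩
    · exact ⟨0, fun h3 h4 => absurd ⟨h3, h4⟩ hj⟩
  choose t5 ht5 using hsq
  refine ⟨z + univ.sup t1 + univ.sup t2 + univ.sup t3' + univ.sup t4 + univ.sup t5 +
    univ.sup t6 + (2 * c + 2 + Fintype.card (I4 cls) * (8 * c)), fun z' hz' => ?_⟩
  have l1 : ∀ j, t1 j ≤ z' := fun j => (le_sup (f := t1) (mem_univ j)).trans (by omega)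
  have l2 : ∀ j, t2 j ≤ z' := fun j => (le_sup (f := t2) (mem_univ j)).trans (by omega)
  have l3 : ∀ j, t3' j ≤ z' := fun j => (le_sup (f := t3') (mem_univ j)).trans (by omega)
  have l4 : ∀ j, t4 j ≤ z' := fun j => (le_sup (f := t4) (mem_univ j)).trans (by omega)
  have l5 : ∀ j, t5 j ≤ z' := fun j => (le_sup (f := t5) (mem_univ j)).trans (by omega)
  have l6 : ∀ i, t6 i ≤ z' := fun i => (le_sup (f := t6) (mem_univ i)).trans (by omega)
  have hzz : z ≤ z' := by omega
  choose C1 hC1 using fun j : J => ht1 j z' (l1 j)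
  choose C2 hC2 using fun j : J => ht2 j z' (l2 j)
  choose C3 hC3 using fun j : J => ht3 j z' (l3 j)
  choose C4 hC4 using fun j : J => ht4 j z' (l4 j)
  choose C6 hC6 using fun i : I4 cls => ht6 i z' (l6 i)
  have hz4 := hG.gp.four
  choose Cm hCm0 hCm using fun j : J => mert (hf.irr j) (hf.deg j) (z := z') (by omega)
  -- the constants
  set K0 : ℝ := ∑ j, (|C1 j| + |C2 j| + |C3 j| + |C4 j| + Cm j) + ∑ i, |C6 i| with hK0
  have hK60 : 0 ≤ ∑ i, |C6 i| := sum_nonneg fun i _ => abs_nonneg _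
  have hKs0 : 0 ≤ ∑ j, (|C1 j| + |C2 j| + |C3 j| + |C4 j| + Cm j) :=
    sum_nonneg fun j _ => by have := hCm0 j; positivity
  have hK : ∀ j, |C1 j| + |C2 j| + |C3 j| + |C4 j| + Cm j ≤ K0 := fun j => by
    have := single_le_sum (f := fun j => |C1 j| + |C2 j| + |C3 j| + |C4 j| + Cm j)
      (fun j _ => by have := hCm0 j; positivity) (mem_univ j)
    linarith
  have hK6 : ∀ i, |C6 i| ≤ K0 := fun i => by
    have := single_le_sum (f := fun i => |C6 i|) (fun i _ => abs_nonneg _) (mem_univ i)
    linarith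
  have hKj : ∀ j, |C1 j| ≤ K0 ∧ |C2 j| ≤ K0 ∧ |C3 j| + Cm j ≤ K0 ∧ |C4 j| + Cm j ≤ K0 ∧
      Cm j ≤ K0 := by
    intro j
    have h0 := hK j
    have h1 := abs_nonneg (C1 j)
    have h2 := abs_nonneg (C2 j)
    have h3 := abs_nonneg (C3 j)
    have h4 := abs_nonneg (C4 j)
    have h5 := hCm0 j
    refine ⟨by linarith, by linarith, by linarith, by linarith, by linarith⟩
  have hK00 : 0 ≤ K0 := by linarith
  set L0 : ℝ := ∑ j, (E1 j + E2 j) + ∑ i, E3 i with hL0
  have hL60 : 0 ≤ ∑ i, E3 i := sum_nonneg fun i _ => hE3 i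
  have hLs0 : 0 ≤ ∑ j, (E1 j + E2 j) := sum_nonneg fun j _ => add_nonneg (hE1 j) (hE2 j)
  have hL : ∀ j, E1 j ≤ L0 ∧ E2 j ≤ L0 := by
    intro j
    have h1 := single_le_sum (f := fun j => E1 j + E2 j)
      (fun j _ => add_nonneg (hE1 j) (hE2 j)) (mem_univ j)
    have h2 := hE1 j
    have h3 := hE2 j
    constructor <;> linarith
  have hL6 : ∀ i, E3 i ≤ L0 := fun i => by
    have := single_le_sum (f := fun i => E3 i) (fun i _ => hE3 i) (mem_univ i)
    linarith
  have hL00 : 0 ≤ L0 := by linarith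
  -- the sums over the types
  set g := (famq cls a f ε m z c).g with hg
  have hS : ∀ (j : J) (φ : Bool → ℝ) (y : ℕ), cls j ≠ 3 →
      Sp (fun p => ∑ θ : Ty, φ (θ 0) * g (j, θ) p) z' y =
        cA (eo ε j) φ * Sp (fun p => rho (f j) p) z' y +
        cB (eo ε j) φ * Sp (fun p => rhoc (f j) (kk cls a f ε j) p) z' y := fun j φ y h3 =>
    Sp_tyq1 h hG h3 φ hzz
  have hrs : ∀ (j : J) (y : ℕ), cls j ≠ 3 → Sp (rs g j) z' y =
      cA (eo ε j) (fun _ => 1) * Sp (fun p => rho (f j) p) z' y +
        cB (eo ε j) (fun _ => 1) * Sp (fun p => rhoc (f j) (kk cls a f ε j) p) z' y := by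
    intro j y h3
    rw [← hS j _ y h3]
    congr 1
    funext p
    unfold rs
    simp only [one_mul]
  have hrs3 : ∀ (j : J) (y : ℕ), cls j = 3 → Sp (rs g j) z' y =
      Sp (fun p => rho (f j) p) z' y := by
    intro j y h3
    unfold Sp
    refine sum_congr rfl fun p hp => ?_
    have hp' := mem_filter.1 hp
    have hzp := (mem_Ioc.1 hp'.1).1
    rw [hg, rs3 h h3 hp'.2 (by omega)]
  have hrsp : ∀ (j : J) (y : ℕ), cls j ≠ 3 → Sp (rsp g j) z' y =
      1 / 2 * Sp (fun p => rho (f j) p) z' y +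
        1 / 2 * Sp (fun p => rhoc (f j) (kk cls a f ε j) p) z' y := by
    intro j y hc3
    have h1 := hS j (fun b => if b = false then 1 else 0) y hc3
    have h2 : cA (eo ε j) (fun b => if b = false then (1 : ℝ) else 0) = 1 / 2 := by
      unfold cA
      split_ifs <;> simp
    have h3 : cB (eo ε j) (fun b => if b = false then (1 : ℝ) else 0) = 1 / 2 := by
      unfold cB
      split_ifs <;> simp
    rw [h2, h3] at h1
    rw [← h1]
    congr 1
    funext p
    unfold rsp
    refine sum_congr rfl fun θ _ => ?_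
    split_ifs <;> simp
  have hmert : ∀ j y, z' < y → Sp (fun p => rho (f j) p) z' y ≤ Real.log (Real.log y) + Cm j ∧
      Real.log (Real.log y) - Cm j ≤ Sp (fun p => rho (f j) p) z' y := by
    intro j y hy
    have h1 := abs_le.1 (hCm j y hy)
    constructor <;> linarith [h1.1, h1.2]
  have hspl : ∀ j y, cls j ≠ 3 → sp j = true → Sp (fun p => rhoc (f j) (kk cls a f ε j) p) z' y =
      Sp (fun p => rho (f j) p) z' y := by
    intro j y hc3 hj
    unfold Sp
    refine sum_congr rfl fun p hp => ?_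
    have hp' := mem_filter.1 hp
    have hzp := (mem_Ioc.1 hp'.1).1
    have := l5 j
    beta_reduce
    rw [ht5 j hc3 hj p hp'.2 (by omega)]
  refine ⟨K0, L0, ?_⟩
  exact
    { g0 := fun i p => SFam.g_nonneg _ i p
      gc := by
        intro j p
        have h1 := (famq_ok h hG).nrs p
        have h2 : rs g j p = ((∑ θ : Ty, (famq cls a f ε m z c).nr (j, θ) p : ℕ) : ℝ) := by
          unfold rs
          rw [hg]
          unfold SFam.g
          push_cast
          rfl
        rw [h2]
        have h3 : ∑ θ : Ty, (famq cls a f ε m z c).nr (j, θ) p ≤ c := by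
          refine le_trans ?_ h1
          rw [Fintype.sum_prod_type]
          exact single_le_sum (f := fun j => ∑ θ : Ty, (famq cls a f ε m z c).nr (j, θ) p)
            (fun _ _ => Nat.zero_le _) (mem_univ j)
        exact_mod_cast h3
      c1 := hG.gp.one
      hz := by omega
      hE := hL00
      hC := hK00
      lo := by
        intro j y hy
        obtain ⟨m1, m2⟩ := hmert j y hy
        obtain ⟨k1, k2, k3, k4, k5⟩ := hKj j
        unfold ddq
        by_cases hc3 : cls j = 3
        · rw [if_pos (Or.inl hc3), hrs3 j y hc3]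
          linarith
        rw [hrs j y hc3]
        unfold cA cB
        by_cases ho : Odd (eo ε j)
        · rw [if_pos ho, if_pos ho, if_pos (Or.inr (Or.inl ho))]
          linarith
        · rw [if_neg ho, if_neg ho]
          by_cases hs : sp j = true
          · rw [if_pos (Or.inr (Or.inr hs)), hspl j y hc3 hs]
            linarith
          · rw [if_neg (by tauto)]
            have h4 := hC4 j y hy
            have h5 := le_abs_self (C4 j)
            have h6 := hCm0 j
            have h7 := abs_nonneg (C4 j)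
            linarith
      up := by
        intro j y hy
        obtain ⟨m1, m2⟩ := hmert j y hy
        obtain ⟨k1, k2, k3, k4, k5⟩ := hKj j
        unfold ddq
        by_cases hc3 : cls j = 3
        · rw [if_pos (Or.inl hc3), hrs3 j y hc3]
          linarith
        rw [hrs j y hc3]
        unfold cA cB
        by_cases ho : Odd (eo ε j)
        · rw [if_pos ho, if_pos ho, if_pos (Or.inr (Or.inl ho))]
          linarith
        · rw [if_neg ho, if_neg ho]
          by_cases hs : sp j = true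
          · rw [if_pos (Or.inr (Or.inr hs)), hspl j y hc3 hs]
            linarith
          · rw [if_neg (by tauto)]
            have h4 := hC3 j hc3 (by simpa using hs) y hy
            have h5 := le_abs_self (C3 j)
            have h6 := hCm0 j
            have h7 := abs_nonneg (C3 j)
            linarith
      spl := by
        intro j y hc3 hy
        rw [hrsp j y hc3]
        obtain ⟨m1, m2⟩ := hmert j y hy
        obtain ⟨k1, k2, k3, k4, k5⟩ := hKj j
        unfold sg1
        by_cases hs : sp j = true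
        · rw [if_pos hs, hspl j y hc3 hs]
          linarith
        · rw [if_neg hs]
          have h4 := hC3 j hc3 (by simpa using hs) y hy
          have h5 := le_abs_self (C3 j)
          have h6 := hCm0 j
          have h7 := abs_nonneg (C3 j)
          linarith
      H2 := by
        intro i y r b hy hr hsq hpr
        have hlr := Pool.Agent.TH841.PT.loglog_nonneg (by omega : 2 ≤ z') hr hpr
        have hB : 0 ≤ L0 * Real.log (Real.log r) + K0 := by positivity
        have h10 := mul_le_mul_of_nonneg_right (Pool.Agent.TH841.PT.w4_le cls i) hB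
        by_cases hc3 : cls i.1.1 = 3
        · -- the class `3`
          have h1 : ∑ p ∈ PS z' y, acf cls g i p * (Jr p r * x4 b p) / (p : ℝ) =
              w4 cls i * ∑ p ∈ PS z' y,
                rhoc (f i.1.1) (G i) p * (Jr p r * x4 b p) / (p : ℝ) := by
            rw [mul_sum]
            refine sum_congr rfl fun p hp => ?_
            have hp' := mem_filter.1 hp
            have hzp := (mem_Ioc.1 hp'.1).1
            rw [hg, hGa i hc3 p hp'.2 (by omega)]
            ring
          have h2 := hC6 i y r b hy hr hsq hpr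
          have h3 := mul_le_mul_of_nonneg_right (hL6 i) hlr
          have h4 : ∑ p ∈ PS z' y, rhoc (f i.1.1) (G i) p * (Jr p r * x4 b p) / (p : ℝ) ≤
              L0 * Real.log (Real.log r) + K0 := by
            linarith [le_abs_self (C6 i), hK6 i]
          have h9 := mul_le_mul_of_nonneg_left h4 (Pool.Agent.TH841.PT.w4_pos cls i).le
          rw [h1]
          linarith
        have hJ1 : ∀ p : ℕ, Jr 1 p = 1 := by
          intro p
          unfold Jr
          rw [jacobiSym.one_left]
          norm_num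
        have hkm : κm cls i = 1 := by
          unfold κm
          split_ifs <;> rfl
        obtain ⟨φ, hφ1, hφ2⟩ : ∃ φ : Bool → ℝ, (∀ p, acf cls g i p =
            w4 cls i * ∑ θ : Ty, φ (θ 0) * g (i.1.1, θ) p) ∧
            ((∀ x, φ x = 1) ∨ (∀ x, φ x = if x = true then -1 else 1)) := by
          by_cases hl : i.1.2.1 = (false, false) ∨ i.1.2.2 = (false, false)
          · refine ⟨fun _ => 1, fun p => ?_, Or.inl fun _ => rfl⟩
            unfold acf
            rw [hkm, hJ1, one_mul, mul_sum]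
            refine sum_congr rfl fun θ _ => ?_
            have : bit4 cls (fun _ => θ) i = false := by
              unfold bit4
              rw [if_pos hl]
            rw [this]
            simp
          · refine ⟨fun x => if x = true then -1 else 1, fun p => ?_, Or.inr fun _ => rfl⟩
            unfold acf
            rw [hkm, hJ1, one_mul, mul_sum]
            refine sum_congr rfl fun θ _ => ?_
            have : bit4 cls (fun _ => θ) i = θ 0 := by
              unfold bit4
              rw [if_neg hl, if_neg hc3]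
            rw [this]
        have hsum : ∑ p ∈ PS z' y, acf cls g i p * (Jr p r * x4 b p) / (p : ℝ) =
            w4 cls i * (cA (eo ε i.1.1) φ * ∑ p ∈ PS z' y,
              (rho (f i.1.1) p : ℝ) * (Jr p r * x4 b p) / (p : ℝ) +
            cB (eo ε i.1.1) φ * ∑ p ∈ PS z' y,
              rhoc (f i.1.1) (kk cls a f ε i.1.1) p * (Jr p r * x4 b p) / (p : ℝ)) := by
          rw [← Sp_tyq h hG hc3 φ hzz, mul_sum]
          refine sum_congr rfl fun p _ => ?_
          rw [hφ1]
          ring
        have b1 : ∑ p ∈ PS z' y, (rho (f i.1.1) p : ℝ) * (Jr p r * x4 b p) / (p : ℝ) ≤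
            L0 * Real.log (Real.log r) + K0 := by
          have h1 := hC2 i.1.1 y r b hy hr hsq hpr
          have h2 : ∑ p ∈ PS z' y, (rho (f i.1.1) p : ℝ) * (Jr p r * x4 b p) / (p : ℝ) =
              ∑ p ∈ PS z' y, rhoc (f i.1.1) 1 p * (Jr p r * x4 b p) / (p : ℝ) := by
            refine sum_congr rfl fun p _ => ?_
            congr 2
            unfold rhoc rho
            simp [hJ1]
          rw [h2]
          have h3 := mul_le_mul_of_nonneg_right (hL i.1.1).2 hlr
          linarith [le_abs_self (C2 i.1.1), (hKj i.1.1).2.1]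
        have b2 : ∑ p ∈ PS z' y, rhoc (f i.1.1) (kk cls a f ε i.1.1) p *
            (Jr p r * x4 b p) / (p : ℝ) ≤ L0 * Real.log (Real.log r) + K0 := by
          have h1 := hC1 i.1.1 y r b hy hr hsq hpr
          have h3 := mul_le_mul_of_nonneg_right (hL i.1.1).1 hlr
          linarith [le_abs_self (C1 i.1.1), (hKj i.1.1).1]
        have hAB : 0 ≤ cA (eo ε i.1.1) φ ∧ 0 ≤ cB (eo ε i.1.1) φ ∧
            cA (eo ε i.1.1) φ + cB (eo ε i.1.1) φ ≤ 1 := by
          unfold cA cB
          rcases hφ2 with h1 | h1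
          · rw [h1, h1]
            split_ifs <;> norm_num
          · have f0 : φ false = 1 := by rw [h1]; simp
            have f1 : φ true = -1 := by rw [h1]; simp
            rw [f0, f1]
            split_ifs <;> norm_num
        rw [hsum]
        obtain ⟨a1, a2, a3⟩ := hAB
        have h5 := mul_le_mul_of_nonneg_left b1 a1
        have h6 := mul_le_mul_of_nonneg_left b2 a2
        have h7 : (cA (eo ε i.1.1) φ + cB (eo ε i.1.1) φ) * (L0 * Real.log (Real.log r) + K0) ≤
            1 * (L0 * Real.log (Real.log r) + K0) := mul_le_mul_of_nonneg_right a3 hB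
        have h8 : cA (eo ε i.1.1) φ * ∑ p ∈ PS z' y,
              (rho (f i.1.1) p : ℝ) * (Jr p r * x4 b p) / (p : ℝ) +
            cB (eo ε i.1.1) φ * ∑ p ∈ PS z' y,
              rhoc (f i.1.1) (kk cls a f ε i.1.1) p * (Jr p r * x4 b p) / (p : ℝ) ≤
            L0 * Real.log (Real.log r) + K0 := by linarith
        have h9 := mul_le_mul_of_nonneg_left h8 (Pool.Agent.TH841.PT.w4_pos cls i).le
        linarith }

end

end Pool.Agent.K7.H54.GT
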