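import Pool.Agent.K7.H54.GT.Rnk
import Pool.Agent.K7.H54.GT.Mdl2
import Pool.Agent.K7.H54.SG.Avg
import Pool.Agent.R421.UR.SubA
import Pool.Agent.TH841.TR.Fin

/-!
# Project GT: the average over the box
-/

set_option autoImplicit false
set_option linter.all false

namespace Pool.Agent.K7.H54.GT

open Finset Polynomial Pool.Agent.W262.RK Pool.Agent.W307.RT Pool.Agent.TH841.PT
open Pool.Agent.R421.HF
open Pool.Agent.R421.UR
open Pool.Agent.K7.H54.HR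
open Pool.Agent.K7.H54.SG (SFam NBs avgG)
open Pool.Agent.W307.SE (SN SN_nonneg)

section

variable {J : Type} [Fintype J] [DecidableEq J]

variable {cls : J → Fin 4} {a : Fin 3 → ℤ} {f : J → ℤ[X]} {ε : Fin 3 → J → ℕ} {m z1 c : ℕ}

/-- the local count -/
noncomputable def gq (α : ℝ) (cls : J → Fin 4) (s : J × Ty → ℕ) (E : Finset ℕ) : ℝ :=
  (NL (∏ i, s i) (LTs (clsI cls) eI s E) : ℝ) ^ α

lemma m3_famq (s : J × Ty → ℕ) :
    (famq cls a f ε m z1 c).m3 s = ∏ i ∈ univ.filter (fun i : J × Ty => clsI cls i = 3), s i := by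
  unfold SFam.m3
  refine prod_congr ?_ fun _ _ => rfl
  refine filter_congr fun i _ => ?_
  simp [famq, clsI]

lemma NBs_famq (α : ℝ) (s : J × Ty → ℕ) :
    NBs (famq cls a f ε m z1 c) (gq α cls) s = Pool.Agent.R421.UR.NBA α (clsI cls) eI s := by
  unfold NBs Pool.Agent.R421.UR.NBA P3 gq
  rw [m3_famq]

lemma E_famq (z y : ℕ) :
    ((famq cls a f ε m z1 c).E z y)⁻¹ =
      Real.exp (∑ j, Sp (rs (famq cls a f ε m z1 c).g j) z y) := by
  unfold SFam.E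
  rw [Real.exp_neg, inv_inv]
  congr 1
  unfold Sp SFam.nt rs SFam.g
  rw [sum_comm]
  refine sum_congr rfl fun p _ => ?_
  rw [← sum_div, Fintype.sum_prod_type]
  push_cast
  rfl

/-- the bound of the sum over the tuples -/
def MKq (cls : J → Fin 4) (a : Fin 3 → ℤ) (f : J → ℤ[X]) (ε : Fin 3 → J → ℕ) (m z1 c : ℕ)
    (α : ℝ) : Prop := ∃ z0 : ℕ, ∀ z, z0 ≤ z → ∃ CM : ℝ, ∀ y, z < y →
  ∑ s ∈ Tup (J × Ty) z y, Pool.Agent.R421.UR.NBA α (clsI cls) eI s *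
    ∏ i, gp ((famq cls a f ε m z1 c).g i) c (s i) ≤
    CM * Real.exp (∑ j, Sp (rs (famq cls a f ε m z1 c).g j) z y)

open Classical in
/-- **the average over the box** -/
theorem avgQ (h : HG cls a f ε m) (hG : ZZ a f z1 c) {α : ℝ} (hα : 0 ≤ α) (hα1 : α ≤ 1)
    (hm : MKq cls a f ε m z1 c α) :
    ∃ C : ℝ, 0 ≤ C ∧ ∀ T : ℕ, 1 ≤ T →
      ∑ t ∈ (Box T).filter (fun t : ℤ × ℤ => IsCoprime t.1 t.2 ∧ ∀ j, fh f t.1 t.2 j ≠ 0),
        SN (UV a ε (fh f t.1 t.2) 0) (UV a ε (fh f t.1 t.2) 1) ^ α ≤ C * (T : ℝ) ^ 2 := by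
  set D := famq cls a f ε m z1 c with hD
  have hOK : D.OK := famq_ok h hG
  obtain ⟨z0, hz0⟩ := hm
  obtain ⟨z, hz⟩ : ∃ z : ℕ, z = z0 + D.z1 * (D.κ.natAbs + 1) ^ D.dg + D.z1 + 2 * D.c + 4 + z1 :=
    ⟨_, rfl⟩
  obtain ⟨CM, hCM⟩ := hz0 z (by omega)
  have hB0 : (0 : ℝ) ≤ 4 ^ (z + Fintype.card J + 2) := by positivity
  have hD1 : (1 : ℝ) ≤ 4 ^ (Fintype.card J * ∑ j, (f j).natDegree) := one_le_pow₀ (by norm_num)
  have hg0 : ∀ s E, 0 ≤ gq α cls s E := fun s E => Real.rpow_nonneg (Nat.cast_nonneg _) _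
  obtain ⟨C, hC0, hC⟩ := avgG D hOK
    (fun h t => if h = 1 then SN (UV a ε (fh f t.1 t.2) 0) (UV a ε (fh f t.1 t.2) 1) ^ α else 0)
    (fun h t => by
      split_ifs
      · exact Real.rpow_nonneg (SN_nonneg _ _) _
      · exact le_rfl)
    (gq α cls) hg0 z (by omega) (4 ^ (z + Fintype.card J + 2)) 4
    (4 ^ (Fintype.card J * ∑ j, (f j).natDegree)) hB0 (by norm_num) hD1
    (by
      intro hh x w X y k hh0 hxy h0 hx hw hX hzy hk
      have hg := hg0 (S1 z y (D.pr hh z x w)) (D.neg hh (S1 z y (D.pr hh z x w)) x w)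
      split_ifs with h1
      · subst h1
        have h2 := rnkF h hG hα hα1 (z := z) (by omega) (by omega) hxy h0 hx hw hX hzy hk
        have e : Pool.Agent.K7.H54.SG.om 1 = 0 := by
          unfold Pool.Agent.K7.H54.SG.om
          simp
        rw [e, pow_zero, mul_one]
        exact h2
      · have h3 : (0 : ℝ) ≤ 4 ^ (z + Fintype.card J + 2) * 4 ^ Pool.Agent.K7.H54.SG.om hh *
            (4 ^ (Fintype.card J * ∑ j, (f j).natDegree)) ^ k *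
              4 ^ (∑ i, (S2 z y (D.pr hh z x w) i).primeFactors.card) := by positivity
        exact mul_nonneg h3 hg)
    (by
      intro x w h0
      refine ⟨SN (UV a ε (fh f x w) 0) (UV a ε (fh f x w) 1) ^ α,
        Real.rpow_nonneg (SN_nonneg _ _) _, fun hh hh0 => ?_⟩
      have h1 : 0 ≤ SN (UV a ε (fh f x w) 0) (UV a ε (fh f x w) 1) ^ α :=
        Real.rpow_nonneg (SN_nonneg _ _) _
      have h2 : (1 : ℝ) ≤ 4 ^ Pool.Agent.K7.H54.SG.om hh := one_le_pow₀ (by norm_num)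
      split_ifs
      · exact le_mul_of_one_le_right h1 h2
      · positivity)
    (by
      intro y hy s e hse
      rw [NBs_famq, NBs_famq]
      exact suba hα hα1 (clsI cls) eI z y s e hse)
    CM
    (by
      intro y hy
      have h1 := hCM y hy
      rw [hD, E_famq]
      refine le_trans (le_of_eq ?_) h1
      refine sum_congr rfl fun s _ => ?_
      rw [NBs_famq]
      rfl)
  refine ⟨C * (2 * 4) ^ Pool.Agent.K7.H54.SG.om 1, by positivity, fun T hT => ?_⟩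
  have h1 := hC 1 T one_ne_zero hT
  simp only [eq_self_iff_true, if_true] at h1
  exact h1

open Classical in
/-- **the average, small powers** -/
theorem avgQS (h : HG cls a f ε m) (hG : ZZ a f z1 c) (sp : J → Bool)
    (hσ : ∀ k : Fin 4, k ≠ 3 → Wc cls (sg1 sp) k < Wo cls (ddq cls ε sp) -
      Wc cls (ddq cls ε sp) k)
    (hsp1 : ∀ j, cls j ≠ 3 → sp j = false → NSqg (f j) (KQ cls a f ε j) 1)
    (hsp2 : ∀ j, cls j ≠ 3 → sp j = true → ∃ q : ℚ[X], mQ (f j) ∣ q ^ 2 - mQ (KQ cls a f ε j)) :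
    ∃ α : ℝ, 0 < α ∧ α ≤ 1 ∧ ∃ C : ℝ, 0 ≤ C ∧ ∀ T : ℕ, 1 ≤ T →
      ∑ t ∈ (Box T).filter (fun t : ℤ × ℤ => IsCoprime t.1 t.2 ∧ ∀ j, fh f t.1 t.2 j ≠ 0),
        SN (UV a ε (fh f t.1 t.2) 0) (UV a ε (fh f t.1 t.2) 1) ^ α ≤ C * (T : ℝ) ^ 2 := by
  have hd : ∀ j, 0 < ddq cls ε sp j := by
    intro j
    unfold ddq
    split_ifs <;> norm_num
  have hs0 : ∀ j, 0 ≤ sg1 sp j := by
    intro j
    unfold sg1
    split_ifs <;> norm_num
  obtain ⟨α, hα0, hα1, hmdl⟩ := mdl_alpha cls (ddq cls ε sp) (sg1 sp) hd hs0 hσ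
  refine ⟨α, hα0, hα1, avgQ h hG hα0.le hα1 ?_⟩
  obtain ⟨z0, hz0⟩ := mdlQ Pool.Agent.TH841.TR.h1l Pool.Agent.TH841.PT.twg h sp hsp1 hsp2 hG
  refine ⟨z0, fun z hz => ?_⟩
  obtain ⟨C0, E0, hM⟩ := hz0 z hz
  exact hmdl _ c z C0 E0 hM

end

end Pool.Agent.K7.H54.GT
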