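import Pool.Agent.K7.H54.GT.Avg
import Pool.Agent.K7.H54.HR.Core

/-!
# Project GT: the average over the coprime pairs
-/

set_option autoImplicit false
set_option linter.all false

namespace Pool.Agent.K7.H54.GT

open Finset Polynomial Pool.Agent.W262.RK Pool.Agent.W307.RT Pool.Agent.TH841.PT
open Pool.Agent.R421.HF
open Pool.Agent.R421.UR
open Pool.Agent.K7.H54.HR
open Pool.Agent.W307.SE (SN SN_nonneg)

section

variable {J : Type} [Fintype J] [DecidableEq J]

/-- the hypotheses, with a possible point at infinity -/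
structure PG (cls : J → Fin 4) (a : Fin 3 → ℤ) (f : J → ℤ[X]) (n : J → ℕ) (ε : Fin 3 → J → ℕ)
    (m : ℕ) : Prop where
  hE : HE cls ε
  ha : ∀ k, a k ≠ 0
  kind : ∀ j, (Irreducible (f j) ∧ 0 < (f j).natDegree ∧ n j = (f j).natDegree) ∨
    (f j = 1 ∧ n j = 1)
  assoc : ∀ j l, j ≠ l → ¬ Associated (f j) (f l)
  deg : ∀ k, ∑ l, ε k l * n l = 2 * m
  rel : UQ a f ε 0 - UQ a f ε 1 = UQ a f ε 2

/-- the values of the binary forms -/
def Ug (a : Fin 3 → ℤ) (f : J → ℤ[X]) (n : J → ℕ) (ε : Fin 3 → J → ℕ) (x y : ℤ) (k : Fin 3) : ℤ :=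
  UV a ε (fun l => hv (n l) (f l) x y) k

variable {cls : J → Fin 4} {a : Fin 3 → ℤ} {f : J → ℤ[X]} {n : J → ℕ} {ε : Fin 3 → J → ℕ} {m : ℕ}

lemma PG.ndeg (h : PG cls a f n ε m) (j : J) : (f j).natDegree ≤ n j := by
  rcases h.kind j with h1 | h1
  · exact h1.2.2.ge
  · rw [h1.1, natDegree_one]
    exact Nat.zero_le _

lemma PG.npos (h : PG cls a f n ε m) (j : J) : 0 < n j := by
  rcases h.kind j with h1 | h1
  · rw [h1.2.2]
    exact h1.2.1
  · rw [h1.2]
    exact one_pos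

lemma PG.ne (h : PG cls a f n ε m) (j : J) : f j ≠ 0 := by
  rcases h.kind j with h1 | h1
  · exact h1.1.ne_zero
  · rw [h1.1]
    exact one_ne_zero

lemma PG.Ug_eq (h : PG cls a f n ε m) (x y : ℤ) (k : Fin 3) :
    Ug a f n ε x y k = hv (2 * m) (UQ a f ε k) x y := by
  unfold Ug UV UQ
  rw [hv_C_mul, ← h.deg k, hv_prod _ _ _ _ fun i _ => h.ndeg i]

lemma PG.UQ_deg (h : PG cls a f n ε m) (k : Fin 3) : (UQ a f ε k).natDegree ≤ 2 * m := by
  unfold UQ
  refine (natDegree_C_mul_le _ _).trans ((natDegree_prod_le _ _).trans ?_)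
  rw [← h.deg k]
  exact sum_le_sum fun i _ => natDegree_pow_le_of_le _ (h.ndeg i)

lemma PG.KQ_deg (h : PG cls a f n ε m) (j : J) : (KQ cls a f ε j).natDegree ≤ 2 * m :=
  (natDegree_C_mul_le _ _).trans (h.UQ_deg _)

/-- a point that is not a root -/
lemma PG.exists_c (h : PG cls a f n ε m) : ∃ c : ℤ, ∀ j, (f j).eval c ≠ 0 := by
  have h0 : (∏ j, f j) ≠ 0 := prod_ne_zero_iff.2 fun j _ => h.ne j
  obtain ⟨c, hc⟩ := Infinite.exists_notMem_finset (∏ j, f j).roots.toFinset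
  refine ⟨c, fun j hj => hc ?_⟩
  rw [Multiset.mem_toFinset, mem_roots h0, IsRoot.def, eval_prod]
  exact prod_eq_zero (mem_univ j) hj

variable {c : ℤ}

lemma ng_deg (h : PG cls a f n ε m) (hc : ∀ j, (f j).eval c ≠ 0) (j : J) :
    (nf c f n j).natDegree = n j := mob_deg (h.ndeg j) (hc j)

lemma UV_nf (h : PG cls a f n ε m) (hc : ∀ j, (f j).eval c ≠ 0) (x y : ℤ) (k : Fin 3) :
    UV a ε (fh (nf c f n) x y) k = Ug a f n ε (y + c * x) x k := by
  unfold Ug UV fh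
  congr 1
  refine prod_congr rfl fun l _ => ?_
  rw [ng_deg h hc]
  unfold nf
  rw [hv_mob (h.ndeg l)]

lemma ng_irr (h : PG cls a f n ε m) (hc : ∀ j, (f j).eval c ≠ 0) : Irr (nf c f n) := by
  refine ⟨fun j => ?_, fun j => ?_, fun j l hjl hass => ?_⟩
  · rcases h.kind j with h1 | h1
    · unfold nf mob
      have h2 := irr_reflect (irr_shift h1.1 c) (by rw [natDegree_shift]; exact h1.2.1) (by
        rw [coeff_zero_eq_eval_zero, eval_comp]
        simpa using hc j)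
      rw [natDegree_shift] at h2
      rw [h1.2.2]
      exact h2
    · unfold nf mob
      rw [h1.1, h1.2, one_comp]
      have : reflect 1 (1 : ℤ[X]) = X := by
        ext i
        rw [coeff_reflect, coeff_one, coeff_X]
        by_cases hi : i = 1
        · subst hi
          simp [revAt_le le_rfl]
        · by_cases hi0 : i = 0
          · subst hi0
            simp [revAt_le (Nat.zero_le 1)]
          · rw [revAt_eq_self_of_lt (by omega), if_neg hi0, if_neg (Ne.symm hi)]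
      rw [this]
      exact irreducible_X
  · rw [ng_deg h hc]
    exact h.npos j
  · exact h.assoc j l hjl (assoc_back (h.ndeg j) (h.ndeg l) (hc j) (hc l) hass)

lemma PG.Ug_sub (h : PG cls a f n ε m) (x y : ℤ) :
    Ug a f n ε x y 0 - Ug a f n ε x y 1 = Ug a f n ε x y 2 := by
  rw [h.Ug_eq, h.Ug_eq, h.Ug_eq, ← hv_sub, h.rel]

lemma UV_one (x : ℤ) (k : Fin 3) : UV a ε (fh f x 1) k = (UQ a f ε k).eval x := by
  unfold UV fh UQ
  rw [eval_mul, eval_C, eval_prod]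
  congr 1
  refine prod_congr rfl fun l _ => ?_
  rw [hv_one le_rfl, eval_pow]

lemma ng_HG (h : PG cls a f n ε m) (hc : ∀ j, (f j).eval c ≠ 0) : HG cls a (nf c f n) ε m where
  hE := h.hE
  ha := h.ha
  hf := ng_irr h hc
  deg := by
    intro k
    rw [← h.deg k]
    exact sum_congr rfl fun l _ => by rw [ng_deg h hc]
  rel := by
    apply Polynomial.funext
    intro T
    rw [eval_sub, ← UV_one, ← UV_one, ← UV_one, UV_nf h hc, UV_nf h hc, UV_nf h hc, h.Ug_sub]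

lemma ng_KQ (h : PG cls a f n ε m) (hc : ∀ j, (f j).eval c ≠ 0) (j : J) :
    KQ cls a (nf c f n) ε j = mob c (2 * m) (KQ cls a f ε j) := by
  apply Polynomial.funext
  intro T
  have h1 : (mob c (2 * m) (KQ cls a f ε j)).eval T =
      hv (2 * m) (KQ cls a f ε j) (1 + c * T) T := by
    rw [← hv_one (mob_deg_le (h.KQ_deg j) c), hv_mob (h.KQ_deg j)]
  have h2 : (KQ cls a (nf c f n) ε j).eval T =
      sgM (cls j) * Ug a f n ε (1 + c * T) T (cpM (cls j)) := by
    rw [← UV_nf h hc, UV_one]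
    unfold KQ
    rw [eval_mul, eval_C]
  rw [h1, h2, h.Ug_eq]
  unfold KQ
  rw [hv_C_mul]

/-- the squares -/
def SqG (cls : J → Fin 4) (a : Fin 3 → ℤ) (f : J → ℤ[X]) (ε : Fin 3 → J → ℕ) (m : ℕ) (j : J) :
    Prop :=
  (f j = 1 ∧ IsSquare (((KQ cls a f ε j).coeff (2 * m) : ℤ) : ℚ)) ∨
    (f j ≠ 1 ∧ ∃ q : ℚ[X], mQ (f j) ∣ q ^ 2 - mQ (KQ cls a f ε j))

lemma SqG_iff (h : PG cls a f n ε m) (hc : ∀ j, (f j).eval c ≠ 0) (j : J) :
    SqG cls a f ε m j ↔ ∃ q : ℚ[X], mQ (nf c f n j) ∣ q ^ 2 - mQ (KQ cls a (nf c f n) ε j) := by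
  unfold SqG
  rw [ng_KQ h hc]
  rcases h.kind j with h1 | h1
  · have hne : f j ≠ 1 := by
      intro h2
      have := h1.2.1
      rw [h2, natDegree_one] at this
      exact lt_irrefl _ this
    have h2 := mob_sq (f := f j) (k := KQ cls a f ε j) (c := c) (n := n j) (m := m)
      h1.2.2.symm (h.ne j) (hc j) (h.KQ_deg j)
    unfold mQ nf
    rw [← h2]
    simp [hne]
  · have hX : nf c f n j = X := by
      unfold nf mob
      rw [h1.1, h1.2, one_comp]
      ext i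
      rw [coeff_reflect, coeff_one, coeff_X]
      by_cases hi : i = 1
      · subst hi
        simp [revAt_le le_rfl]
      · by_cases hi0 : i = 0
        · subst hi0
          simp [revAt_le (Nat.zero_le 1)]
        · rw [revAt_eq_self_of_lt (by omega), if_neg hi0, if_neg (Ne.symm hi)]
    rw [hX]
    unfold mQ
    rw [Polynomial.map_X]
    have hcf : (mob c (2 * m) (KQ cls a f ε j)).coeff 0 = (KQ cls a f ε j).coeff (2 * m) := by
      unfold mob
      rw [coeff_reflect, revAt_le (Nat.zero_le _), Nat.sub_zero]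
      rcases (h.KQ_deg j).lt_or_eq with h3 | h3
      · rw [coeff_eq_zero_of_natDegree_lt h3,
          coeff_eq_zero_of_natDegree_lt (by rwa [natDegree_shift])]
      · have h4 : ((KQ cls a f ε j).comp (X + C c)).leadingCoeff =
            (KQ cls a f ε j).leadingCoeff := by
          rw [leadingCoeff_comp (by rw [natDegree_X_add_C]; norm_num), leadingCoeff_X_add_C,
            one_pow, mul_one]
        unfold leadingCoeff at h4
        rw [natDegree_shift, h3] at h4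
        exact h4
    have key : ∀ q : ℚ[X], X ∣ q ^ 2 - (mob c (2 * m) (KQ cls a f ε j)).map (Int.castRingHom ℚ) ↔
        q.coeff 0 ^ 2 = (((KQ cls a f ε j).coeff (2 * m) : ℤ) : ℚ) := by
      intro q
      rw [X_dvd_iff, coeff_sub, coeff_map, hcf, sq, mul_coeff_zero, sq, sub_eq_zero]
      rfl
    simp only [h1.1, true_and, ne_eq, not_true_eq_false, false_and, or_false, key]
    constructor
    · rintro ⟨r, hr⟩
      exact ⟨C r, by rw [coeff_C_zero, hr, sq]⟩
    · rintro ⟨q, hq⟩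
      exact ⟨q.coeff 0, by rw [← hq, sq]⟩

open Classical in
/-- back to the original variables -/
lemma transG (h : PG cls a f n ε m) (hc : ∀ j, (f j).eval c ≠ 0) {R : ℤ → ℤ → ℝ} {C : ℝ}
    (hR0 : ∀ x y, 0 ≤ R x y)
    (hC : ∀ T : ℕ, 1 ≤ T →
      ∑ t ∈ (Box T).filter (fun t : ℤ × ℤ => IsCoprime t.1 t.2 ∧
        ∀ j, fh (nf c f n) t.1 t.2 j ≠ 0),
      R (UV a ε (fh (nf c f n) t.1 t.2) 0) (UV a ε (fh (nf c f n) t.1 t.2) 1) ≤ C * (T : ℝ) ^ 2)
    (T : ℕ) (hT : 1 ≤ T) :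
      ∑ t ∈ (Box T).filter (fun t : ℤ × ℤ => IsCoprime t.1 t.2 ∧
          ∀ j, hv (n j) (f j) t.1 t.2 ≠ 0),
        R (Ug a f n ε t.1 t.2 0) (Ug a f n ε t.1 t.2 1) ≤
          C * (1 + c.natAbs : ℕ) ^ 2 * (T : ℝ) ^ 2 := by
  obtain ⟨φ, hφ⟩ : ∃ φ : ℤ × ℤ → ℤ × ℤ, ∀ t, φ t = (t.2, t.1 - c * t.2) := ⟨_, fun t => rfl⟩
  have hφi : Function.Injective φ := by
    intro t t' htt
    rw [hφ, hφ, Prod.mk.injEq] at htt
    refine Prod.ext ?_ htt.1
    have := htt.2
    rw [htt.1] at this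
    linarith
  have hkey : ∀ t : ℤ × ℤ, (φ t).2 + c * (φ t).1 = t.1 ∧ (φ t).1 = t.2 := by
    intro t
    rw [hφ]
    exact ⟨by ring, rfl⟩
  have hval : ∀ (t : ℤ × ℤ) (k : Fin 3), UV a ε (fh (nf c f n) (φ t).1 (φ t).2) k =
      Ug a f n ε t.1 t.2 k := by
    intro t k
    rw [UV_nf h hc, (hkey t).1, (hkey t).2]
  have hsub : ((Box T).filter (fun t : ℤ × ℤ => IsCoprime t.1 t.2 ∧
      ∀ j, hv (n j) (f j) t.1 t.2 ≠ 0)).image φ ⊆
      (Box ((1 + c.natAbs) * T)).filter (fun t : ℤ × ℤ => IsCoprime t.1 t.2 ∧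
        ∀ j, fh (nf c f n) t.1 t.2 j ≠ 0) := by
    intro s hs
    obtain ⟨t, ht, rfl⟩ := mem_image.1 hs
    have h2 := mem_Box.1 (mem_filter.1 ht).1
    have h2' := (mem_filter.1 ht).2
    rw [mem_filter]
    refine ⟨?_, ?_, ?_⟩
    · rw [mem_Box, hφ]
      have h3 : (t.1 - c * t.2).natAbs ≤ t.1.natAbs + c.natAbs * t.2.natAbs := by
        rw [← Int.natAbs_mul]
        exact Int.natAbs_sub_le _ _
      have h4 : c.natAbs * t.2.natAbs ≤ c.natAbs * T := Nat.mul_le_mul_left _ h2.2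
      constructor
      · exact h2.2.trans (Nat.le_mul_of_pos_left T (by omega))
      · refine h3.trans ((add_le_add h2.1 h4).trans (le_of_eq ?_))
        ring
    · rw [hφ]
      simp only
      have h3 : IsCoprime t.2 t.1 := h2'.1.symm
      have h4 : t.1 - c * t.2 = t.1 + (-c) * t.2 := by ring
      rw [h4]
      exact h3.add_mul_right_right _
    · intro j
      have h3 : fh (nf c f n) (φ t).1 (φ t).2 j = hv (n j) (f j) t.1 t.2 := by
        unfold fh
        rw [ng_deg h hc]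
        unfold nf
        rw [hv_mob (h.ndeg j), (hkey t).1, (hkey t).2]
      rw [h3]
      exact h2'.2 j
  have h1 := (sum_le_sum_of_subset_of_nonneg hsub (fun t _ _ => hR0
    (UV a ε (fh (nf c f n) t.1 t.2) 0) (UV a ε (fh (nf c f n) t.1 t.2) 1))).trans
    (hC ((1 + c.natAbs) * T) (Nat.mul_pos (by omega) hT))
  rw [sum_image (fun _ _ _ _ h => hφi h)] at h1
  refine (le_of_eq ?_).trans (h1.trans (le_of_eq ?_))
  · refine sum_congr rfl fun t _ => ?_
    rw [← hval t 0, ← hval t 1]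
  · push_cast
    ring

open Classical in
/-- **the average over the coprime pairs** -/
theorem coreG (h : PG cls a f n ε m) (sp : J → Bool)
    (hsp : ∀ j, cls j ≠ 3 → (sp j = true ↔ SqG cls a f ε m j))
    (hw : ∀ k : Fin 4, k ≠ 3 → Wc cls (sg1 sp) k < Wo cls (ddq cls ε sp) -
      Wc cls (ddq cls ε sp) k) :
    ∃ α : ℝ, 0 < α ∧ α ≤ 1 ∧ ∃ C : ℝ, 0 ≤ C ∧ ∀ T : ℕ, 1 ≤ T →
      ∑ t ∈ (Box T).filter (fun t : ℤ × ℤ => IsCoprime t.1 t.2 ∧
          ∀ j, hv (n j) (f j) t.1 t.2 ≠ 0),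
        SN (Ug a f n ε t.1 t.2 0) (Ug a f n ε t.1 t.2 1) ^ α ≤ C * (T : ℝ) ^ 2 := by
  obtain ⟨c, hc⟩ := h.exists_c
  have hH := ng_HG h hc
  obtain ⟨z, hz⟩ := exists_ZZ GDPf.gdp hH.hf h.ha ((∏ j, nf c f n j).natDegree + 1) le_rfl
  have hG := hz z le_rfl
  obtain ⟨α, hα0, hα1, C, hC0, hC⟩ := avgQS hH hG sp hw
    (fun j h3 hj q hq => by
      have h1 : SqG cls a f ε m j := (SqG_iff h hc j).2 ⟨q, by simpa using hq⟩
      rw [← hsp j h3, hj] at h1
      exact Bool.false_ne_true h1)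
    (fun j h3 hj => (SqG_iff h hc j).1 ((hsp j h3).1 hj))
  refine ⟨α, hα0, hα1, C * (1 + c.natAbs : ℕ) ^ 2, by positivity, fun T hT => ?_⟩
  exact transG h hc (R := fun x y => SN x y ^ α) (fun x y => Real.rpow_nonneg (SN_nonneg _ _) _)
    hC T hT

end

end Pool.Agent.K7.H54.GT
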