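import Pool.Agent.K7.H54.GT.Comb
import Pool.Agent.K7.H54.GT.Core
import Pool.Agent.TH841.TR.Fin2

/-!
# Project GT: the average of the order of the 2-Selmer group
-/

set_option autoImplicit false
set_option linter.all false

namespace Pool.Agent.K7.H54.GT

open Finset Polynomial Pool.Agent.W262.RK Pool.Agent.W307.RT Pool.Agent.TH841.PT
open Pool.Agent.R421.HF
open Pool.Agent.R421.UR
open Pool.Agent.K7.H54.HR
open Pool.Agent.K7.H54.SG (SFam)
open Pool.Agent.W307.SE (SN SN_nonneg)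
open Pool.Agent.TH841.TR (ZI)

open Pool.Agent.H474R2.PG (rho)

section

variable {J : Type} [Fintype J] [DecidableEq J]

variable {cls : J → Fin 4} {a : Fin 3 → ℤ} {f : J → ℤ[X]} {ε : Fin 3 → J → ℕ} {m z c : ℕ}

lemma Mdl.mono {g : J × Ty → ℕ → ℝ} {d σ : J → ℝ} {c z : ℕ} {C0 C1 E0 : ℝ}
    (h : Mdl cls g d σ c z C0 E0) (hC : C0 ≤ C1) : Mdl cls g d σ c z C1 E0 where
  g0 := h.g0
  gc := h.gc
  c1 := h.c1
  hz := h.hz
  hE := h.hE
  hC := h.hC.trans hC
  lo := fun j y hy => by have := h.lo j y hy; linarith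
  up := fun j y hy => by have := h.up j y hy; linarith
  spl := fun j y h3 hy => by have := h.spl j y h3 hy; linarith
  H2 := fun i y r e hy hr hsq hpr => by have := h.H2 i y r e hy hr hsq hpr; linarith

/-- the forms without cancellation -/
def sqb (ε : Fin 3 → J → ℕ) (sp : J → Bool) (j : J) : Bool := sp j || decide (Even (eo ε j))

/-- the signed sums -/
lemma H1q (hh1 : Pool.Agent.TH841.TR.H1L) (h : HG cls a f ε m) (sp : J → Bool)
    (hsp1 : ∀ j, cls j ≠ 3 → sp j = false → NSqg (f j) (KQ cls a f ε j) 1)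
    (hG : ZZ a f z c) :
    ∃ z0 : ℕ, ∀ z', z0 ≤ z' → ∃ C1 : ℝ, ∀ i ∈ ZI cls (sqb ε sp), ∀ y, z' < y →
      ∑ p ∈ PS z' y, acf cls (famq cls a f ε m z c).g i p / (p : ℝ) ≤ C1 := by
  classical
  have hf := h.hf
  have hup : ∀ j : J, ∃ z0 : ℕ, ∀ z, z0 ≤ z → ∃ C : ℝ, cls j ≠ 3 → sp j = false → ∀ y : ℕ,
      z < y → Sp (fun p => rhoc (f j) (kk cls a f ε j) p) z y ≤ C := by
    intro j
    by_cases hj : cls j ≠ 3 ∧ sp j = false
    · have hns := hsp1 j hj.1 hj.2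
      rw [← kk_eq hj.1] at hns
      obtain ⟨z0, hz0⟩ := hh1 (f j) (hf.irr j) (hf.deg j) (kk cls a f ε j) (h.ndvd j) hns
      exact ⟨z0, fun z hz => (hz0 z hz).imp fun C hC _ _ => hC⟩
    · exact ⟨0, fun z _ => ⟨0, fun h3 h4 => absurd ⟨h3, h4⟩ hj⟩⟩
  choose t3' ht3 using hup
  refine ⟨z + univ.sup t3', fun z' hz' => ?_⟩
  have l3 : ∀ j, t3' j ≤ z' := fun j => (le_sup (f := t3') (mem_univ j)).trans (by omega)
  have hzz : z ≤ z' := by omega
  choose C3 hC3 using fun j : J => ht3 j z' (l3 j)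
  refine ⟨∑ j, |C3 j|, fun i hi y hy => ?_⟩
  obtain ⟨h3, hs, ht⟩ := (mem_filter.1 hi).2
  unfold sqb at hs
  simp only [Bool.or_eq_false_iff, decide_eq_false_iff_not, Nat.not_even_iff_odd] at hs
  obtain ⟨hs, ho⟩ := hs
  have hkm : κm cls i = 1 := by
    unfold κm
    split_ifs <;> rfl
  have hJ1 : ∀ p : ℕ, Jr 1 p = 1 := by
    intro p
    unfold Jr
    rw [jacobiSym.one_left]
    norm_num
  have hb : ∀ θ : Ty, bit4 cls (fun _ => θ) i = θ 0 := by
    intro θ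
    unfold bit4
    have hne : ¬ (i.1.2.1 = (false, false) ∨ i.1.2.2 = (false, false)) := by
      rw [ht]
      generalize cls i.1.1 = k at h3 ⊢
      revert h3
      revert k
      decide
    rw [if_neg hne, if_neg h3]
  have h1 : ∀ p, acf cls (famq cls a f ε m z c).g i p =
      w4 cls i * ∑ θ : Ty, (fun x : Bool => if x = true then (-1 : ℝ) else 1) (θ 0) *
        (famq cls a f ε m z c).g (i.1.1, θ) p := by
    intro p
    unfold acf
    rw [hkm, hJ1, one_mul, mul_sum]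
    refine sum_congr rfl fun θ _ => ?_
    rw [hb]
  have h2 : ∑ p ∈ PS z' y, acf cls (famq cls a f ε m z c).g i p / (p : ℝ) =
      w4 cls i * Sp (fun p => rhoc (f i.1.1) (kk cls a f ε i.1.1) p) z' y := by
    have h4 := Sp_tyq1 (y := y) h hG h3 (fun x : Bool => if x = true then (-1 : ℝ) else 1) hzz
    have hA : cA (eo ε i.1.1) (fun x : Bool => if x = true then (-1 : ℝ) else 1) = 0 := by
      unfold cA
      rw [if_pos ho]
      norm_num
    have hB : cB (eo ε i.1.1) (fun x : Bool => if x = true then (-1 : ℝ) else 1) = 1 := by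
      unfold cB
      rw [if_pos ho]
      norm_num
    rw [hA, hB, zero_mul, zero_add, one_mul] at h4
    rw [← h4]
    unfold Sp
    rw [mul_sum]
    refine sum_congr rfl fun p _ => ?_
    rw [h1]
    ring
  rw [h2]
  have h4 := hC3 i.1.1 h3 hs y hy
  have h5 := le_abs_self (C3 i.1.1)
  have h6 := single_le_sum (f := fun j => |C3 j|) (fun j _ => abs_nonneg _) (mem_univ i.1.1)
  have h7 : Sp (fun p => rhoc (f i.1.1) (kk cls a f ε i.1.1) p) z' y ≤ ∑ j, |C3 j| := by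
    beta_reduce at h6
    linarith
  have h8 : 0 ≤ ∑ j, |C3 j| := sum_nonneg fun j _ => abs_nonneg _
  have h9 := mul_le_mul_of_nonneg_left h7 (Pool.Agent.TH841.PT.w4_pos cls i).le
  have h10 := mul_le_mul_of_nonneg_right (Pool.Agent.TH841.PT.w4_le cls i) h8
  linarith

/-- **the main sum, first moment** -/
theorem mkq1 (h : HG cls a f ε m) (sp : J → Bool)
    (hsp1 : ∀ j, cls j ≠ 3 → sp j = false → NSqg (f j) (KQ cls a f ε j) 1)
    (hsp2 : ∀ j, cls j ≠ 3 → sp j = true → ∃ q : ℚ[X], mQ (f j) ∣ q ^ 2 - mQ (KQ cls a f ε j))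
    (hG : ZZ a f z c) (hT : WTri cls (ddq cls ε sp) (sqb ε sp)) :
    MKq cls a f ε m z c 1 := by
  obtain ⟨z0, hz0⟩ := mdlQ Pool.Agent.TH841.TR.h1l Pool.Agent.TH841.PT.twg h sp hsp1 hsp2 hG
  obtain ⟨z1, hz1⟩ := H1q Pool.Agent.TH841.TR.h1l h sp hsp1 hG
  refine ⟨z0 + z1, fun z' hz' => ?_⟩
  obtain ⟨C0, E0, hM⟩ := hz0 z' (by omega)
  obtain ⟨C1, hC1⟩ := hz1 z' (by omega)
  have hM' := Mdl.mono hM (le_max_left C0 C1)
  have hd : ∀ j, (1 : ℝ) / 2 ≤ ddq cls ε sp j := by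
    intro j
    unfold ddq
    split_ifs <;> norm_num
  obtain ⟨C, hC⟩ := mak1 (Pool.Agent.TH841.TR.atxr Pool.Agent.TH841.TR.EULf.eul)
    MergeF.merge ExpT.expt hM' (fun i hi y hy => (hC1 i hi y hy).trans (le_max_right C0 C1))
    (by norm_num : (0 : ℝ) < 1 / 2) hd hT
  refine ⟨C, fun y hy => ?_⟩
  have h1 := hC y hy
  refine le_trans (le_of_eq ?_) h1
  refine sum_congr rfl fun s _ => ?_
  congr 1
  unfold NBA NBT
  simp only [Real.rpow_one]

open Classical in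
/-- **the average over the coprime pairs, first moment** -/
theorem coreG1 {n : J → ℕ} (h : PG cls a f n ε m) (sp : J → Bool)
    (hsp : ∀ j, cls j ≠ 3 → (sp j = true ↔ SqG cls a f ε m j))
    (hT : WTri cls (ddq cls ε sp) (sqb ε sp)) :
    ∃ C : ℝ, 0 ≤ C ∧ ∀ T : ℕ, 1 ≤ T →
      ∑ t ∈ (Box T).filter (fun t : ℤ × ℤ => IsCoprime t.1 t.2 ∧
          ∀ j, hv (n j) (f j) t.1 t.2 ≠ 0),
        SN (Ug a f n ε t.1 t.2 0) (Ug a f n ε t.1 t.2 1) ≤ C * (T : ℝ) ^ 2 := by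
  obtain ⟨c, hc⟩ := h.exists_c
  have hH := ng_HG h hc
  obtain ⟨z, hz⟩ := exists_ZZ GDPf.gdp hH.hf h.ha ((∏ j, nf c f n j).natDegree + 1) le_rfl
  have hG := hz z le_rfl
  have hm := mkq1 hH sp
    (fun j h3 hj q hq => by
      have h1 : SqG cls a f ε m j := (SqG_iff h hc j).2 ⟨q, by simpa using hq⟩
      rw [← hsp j h3, hj] at h1
      exact Bool.false_ne_true h1)
    (fun j h3 hj => (SqG_iff h hc j).1 ((hsp j h3).1 hj)) hG hT
  obtain ⟨C, hC0, hC⟩ := avgQ hH hG (zero_le_one' ℝ) le_rfl hm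
  simp only [Real.rpow_one] at hC
  refine ⟨C * (1 + c.natAbs : ℕ) ^ 2, by positivity, fun T hT => ?_⟩
  exact transG h hc (R := fun x y => SN x y) (fun x y => SN_nonneg _ _) hC T hT

end

end Pool.Agent.K7.H54.GT
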