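import Pool.Agent.K7.H54.GT.Loc3
import Pool.Agent.K7.H54.HR.Frm2
import Pool.Agent.K7.H54.SG.BFam

/-!
# Project GT: all the families over the projective line with full 2-torsion

`A_k = a_k ∏ f_l ^ ε_{k,l}`; the forms of the class `3` divide all the three.
-/

set_option autoImplicit false
set_option linter.all false

namespace Pool.Agent.K7.H54.GT

open Finset Polynomial Pool.Agent.W262.RK Pool.Agent.W307.RT Pool.Agent.TH841.PT
open Pool.Agent.R421.HF
open Pool.Agent.K7.H54.HR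
open Pool.Agent.K7.H54.SG (SFam)

open Pool.Agent.H474R2.PG (rho)
open Pool.Agent.R421.HF (NeuM)

section

variable {J : Type} [Fintype J] [DecidableEq J]

/-- `u_k = a_k ∏ f_l ^ ε_{k,l}` -/
noncomputable def UQ (a : Fin 3 → ℤ) (f : J → ℤ[X]) (ε : Fin 3 → J → ℕ) (k : Fin 3) : ℤ[X] :=
  C (a k) * ∏ l, f l ^ ε k l

/-- the values -/
def UV (a : Fin 3 → ℤ) (ε : Fin 3 → J → ℕ) (X : J → ℤ) (k : Fin 3) : ℤ := a k * ∏ l, X l ^ ε k l

/-- the cofactors -/
noncomputable def CQ (a : Fin 3 → ℤ) (f : J → ℤ[X]) (ε : Fin 3 → J → ℕ) (j : J) (k : Fin 3) :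
    ℤ[X] := C (a k) * ∏ l ∈ univ.erase j, f l ^ ε k l

/-- the values of the cofactors -/
def CV (a : Fin 3 → ℤ) (ε : Fin 3 → J → ℕ) (X : J → ℤ) (j : J) (k : Fin 3) : ℤ :=
  a k * ∏ l ∈ univ.erase j, X l ^ ε k l

/-- the polynomial of the tangent directions -/
noncomputable def KQ (cls : J → Fin 4) (a : Fin 3 → ℤ) (f : J → ℤ[X]) (ε : Fin 3 → J → ℕ)
    (j : J) : ℤ[X] := C (sgM (cls j)) * UQ a f ε (cpM (cls j))

/-- the values of the tangent directions -/
def KV (cls : J → Fin 4) (a : Fin 3 → ℤ) (ε : Fin 3 → J → ℕ) (X : J → ℤ) (j : J) : ℤ :=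
  sgM (cls j) * UV a ε X (cpM (cls j))

/-- the exponent of a form of the classes `0`, `1`, `2` -/
def eo (ε : Fin 3 → J → ℕ) (j : J) : ℕ := ε 0 j + ε 1 j + ε 2 j

/-- the exponents of the class `3` -/
def E3 (ε : Fin 3 → J → ℕ) (j : J) : Prop :=
  (1 ≤ ε 0 j ∧ ε 1 j = 1 ∧ ε 2 j = 1) ∨ (ε 0 j = 1 ∧ 1 ≤ ε 1 j ∧ ε 2 j = 1) ∨
    (ε 0 j = 1 ∧ ε 1 j = 1 ∧ 1 ≤ ε 2 j)

/-- the hypotheses on the exponents -/
structure HE (cls : J → Fin 4) (ε : Fin 3 → J → ℕ) : Prop where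
  e3 : ∀ j, cls j = 3 → E3 ε j
  e1 : ∀ j (k : Fin 3), cls j = k.castSucc → 1 ≤ ε k j
  e0 : ∀ j (k : Fin 3), cls j ≠ 3 → cls j ≠ k.castSucc → ε k j = 0

variable {cls : J → Fin 4} {a : Fin 3 → ℤ} {f : J → ℤ[X]} {ε : Fin 3 → J → ℕ} {m z c : ℕ}

lemma HE.eo_eq (h : HE cls ε) {j : J} {k : Fin 3} (hj : cls j = k.castSucc) :
    eo ε j = ε k j := by
  have h3 : cls j ≠ 3 := by
    rw [hj]
    revert k
    intro k _
    fin_cases k <;> decide
  have h1 : ∀ l : Fin 3, l ≠ k → ε l j = 0 := fun l hl => h.e0 j l h3 (fun h2 => hl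
    (Fin.castSucc_injective _ (h2.symm.trans hj)))
  unfold eo
  fin_cases k
  · have e1 := h1 1 (by decide)
    have e2 := h1 2 (by decide)
    simp [e1, e2]
  · have e1 := h1 0 (by decide)
    have e2 := h1 2 (by decide)
    simp [e1, e2]
  · have e1 := h1 0 (by decide)
    have e2 := h1 1 (by decide)
    simp [e1, e2]

lemma UV_CV (X : J → ℤ) (j : J) (k : Fin 3) : UV a ε X k = X j ^ ε k j * CV a ε X j k := by
  unfold UV CV
  rw [← mul_prod_erase univ (fun l => X l ^ ε k l) (mem_univ j)]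
  ring

lemma UQ_CQ (j : J) (k : Fin 3) : UQ a f ε k = f j ^ ε k j * CQ a f ε j k := by
  unfold UQ CQ
  rw [← mul_prod_erase univ (fun l => f l ^ ε k l) (mem_univ j)]
  ring

/-- one value is divisible by `p` -/
structure One (p : ℕ) (a : Fin 3 → ℤ) (X : J → ℤ) (j : J) : Prop where
  pr : p.Prime
  X0 : ∀ l, X l ≠ 0
  ndv : ∀ k, ¬ (p : ℤ) ∣ a k
  dv : (p : ℤ) ∣ X j
  un : ∀ l, l ≠ j → ¬ (p : ℤ) ∣ X l

variable {p : ℕ} {X : J → ℤ} {j : J}

lemma One.a0 (h : One p a X j) (k : Fin 3) : a k ≠ 0 := fun h0 => h.ndv k (by simp [h0])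

lemma One.CV (h : One p a X j) (k : Fin 3) : ¬ (p : ℤ) ∣ CV a ε X j k := by
  have hpi := Nat.prime_iff_prime_int.1 h.pr
  intro hd
  unfold GT.CV at hd
  rcases hpi.dvd_mul.1 hd with h1 | h1
  · exact h.ndv k h1
  · obtain ⟨l, hl1, hl2⟩ := (hpi.dvd_finsetProd_iff _).1 h1
    exact h.un l (ne_of_mem_erase hl1) (hpi.dvd_of_dvd_pow hl2)

lemma One.U0 (h : One p a X j) (k : Fin 3) : UV a ε X k ≠ 0 := by
  unfold UV
  exact mul_ne_zero (h.a0 k) (prod_ne_zero_iff.2 fun l _ => pow_ne_zero _ (h.X0 l))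

lemma One.Und (h : One p a X j) {k : Fin 3} (hk : ε k j = 0) : ¬ (p : ℤ) ∣ UV a ε X k := by
  rw [UV_CV X j k, hk, pow_zero, one_mul]
  exact h.CV k

lemma One.Ud (h : One p a X j) {k : Fin 3} (hk : 1 ≤ ε k j) : (p : ℤ) ∣ UV a ε X k := by
  rw [UV_CV X j k]
  exact (dvd_pow h.dv (by omega)).mul_right _

lemma One.val (h : One p a X j) (k : Fin 3) :
    padicValInt p (UV a ε X k) = ε k j * padicValInt p (X j) := by
  haveI := Fact.mk h.pr
  have hc := h.CV (ε := ε) k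
  have hc0 : GT.CV a ε X j k ≠ 0 := fun h0 => hc (by simp [h0])
  rw [UV_CV X j k, padicValInt.mul (pow_ne_zero _ (h.X0 j)) hc0,
    padicValInt.eq_zero_of_not_dvd hc, add_zero]
  have h5 : ∀ n : ℕ, padicValInt p (X j ^ n) = n * padicValInt p (X j) := by
    intro n
    induction n with
    | zero => simp
    | succ n ih =>
      rw [pow_succ, padicValInt.mul (pow_ne_zero _ (h.X0 j)) (h.X0 j), ih]
      ring
  exact h5 _

lemma One.KV (hE : HE cls ε) (h : One p a X j) (hj3 : cls j ≠ 3) :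
    ¬ (p : ℤ) ∣ KV cls a ε X j := by
  have hpi := Nat.prime_iff_prime_int.1 h.pr
  intro hd
  unfold GT.KV at hd
  rcases hpi.dvd_mul.1 hd with h1 | h1
  · rcases sgM_cases (cls j) with h2 | h2
    · rw [h2] at h1
      exact hpi.not_dvd_one h1
    · rw [h2, dvd_neg] at h1
      exact hpi.not_dvd_one h1
  · exact h.Und (hE.e0 j _ hj3 (fun h2 => cpM_ne hj3 h2.symm)) h1

/-- the local conditions at the primes of the classes `0`, `1`, `2` -/
lemma One.loc (hE : HE cls ε) (h : One p a X j) (hj3 : cls j ≠ 3)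
    (hU : UV a ε X 0 - UV a ε X 1 = UV a ε X 2) :
    ((Odd (eo ε j * padicValInt p (X j)) ∨ jacobiSym (GT.KV cls a ε X j) p = 1) →
      LocM (cls j) (GT.KV cls a ε X j) p (UV a ε X 0) (UV a ε X 1)) ∧
    (Even (eo ε j * padicValInt p (X j)) → jacobiSym (GT.KV cls a ε X j) p ≠ 1 →
      NeuM (cls j) p (UV a ε X 0) (UV a ε X 1)) := by
  obtain ⟨k, hk⟩ := exists_k hj3
  have hpi := Nat.prime_iff_prime_int.1 h.pr
  have hd := h.Ud (hE.e1 j k hk)
  have hnd : ∀ l : Fin 3, l ≠ k → ¬ (p : ℤ) ∣ UV a ε X l := fun l hl =>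
    h.Und (hE.e0 j l hj3 (fun h1 => hl (Fin.castSucc_injective _ (h1.symm.trans hk))))
  have hval := h.val (ε := ε) k
  rw [← hE.eo_eq hk] at hval
  have hkv := h.KV hE hj3
  have hkk : jacobiSym (GT.KV cls a ε X j * GT.KV cls a ε X j) p = 1 := by
    rw [jacobiSym.mul_left]
    rcases jac_cases h.pr hkv with h5 | h5 <;> rw [h5] <;> norm_num
  rw [← hval]
  refine ⟨fun h2 => ?_, fun h1 h2 => ?_⟩
  · unfold LocM
    fin_cases k
    · have hk' : cls j = 0 := hk
      have e1 : GT.KV cls a ε X j = -UV a ε X 1 := by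
        unfold GT.KV sgM cpM
        rw [hk']
        simp
      rw [if_pos hk']
      refine ⟨hd, hnd 1 (by decide), ?_, h2⟩
      rw [← e1]
      exact hkk
    · have hk' : cls j = 1 := hk
      have e1 : GT.KV cls a ε X j = -UV a ε X 0 := by
        unfold GT.KV sgM cpM
        rw [hk']
        simp
      rw [if_neg (by rw [hk']; decide), if_pos hk']
      refine ⟨hd, hnd 0 (by decide), ?_, h2⟩
      rw [← e1]
      exact hkk
    · have hk' : cls j = 2 := hk
      have e1 : GT.KV cls a ε X j = UV a ε X 0 := by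
        unfold GT.KV sgM cpM
        rw [hk']
        simp
      rw [if_neg (by rw [hk']; decide), if_neg (by rw [hk']; decide), hU]
      refine ⟨hd, hnd 0 (by decide), ?_, h2⟩
      rw [e1] at hkk
      rw [e1]
      exact hkk
  · unfold NeuM
    fin_cases k
    · have hk' : cls j = 0 := hk
      have e1 : GT.KV cls a ε X j = -UV a ε X 1 := by
        unfold GT.KV sgM cpM
        rw [hk']
        simp
      rw [if_pos hk']
      refine ⟨hd, hnd 1 (by decide), h1, ?_⟩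
      rw [← e1]
      exact h2
    · have hk' : cls j = 1 := hk
      have e1 : GT.KV cls a ε X j = -UV a ε X 0 := by
        unfold GT.KV sgM cpM
        rw [hk']
        simp
      rw [if_neg (by rw [hk']; decide), if_pos hk']
      refine ⟨hd, hnd 0 (by decide), h1, ?_⟩
      rw [← e1]
      exact h2
    · have hk' : cls j = 2 := hk
      have e1 : GT.KV cls a ε X j = UV a ε X 0 := by
        unfold GT.KV sgM cpM
        rw [hk']
        simp
      rw [if_neg (by rw [hk']; decide), if_neg (by rw [hk']; decide), hU]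
      refine ⟨hd, hnd 0 (by decide), h1, ?_⟩
      rw [← e1]
      exact h2

/-- the data at the primes of the class `3` -/
lemma One.loc3 (h : One p a X j) (h2 : ¬ (p : ℤ) ^ 2 ∣ X j) (h3 : E3 ε j)
    (hU : UV a ε X 0 - UV a ε X 1 = UV a ε X 2) :
    D3 p (UV a ε X 0) (UV a ε X 1) (ε 0 j) (ε 1 j) (ε 2 j)
      ((X j / p) ^ ε 0 j * GT.CV a ε X j 0) ((X j / p) ^ ε 1 j * GT.CV a ε X j 1)
      ((X j / p) ^ ε 2 j * GT.CV a ε X j 2) := by
  have hpi := Nat.prime_iff_prime_int.1 h.pr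
  have hX : X j = p * (X j / p) := (Int.mul_ediv_cancel' h.dv).symm
  have hu : ¬ (p : ℤ) ∣ X j / p := by
    intro hd
    apply h2
    rw [hX, sq]
    exact mul_dvd_mul_left _ hd
  have key : ∀ k, UV a ε X k = (p : ℤ) ^ ε k j * ((X j / p) ^ ε k j * GT.CV a ε X j k) := by
    intro k
    rw [UV_CV X j k, ← mul_assoc, ← mul_pow, ← hX]
  have hn : ∀ k, ¬ (p : ℤ) ∣ (X j / p) ^ ε k j * GT.CV a ε X j k := by
    intro k hd
    rcases hpi.dvd_mul.1 hd with h4 | h4
    · exact hu (hpi.dvd_of_dvd_pow h4)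
    · exact h.CV k h4
  exact ⟨key 0, key 1, by rw [hU]; exact key 2, hn 0, hn 1, hn 2, h3⟩

/-! ### the types -/

/-- the types of the class `3` -/
def t3 (oa ob oc m : Bool) (σ : Fin 3 → Bool) : Ty :=
  if oa = false then ![xor (σ 0) (σ 1), σ 1, xor m (σ 1)]
  else if ob = false then ![σ 0, xor (σ 0) (σ 1), σ 0]
  else if oc = false then ![σ 0, σ 0, xor m (xor (σ 0) (σ 2))]
  else σ

/-- the Boolean relation -/
lemma t3_rel (oa ob oc m sA sB sC neg : Bool) (σ : Fin 3 → Bool)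
    (hA : sA = xor (oa && neg) (σ 0)) (hB : sB = xor (ob && neg) (σ 1))
    (hC : sC = xor (oc && neg) (σ 2))
    (h1 : (oa = true ∧ ob = true ∧ oc = true) ∨
      (oa = false ∧ ob = true ∧ oc = true ∧ sC = xor m sB) ∨
      (oa = true ∧ ob = false ∧ oc = true ∧ sC = sA) ∨
      (oa = true ∧ ob = true ∧ oc = false ∧ sA = sB)) :
    Rel3 oa ob oc sA sB sC m neg (t3 oa ob oc m σ) := by
  subst hA hB hC
  unfold Rel3 t3
  rcases h1 with ⟨rfl, rfl, rfl⟩ | ⟨rfl, rfl, rfl, h1⟩ | ⟨rfl, rfl, rfl, h1⟩ | ⟨rfl, rfl, rfl, h1⟩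
  · rw [if_neg (by decide), if_neg (by decide), if_neg (by decide), if_neg (by decide),
      if_neg (by decide), if_neg (by decide)]
    generalize σ 0 = s0
    generalize σ 1 = s1
    generalize σ 2 = s2
    revert s0 s1 s2 neg m
    decide
  · rw [if_pos rfl, if_pos rfl]
    simp only [Matrix.cons_val_zero, Matrix.cons_val_one, Matrix.cons_val]
    generalize σ 0 = s0 at *
    generalize σ 1 = s1 at *
    generalize σ 2 = s2 at *
    revert s0 s1 s2 neg m
    decide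
  · rw [if_neg (by decide), if_pos rfl, if_neg (by decide), if_pos rfl]
    simp only [Matrix.cons_val_zero, Matrix.cons_val_one, Matrix.cons_val]
    generalize σ 0 = s0 at *
    generalize σ 1 = s1 at *
    generalize σ 2 = s2 at *
    revert s0 s1 s2 neg m
    decide
  · rw [if_neg (by decide), if_neg (by decide), if_pos rfl, if_neg (by decide),
      if_neg (by decide), if_pos rfl]
    simp only [Matrix.cons_val_zero, Matrix.cons_val_one, Matrix.cons_val]
    generalize σ 0 = s0 at *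
    generalize σ 1 = s1 at *
    generalize σ 2 = s2 at *
    revert s0 s1 s2 neg m
    decide

/-- the parity -/
def od (n : ℕ) : Bool := !decide (Even n)

lemma sg0_pow {p : ℕ} [hp : Fact p.Prime] {u : ℤ} (hu : ¬ (p : ℤ) ∣ u) (n : ℕ) :
    sg0 p (u ^ n) = (od n && sg0 p u) := by
  have hpi := Nat.prime_iff_prime_int.1 hp.out
  induction n with
  | zero =>
    rw [pow_zero, Pool.Agent.W342.RK2.sg0_one]
    simp [od]
  | succ n ih =>
    rw [pow_succ, Pool.Agent.W342.RK2.sg0_mul (fun h => hu (hpi.dvd_of_dvd_pow h)) hu, ih]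
    unfold od
    rcases Nat.even_or_odd n with h | h
    · have h1 : ¬ Even (n + 1) := by
        rw [Nat.not_even_iff_odd]
        exact h.add_one
      simp [h, h1]
    · have h0 : ¬ Even n := Nat.not_even_iff_odd.2 h
      have h1 : Even (n + 1) := h.add_one
      simp [h0, h1]

/-- **the local conditions at the primes of the class `3`**: `w` is the second variable, `d` the
degree of the form, `N` the even degree -/
lemma One.rel3 (h : One p a X j) (h2 : ¬ (p : ℤ) ^ 2 ∣ X j) (h3 : E3 ε j)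
    (hU : UV a ε X 0 - UV a ε X 1 = UV a ε X 2) {w : ℤ} (hw : ¬ (p : ℤ) ∣ w) (d : ℕ)
    {neg : Bool} (hneg : neg = xor (sg0 p (X j / p)) (od d && sg0 p w)) {σ : Fin 3 → Bool}
    (hσ : ∀ k, σ k = sg0 p (w ^ (ε k j * d) * GT.CV a ε X j k)) :
    Rel3 (od (ε 0 j)) (od (ε 1 j)) (od (ε 2 j))
      (sg0 p ((X j / p) ^ ε 0 j * GT.CV a ε X j 0)) (sg0 p ((X j / p) ^ ε 1 j * GT.CV a ε X j 1))
      (sg0 p ((X j / p) ^ ε 2 j * GT.CV a ε X j 2)) (sg0 p (-1)) neg
      (t3 (od (ε 0 j)) (od (ε 1 j)) (od (ε 2 j)) (sg0 p (-1)) σ) := by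
  haveI := Fact.mk h.pr
  have hpi := Nat.prime_iff_prime_int.1 h.pr
  have hX : X j = p * (X j / p) := (Int.mul_ediv_cancel' h.dv).symm
  have hu : ¬ (p : ℤ) ∣ X j / p := by
    intro hd
    apply h2
    rw [hX, sq]
    exact mul_dvd_mul_left _ hd
  have hD := h.loc3 h2 h3 hU
  have key : ∀ k, sg0 p ((X j / p) ^ ε k j * GT.CV a ε X j k) =
      xor (od (ε k j) && neg) (σ k) := by
    intro k
    rw [hσ, Pool.Agent.W342.RK2.sg0_mul (fun h4 => hu (hpi.dvd_of_dvd_pow h4)) (h.CV k),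
      Pool.Agent.W342.RK2.sg0_mul (fun h4 => hw (hpi.dvd_of_dvd_pow h4)) (h.CV k),
      sg0_pow hu, sg0_pow hw, hneg]
    have h5 : od (ε k j * d) = (od (ε k j) && od d) := by
      unfold od
      by_cases h6 : Even (ε k j) <;> by_cases h7 : Even d <;> simp [Nat.even_mul, h6, h7]
    rw [h5]
    generalize od (ε k j) = b1
    generalize od d = b2
    generalize sg0 p (X j / p) = b3
    generalize sg0 p w = b4
    generalize sg0 p (GT.CV a ε X j k) = b5
    revert b1 b2 b3 b4 b5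
    decide
  obtain ⟨s1, s2, s3⟩ := hD.signs
  refine t3_rel _ _ _ _ _ _ _ _ σ (key 0) (key 1) (key 2) ?_
  have o1 : od 1 = true := by simp [od]
  have oe : ∀ n, od n = true ∨ (od n = false ∧ Even n) := by
    intro n
    unfold od
    by_cases h6 : Even n <;> simp [h6]
  rcases h3 with ⟨-, e2, e3⟩ | ⟨e1, -, e3⟩ | ⟨e1, e2, -⟩
  · rcases oe (ε 0 j) with h6 | ⟨h6, h7⟩
    · exact Or.inl ⟨h6, by rw [e2, o1], by rw [e3, o1]⟩
    · exact Or.inr (Or.inl ⟨h6, by rw [e2, o1], by rw [e3, o1], s1 h7⟩)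
  · rcases oe (ε 1 j) with h6 | ⟨h6, h7⟩
    · exact Or.inl ⟨by rw [e1, o1], h6, by rw [e3, o1]⟩
    · exact Or.inr (Or.inr (Or.inl ⟨by rw [e1, o1], h6, by rw [e3, o1], s2 h7⟩))
  · rcases oe (ε 2 j) with h6 | ⟨h6, h7⟩
    · exact Or.inl ⟨by rw [e1, o1], by rw [e2, o1], h6⟩
    · exact Or.inr (Or.inr (Or.inr ⟨by rw [e1, o1], by rw [e2, o1], h6, s3 h7⟩))

end

end Pool.Agent.K7.H54.GT
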