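import Pool.Agent.TH841.TR.COMB
import Pool.Agent.TH841.TR.MakX
import Pool.Agent.R421.UR.Sums

/-!
# Project GT: the largest unlinked sets, with weights
-/

set_option autoImplicit false
set_option linter.all false

namespace Pool.Agent.K7.H54.GT

open Finset Pool.Agent.W262.RK Pool.Agent.TH841.PT Pool.Agent.TH841.TR Pool.Agent.TH841.TR.COMBf
open Pool.Agent.R421.UR

section

variable {J : Type} [Fintype J] [DecidableEq J] {cls : J → Fin 4} {sp : J → Bool} {d : J → ℝ}

/-- the condition -/
def WTri (cls : J → Fin 4) (d : J → ℝ) (sp : J → Bool) : Prop :=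
  ∀ k : Fin 4, k ≠ 3 → 2 * Wc cls d k +
    ∑ j ∈ univ.filter (fun j => cls j = k ∧ sp j = true), d j ≤ Wo cls d

lemma sum_le_capW (hd : ∀ j, 0 ≤ d j) (C : Finset (I4 cls)) (P : J → T → Bool)
    (h : ∀ i ∈ C, P i.1.1 i.1.2 = true) :
    ∑ i ∈ C, w4 cls i * d i.1.1 ≤ ∑ j, d j * cap (cls j) (P j) := by
  have h1 : ∑ i ∈ C, w4 cls i * d i.1.1 =
      ∑ j, ∑ i ∈ C.filter (fun i => i.1.1 = j), w4 cls i * d i.1.1 := by
    rw [Finset.sum_fiberwise]
  rw [h1]
  refine Finset.sum_le_sum fun j _ => ?_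
  have h2 : ∑ i ∈ C.filter (fun i => i.1.1 = j), w4 cls i * d i.1.1 =
      d j * ((if cls j = 3 then 1 / 4 else 1 / 2) *
        ((C.filter (fun i => i.1.1 = j)).card : ℝ)) := by
    rw [Finset.sum_congr rfl (g := fun _ => (if cls j = 3 then (1 / 4 : ℝ) else 1 / 2) * d j),
      Finset.sum_const, nsmul_eq_mul]
    · ring
    intro i hi
    rw [mem_filter] at hi
    unfold w4
    rw [hi.2]
  rw [h2]
  unfold cap
  apply mul_le_mul_of_nonneg_left _ (hd j)
  apply mul_le_mul_of_nonneg_left _ (by split_ifs <;> norm_num)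
  rw [Nat.cast_le]
  apply Finset.card_le_card_of_injOn (fun i : I4 cls => i.1.2)
  · intro i hi
    rw [mem_coe, mem_filter] at hi
    rw [mem_coe, mem_filter]
    refine ⟨mem_univ _, ?_, ?_⟩
    · have := i.2
      rw [hi.2] at this
      exact this
    · have := h i hi.1
      rw [hi.2] at this
      exact this
  · intro i hi i' hi' he
    rw [mem_coe, mem_filter] at hi hi'
    apply Subtype.ext
    exact Prod.ext (hi.2.trans hi'.2.symm) he

lemma wd_nonneg (hd : ∀ j, 0 ≤ d j) (i : I4 cls) : 0 ≤ w4 cls i * d i.1.1 :=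
  mul_nonneg (w4_nonneg i) (hd _)

theorem caW (hd : ∀ j, 0 ≤ d j) (hT : WTri cls d sp) :
    CA (L4 cls) (ZI cls sp) (fun i => w4 cls i * d i.1.1) (∑ j, d j) := by
  intro F hF
  by_cases hc : ∃ p ∈ F, ∃ r ∈ F, L4 cls p r = true
  · obtain ⟨p, hp, r, hr, hpr⟩ := hc
    have hrp : L4 cls r p = true := by rw [← hF p hp r hr]; exact hpr
    refine (sum_le_capW hd _ (fun _ => PD3) ?_).trans ?_
    · intro i hi
      rw [mem_filter] at hi
      exact decide_eq_true (tl1 p.1.2 r.1.2 i.1.2 (sing_i p) (sing_i r) hpr hrp (hF i hi.1 p hp)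
        (hF i hi.1 r hr))
    · exact Finset.sum_le_sum fun j _ => by rw [capD3, mul_one]
  · push Not at hc
    have hc' : ∀ p ∈ F, ∀ r ∈ F, Lt p.1.2 r.1.2 = false := by
      intro p hp r hr
      have := hc p hp r hr
      rw [L4_eq] at this
      simpa using this
    by_cases h1 : ∀ t ∈ F, t.1.2.2 = (false, false)
    · refine (sum_le_capW hd _ (fun _ => PD1) ?_).trans ?_
      · intro i hi
        exact decide_eq_true (h1 i (mem_filter.1 hi).1)
      · exact Finset.sum_le_sum fun j _ => by rw [capD1, mul_one]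
    by_cases h2 : ∀ t ∈ F, t.1.2.1 = (false, false)
    · refine (sum_le_capW hd _ (fun _ => PD2) ?_).trans ?_
      · intro i hi
        exact decide_eq_true (h2 i (mem_filter.1 hi).1)
      · exact Finset.sum_le_sum fun j _ => by rw [capD2, mul_one]
    push Not at h1 h2
    obtain ⟨u, hu, hu2⟩ := h1
    obtain ⟨t, ht, ht1⟩ := h2
    obtain ⟨k, hk3, hk⟩ := tl4 t.1.2 u.1.2 ht1 hu2 (hc' t ht u hu)
    refine (sum_le_capW hd _ (fun j => fun s => COMBf.PS k s && !PZ (cls j) (sp j) s) ?_).trans ?_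
    · intro i hi
      rw [mem_filter] at hi
      obtain ⟨hi1, hi2⟩ := hi
      have h3 := hk i.1.2 (hc' t ht i hi1) (hc' i hi1 u hu)
      have h4 : PZ (cls i.1.1) (sp i.1.1) i.1.2 = false := by
        by_contra h5
        rw [Bool.not_eq_false] at h5
        apply hi2
        refine ⟨(mem_ZI i).2 h5, fun j hj => ?_⟩
        rw [L4_eq, L4_eq]
        exact ⟨hc' i hi1 j hj, hc' j hj i hi1⟩
      have h5 : COMBf.PS k i.1.2 = true := by
        unfold COMBf.PS
        simp only [Bool.and_eq_true, Bool.or_eq_true, decide_eq_true_eq]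
        exact h3
      simp only [h4, h5, Bool.not_false, Bool.and_self]
    · have h3 : ∀ j : J, d j * cap (cls j) (fun s => COMBf.PS k s && !PZ (cls j) (sp j) s) =
          d j + (if cls j = k then d j else 0) +
            (1 / 2) * (if cls j = k ∧ sp j = true then d j else 0) -
            (1 / 2) * (if cls j ≠ 3 then d j else 0) := by
        intro j
        rw [capS _ _ _ hk3]
        split_ifs <;> ring
      rw [Finset.sum_congr rfl fun j _ => h3 j, Finset.sum_sub_distrib, Finset.sum_add_distrib,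
        Finset.sum_add_distrib, ← mul_sum, ← mul_sum, ← sum_filter, ← sum_filter, ← sum_filter]
      have h4 := hT k hk3
      unfold Wc Wo at h4
      linarith

/-- the slack when all types lie in the third plane -/
lemma dslackW {δ : ℝ} (hδ : 0 < δ) (hd : ∀ j, δ ≤ d j) (hT : WTri cls d sp)
    (C : Finset (I4 cls)) (hC : ∀ i ∈ C, i.1.2.2 = i.1.2.1.swap)
    (w : I4 cls) (hw : w ∉ C) (hs : ∀ i ∈ C, L4 cls i w = L4 cls w i) :
    ∑ i ∈ C, w4 cls i * d i.1.1 ≤ ∑ j, d j - δ / 4 := by
  have hd0 : ∀ j, 0 ≤ d j := fun j => hδ.le.trans (hd j)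
  by_cases hw3 : w.1.2.2 = w.1.2.1.swap
  · have h1 := sum_le_capW (cls := cls) hd0 (insert w C) (fun _ => PD3) (by
      intro i hi
      rcases mem_insert.1 hi with rfl | hi
      · exact decide_eq_true hw3
      · exact decide_eq_true (hC i hi))
    rw [Finset.sum_insert hw] at h1
    have h2 : ∑ j : J, d j * cap (cls j) PD3 = ∑ j, d j :=
      Finset.sum_congr rfl fun j _ => by rw [capD3, mul_one]
    have h3 := w4_ge w
    have h4 := hd w.1.1
    have h5 : δ / 4 ≤ w4 cls w * d w.1.1 := by nlinarith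
    linarith
  · obtain ⟨k, hk3, hk⟩ := tl3 w.1.2 (sing_i w) hw3
    have h1 := sum_le_capW (cls := cls) hd0 C (fun _ => PU k) (by
      intro i hi
      have := hk i.1.2 (hC i hi) (hs i hi)
      unfold PU
      simp only [Bool.or_eq_true, decide_eq_true_eq]
      exact this)
    refine h1.trans ?_
    have h3 : ∀ j : J, d j * cap (cls j) (PU k) = d j - (1 / 2) * if cls j ≠ k then d j else 0 := by
      intro j
      rw [capU _ _ hk3]
      by_cases h : cls j = k
      · simp [h]
      · simp only [h, if_false, ne_eq, not_false_eq_true, if_true]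
        ring
    rw [Finset.sum_congr rfl fun j _ => h3 j, Finset.sum_sub_distrib, ← mul_sum, ← sum_filter]
    have h4 : δ ≤ ∑ j ∈ univ.filter (fun j => cls j ≠ k), d j := by
      by_cases h5 : ∃ j, cls j ≠ k
      · obtain ⟨j, hj⟩ := h5
        exact (hd j).trans (single_le_sum (f := d) (fun j _ => hd0 j)
          (mem_filter.2 ⟨mem_univ j, hj⟩))
      · exfalso
        push Not at h5
        have h9 := hT k hk3
        have h10 : univ.filter (fun j => cls j = k) = univ := by
          rw [Finset.filter_true_of_mem]; intro j _; exact h5 j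
        have h11 : univ.filter (fun j => cls j ≠ 3) = univ := by
          rw [Finset.filter_true_of_mem]; intro j _; rw [h5 j]; exact hk3
        unfold Wc Wo at h9
        rw [h10, h11] at h9
        have h12 : 0 ≤ ∑ j ∈ univ.filter (fun j => cls j = k ∧ sp j = true), d j :=
          sum_nonneg fun j _ => hd0 j
        have h13 : δ ≤ ∑ j, d j := (hd w.1.1).trans
          (single_le_sum (f := d) (fun j _ => hd0 j) (mem_univ w.1.1))
        linarith
    linarith

theorem cbW {δ : ℝ} (hδ : 0 < δ) (hd : ∀ j, δ ≤ d j) (hT : WTri cls d sp) :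
    CB (L4 cls) (ZI cls sp) (fun i => w4 cls i * d i.1.1) (∑ j, d j - δ / 4) := by
  have hd0 : ∀ j, 0 ≤ d j := fun j => hδ.le.trans (hd j)
  intro F W hdis hF hex
  obtain ⟨w, hwW, hwq⟩ := hex
  set F' : Finset (I4 cls) := F.filter (fun i => ∀ w ∈ W, L4 cls i w = L4 cls w i) with hF'
  have hwF' : w ∉ F' := fun h => Finset.disjoint_left.1 hdis (mem_filter.1 h).1 hwW
  have hF's : ∀ i ∈ F', ∀ x ∈ F ∪ W, L4 cls i x = L4 cls x i := by
    intro i hi x hx
    rw [hF', mem_filter] at hi
    rcases mem_union.1 hx with hx | hx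
    · exact hF i hi.1 x hx
    · exact hi.2 x hx
  have hsub : GF (L4 cls) (ZI cls sp) F W ⊆ F' := by
    intro i hi
    rw [mem_GF] at hi
    exact mem_filter.2 ⟨hi.1, hi.2.1⟩
  -- a coupled pair forces the third plane
  have key : ∀ p x : I4 cls, p ∈ F ∪ W → x ∈ F ∪ W → L4 cls p x = true → L4 cls x p = true →
      ∑ i ∈ GF (L4 cls) (ZI cls sp) F W, w4 cls i * d i.1.1 ≤ ∑ j, d j - δ / 4 := by
    intro p x hp hx h1 h2
    refine (Finset.sum_le_sum_of_subset_of_nonneg hsub fun i _ _ => wd_nonneg hd0 i).trans ?_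
    refine dslackW hδ hd hT F' (fun i hi => ?_) w hwF'
      (fun i hi => hF's i hi w (mem_union_right _ hwW))
    exact tl1 p.1.2 x.1.2 i.1.2 (sing_i p) (sing_i x) h1 h2 (hF's i hi p hp) (hF's i hi x hx)
  by_cases hA : ∃ q ∈ F', q ∈ ZI cls sp ∧ ¬ Unc (L4 cls) q (F ∪ W)
  · obtain ⟨q, hq, _, hqu⟩ := hA
    unfold Unc at hqu
    push Not at hqu
    obtain ⟨x, hx, hqx⟩ := hqu
    have hs := hF's q hq x hx
    have hq' : q ∈ F ∪ W := mem_union_left _ (mem_filter.1 hq).1
    by_cases h1 : L4 cls q x = true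
    · exact key q x hq' hx h1 (hs ▸ h1)
    · have h2 := hqx (by simpa using h1)
      have h3 : L4 cls x q = true := by simpa using h2
      exact absurd (hs.trans h3) h1
  · push Not at hA
    -- an unsigned index outside of `F'`
    have key2 : ∀ x ∈ F ∪ W, x ∉ F' → x ∉ ZI cls sp →
        ∑ i ∈ GF (L4 cls) (ZI cls sp) F W, w4 cls i * d i.1.1 ≤ ∑ j, d j - δ / 4 := by
      intro x hx hxF hxZ
      have h1 := caW (sp := sp) hd0 hT (insert x F') (by
        intro i hi j hj
        rw [mem_insert] at hi hj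
        rcases hi with rfl | hi
        · rcases hj with rfl | hj
          · rfl
          · exact (hF's j hj i hx).symm
        · rcases hj with rfl | hj
          · exact hF's i hi j hx
          · exact hF i (mem_filter.1 hi).1 j (mem_filter.1 hj).1)
      have h2 : insert x (GF (L4 cls) (ZI cls sp) F W) ⊆
          (insert x F').filter (fun i => ¬ (i ∈ ZI cls sp ∧ Unc (L4 cls) i (insert x F'))) := by
        intro i hi
        rcases mem_insert.1 hi with rfl | hi
        · exact mem_filter.2 ⟨mem_insert_self _ _, fun h => hxZ h.1⟩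
        · have hi2 := hsub hi
          rw [mem_GF] at hi
          refine mem_filter.2 ⟨mem_insert_of_mem hi2, fun h => hi.2.2 ⟨h.1, ?_⟩⟩
          exact hA i hi2 h.1
      have hxn : x ∉ GF (L4 cls) (ZI cls sp) F W := fun h => hxF (hsub h)
      have h3 := (Finset.sum_le_sum_of_subset_of_nonneg h2 fun i _ _ => wd_nonneg hd0 i).trans h1
      rw [Finset.sum_insert hxn] at h3
      have h4 := w4_ge x
      have h6 := hd x.1.1
      have h5 : δ / 4 ≤ w4 cls x * d x.1.1 := by nlinarith
      linarith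
    by_cases hwZ : w ∈ ZI cls sp
    · have hwu : ¬ Unc (L4 cls) w (F ∪ W) := fun h => hwq ⟨hwZ, h⟩
      unfold Unc at hwu
      push Not at hwu
      obtain ⟨x, hx, hwx⟩ := hwu
      have hor : L4 cls w x = true ∨ L4 cls x w = true := by
        by_cases h1 : L4 cls w x = true
        · exact Or.inl h1
        · right
          have h2 := hwx (by simpa using h1)
          simpa using h2
      by_cases hx2 : x ∈ F' ∨ x ∈ ZI cls sp
      · have hs : L4 cls w x = L4 cls x w := by
          rcases hx2 with hx2 | hx2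
          · exact (hF's x hx2 w (mem_union_right _ hwW)).symm
          · have e : ∀ i : I4 cls, i ∈ ZI cls sp → i.1.2.2 = i.1.2.1.swap := by
              intro i hi
              have := (mem_ZI i).1 hi
              unfold PZ at this
              simp only [Bool.and_eq_true, decide_eq_true_eq] at this
              rw [this.2]
            exact tl2 w.1.2 x.1.2 (e w hwZ) (e x hx2)
        have h1 : L4 cls w x = true := by
          rcases hor with h | h
          · exact h
          · rw [hs]; exact h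
        exact key w x (mem_union_right _ hwW) hx h1 (hs ▸ h1)
      · push Not at hx2
        exact key2 x hx hx2.1 hx2.2
    · exact key2 w (mem_union_right _ hwW) hwF' hwZ

variable {g : J × Ty → ℕ → ℝ} {σ : J → ℝ} {c z : ℕ} {C0 E0 : ℝ}

lemma sum_add_B {S' : Finset (I4 cls)} {w S : I4 cls → ℝ} {K T B : ℝ} (h1 : ∑ i ∈ S', w i ≤ K)
    (hT : 0 ≤ T) (hB : 0 ≤ B) (hS : ∀ i, S i ≤ w i * T + B) :
    ∑ i ∈ S', S i ≤ K * T + Fintype.card (I4 cls) * B := by
  have h2 : (S'.card : ℝ) ≤ Fintype.card (I4 cls) := by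
    exact_mod_cast card_le_univ S'
  calc ∑ i ∈ S', S i ≤ ∑ i ∈ S', (w i * T + B) := sum_le_sum fun i _ => hS i
    _ = (∑ i ∈ S', w i) * T + S'.card * B := by
        rw [sum_add_distrib, sum_mul, sum_const, nsmul_eq_mul]
    _ ≤ K * T + Fintype.card (I4 cls) * B :=
        add_le_add (mul_le_mul_of_nonneg_right h1 hT) (mul_le_mul_of_nonneg_right h2 hB)

lemma CA_add {L : I4 cls → I4 cls → Bool} {Z : Finset (I4 cls)} {w S : I4 cls → ℝ} {K T B : ℝ}
    (h : CA L Z w K) (hT : 0 ≤ T) (hB : 0 ≤ B) (hS : ∀ i, S i ≤ w i * T + B) :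
    CA L Z S (K * T + Fintype.card (I4 cls) * B) := fun F hF => sum_add_B (h F hF) hT hB hS

lemma CB_add {L : I4 cls → I4 cls → Bool} {Z : Finset (I4 cls)} {w S : I4 cls → ℝ} {K T B : ℝ}
    (h : CB L Z w K) (hT : 0 ≤ T) (hB : 0 ≤ B) (hS : ∀ i, S i ≤ w i * T + B) :
    CB L Z S (K * T + Fintype.card (I4 cls) * B) := fun F W hFW hF hW =>
  sum_add_B (h F W hFW hF hW) hT hB hS

/-- **the main average, first moment** -/
theorem mak1 (hats : ATXR) (hmer : MERGE) (hexp : EXPT) (h : Mdl cls g d σ c z C0 E0)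
    (H1 : ∀ i ∈ ZI cls sp, ∀ y, z < y → ∑ p ∈ W262.RK.PS z y, acf cls g i p / (p : ℝ) ≤ C0) {δ : ℝ}
    (hδ : 0 < δ) (hd : ∀ j, δ ≤ d j) (hT : WTri cls d sp) :
    ∃ C : ℝ, ∀ y, z < y → ∑ s ∈ Tup (J × Ty) z y, NBT (clsI cls) eI s *
        ∏ i, gp (g i) c (s i) ≤ C * Real.exp (∑ j, Sp (rs g j) z y) := by
  classical
  have hC := h.hC
  have hc := h.c1
  have hz := h.hz
  have hd0 : ∀ j, 0 ≤ d j := fun j => hδ.le.trans (hd j)
  set C1 : ℝ := Fintype.card J * C0 + Fintype.card (I4 cls) * C0 with hC1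
  have hC10 : 0 ≤ C1 := by positivity
  set b : I4 cls → ℕ → ℝ := fun i p => w4 cls i * rs g i.1.1 p with hb
  have hSb : ∀ i y, z < y → Sp (b i) z y ≤ w4 cls i * d i.1.1 * Real.log (Real.log y) + C0 := by
    intro i y hy
    rw [hb]
    beta_reduce
    rw [Sp_smul]
    have h2 := h.up i.1.1 y hy
    have h3 := w4_ge' i
    have h4 := w4_le1 i
    have h5 := mul_le_mul_of_nonneg_left h2 (by linarith : 0 ≤ w4 cls i)
    nlinarith
  have hMg : ∀ y, z < y → (∑ j, d j) * Real.log (Real.log y) + Fintype.card (I4 cls) * C0 ≤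
      ∑ j, Sp (rs g j) z y + C1 := by
    intro y hy
    have h1 := h.J0 hy
    unfold Wt at h1
    rw [hC1]
    linarith
  have hcaW := caW (sp := sp) hd0 hT
  have hcbW := cbW (sp := sp) hδ hd hT
  obtain ⟨C, hC'⟩ := hats c hc (I4 cls) (acf cls g) b (L4 cls) (ZI cls sp) c z (δ / 4) C0 E0
    (fun y => ∑ j, Sp (rs g j) z y + C1)
    (by
      intro i p
      rw [hb]
      have h1 := h.gc i.1.1 p
      have h2 := h.rs0 i.1.1 p
      have h3 := w4_ge' i
      have h4 := w4_le1 i
      beta_reduce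
      nlinarith)
    { ab := fun i p => acf_abs h i p
      LL := L4_self' cls
      hz := by
        have : Fintype.card (I4 cls) ≤ Fintype.card (I4 cls) * (8 * c) :=
          Nat.le_mul_of_pos_right _ (by omega)
        omega
      hδ := by positivity
      hE := h.hE
      hC := hC
      low := by
        intro i y hy
        have h1 := h.lo i.1.1 y hy
        have h2 : Sp (b i) z y = w4 cls i * Sp (rs g i.1.1) z y := by
          rw [hb]
          beta_reduce
          rw [Sp_smul]
        have hT0 := h.T0 hy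
        have h3 := w4_ge' i
        have h4 := w4_le1 i
        have h5 := hd i.1.1
        have h6 := mul_le_mul_of_nonneg_left h1 (by linarith : 0 ≤ w4 cls i)
        have h7 : δ / 4 * Real.log (Real.log y) ≤ w4 cls i * (d i.1.1 * Real.log (Real.log y)) := by
          have h8 : δ * Real.log (Real.log y) ≤ d i.1.1 * Real.log (Real.log y) :=
            mul_le_mul_of_nonneg_right h5 hT0
          have h9 : 0 ≤ δ * Real.log (Real.log y) := mul_nonneg hδ.le hT0
          nlinarith
        have h10 : w4 cls i * C0 ≤ C0 := by nlinarith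
        rw [h2]
        nlinarith
      ZZ := fun q hq q' hq' => L4_ZI hq hq'
      H1 := H1
      H2 := h.H2
      CA := by
        intro y hy
        exact (CA_add hcaW (h.T0 hy) hC (hSb · y hy)).mono (hMg y hy)
      CB := by
        intro y hy
        refine (CB_add hcbW (h.T0 hy) hC (hSb · y hy)).mono ?_
        have h1 := hMg y hy
        have h2 : (∑ j, d j - δ / 4) * Real.log (Real.log y) =
            (∑ j, d j) * Real.log (Real.log y) - δ / 4 * Real.log (Real.log y) := by ring
        rw [h2]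
        linarith }
    (by
      have : Fintype.card (I4 cls) * c ≤ Fintype.card (I4 cls) * (8 * c) :=
        Nat.mul_le_mul_left _ (by omega)
      omega)
  refine ⟨C * Real.exp C1, fun y hy => ?_⟩
  have h1 := expt3 hexp hmer cls g c z y (by omega)
  rw [h1]
  have h2 := (le_abs_self _).trans (hC' y hy)
  rw [Real.exp_add] at h2
  have h3 : (∑ d ∈ Tup (I4 cls) z y, (∏ i : I4 cls, gp (fun p => Jr (κm cls i) p *
      ∑ θ : Ty, w4 cls i * ((if bit4 cls (fun _ => θ) i then -1 else 1) *
      g (i.1.1, θ) p)) c (d i)) * Sym (L4 cls) (fun _ => 1) d) =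
      ∑ d ∈ Tup (I4 cls) z y, (∏ i : I4 cls, gp (acf cls g i) c (d i)) *
        Sym (L4 cls) (fun _ => 1) d := rfl
  rw [h3]
  calc _ ≤ C * (Real.exp (∑ j, Sp (rs g j) z y) * Real.exp C1) := h2
    _ = _ := by ring

end

end Pool.Agent.K7.H54.GT
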