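import Pool.Agent.K7.H54.GT.Core

/-!
# Project GT: the places of bad reduction
-/

set_option autoImplicit false
set_option linter.all false

namespace Pool.Agent.K7.H54.GT

open Finset Polynomial UniqueFactorizationMonoid

open Classical in
/-- the irreducible factors of positive degree -/
noncomputable def pf (p : ℤ[X]) : Finset ℤ[X] :=
  (normalizedFactors p).toFinset.filter (fun g => 0 < g.natDegree)

open Classical in
/-- the multiplicity -/
noncomputable def mlt (g p : ℤ[X]) : ℕ := (normalizedFactors p).count g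

lemma mem_pf {p : ℤ[X]} (hp : p ≠ 0) (g : ℤ[X]) :
    g ∈ pf p ↔ (Irreducible g ∧ normalize g = g ∧ g ∣ p) ∧ 0 < g.natDegree := by
  classical
  unfold pf
  rw [mem_filter, Multiset.mem_toFinset, mem_normalizedFactors_iff' hp]

lemma mlt_mul {p q : ℤ[X]} (hp : p ≠ 0) (hq : q ≠ 0) (g : ℤ[X]) :
    mlt g (p * q) = mlt g p + mlt g q := by
  classical
  unfold mlt
  rw [normalizedFactors_mul hp hq, Multiset.count_add]

lemma mlt_pos {g p : ℤ[X]} (hg : Irreducible g) (hn : normalize g = g) (hp : p ≠ 0) :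
    1 ≤ mlt g p ↔ g ∣ p := by
  classical
  unfold mlt
  rw [Nat.succ_le_iff, Multiset.count_pos, mem_normalizedFactors_iff' hp]
  exact ⟨fun h => h.2.2, fun h => ⟨hg, hn, h⟩⟩

lemma mlt_zero {g p : ℤ[X]} (hg : Irreducible g) (hn : normalize g = g) (hp : p ≠ 0)
    (h : ¬ g ∣ p) : mlt g p = 0 := by
  by_contra h0
  exact h ((mlt_pos hg hn hp).1 (by omega))

lemma mlt_dvd {g p : ℤ[X]} {k : ℕ} (hg : Irreducible g) (hn : normalize g = g) (hp : p ≠ 0) :
    g ^ k ∣ p ↔ k ≤ mlt g p := by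
  classical
  unfold mlt
  have h1 := emultiplicity_eq_count_normalizedFactors hg hp
  rw [hn] at h1
  rw [pow_dvd_iff_le_emultiplicity, h1]
  exact Nat.cast_le

lemma mlt_eq {g p : ℤ[X]} (hg : Irreducible g) (hn : normalize g = g) (hp : p ≠ 0) :
    multiplicity g p = mlt g p := by
  classical
  have h1 := emultiplicity_eq_count_normalizedFactors hg hp
  rw [hn] at h1
  unfold mlt
  exact multiplicity_eq_of_emultiplicity_eq_some h1

/-- the factorization -/
lemma fac {p : ℤ[X]} (hp : p ≠ 0) (P : Finset ℤ[X]) (h1 : pf p ⊆ P)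
    (h2 : ∀ g ∈ P, 0 < g.natDegree) : ∃ a : ℤ, a ≠ 0 ∧ p = C a * ∏ g ∈ P, g ^ mlt g p := by
  classical
  set s := normalizedFactors p with hs
  obtain ⟨w, hw⟩ := prod_normalizedFactors hp
  have e1 := Multiset.prod_filter_mul_prod_filter_not (s := s) (fun g : ℤ[X] => 0 < g.natDegree)
  have e2 : (s.filter (fun g : ℤ[X] => 0 < g.natDegree)).prod = ∏ g ∈ P, g ^ mlt g p := by
    rw [Finset.prod_multiset_count_of_subset _ P]
    · refine prod_congr rfl fun g hg => ?_
      rw [Multiset.count_filter_of_pos (p := fun g : ℤ[X] => 0 < g.natDegree) (h2 g hg)]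
      rfl
    · intro g hg
      rw [Multiset.mem_toFinset, Multiset.mem_filter] at hg
      apply h1
      unfold pf
      rw [mem_filter, Multiset.mem_toFinset]
      exact hg
  have hud : (w : ℤ[X]).natDegree = 0 := natDegree_eq_zero_of_isUnit w.isUnit
  set q := (s.filter (fun g : ℤ[X] => ¬ 0 < g.natDegree)).prod with hq
  have e3 : q.natDegree = 0 := by
    have h3 := natDegree_multiset_prod_le (s.filter (fun g : ℤ[X] => ¬ 0 < g.natDegree))
    have h4 : (Multiset.map natDegree (s.filter (fun g : ℤ[X] => ¬ 0 < g.natDegree))).sum = 0 := by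
      apply Multiset.sum_eq_zero
      intro x hx
      obtain ⟨g, hg, rfl⟩ := Multiset.mem_map.1 hx
      have := (Multiset.mem_filter.1 hg).2
      omega
    exact Nat.le_zero.1 (h3.trans h4.le)
  have e4 : p = (q * w) * ∏ g ∈ P, g ^ mlt g p := by
    calc p = s.prod * w := hw.symm
      _ = (∏ g ∈ P, g ^ mlt g p) * q * w := by rw [← e1, e2]
      _ = _ := by ring
  have e5 : (q * (w : ℤ[X])).natDegree = 0 := by
    have := natDegree_mul_le (p := q) (q := (w : ℤ[X]))
    omega
  refine ⟨(q * (w : ℤ[X])).coeff 0, ?_, ?_⟩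
  · intro h0
    rw [eq_C_of_natDegree_eq_zero e5, h0, C_0, zero_mul] at e4
    exact hp e4
  · rw [← eq_C_of_natDegree_eq_zero e5]
    exact e4

/-- the hypotheses -/
structure HZ (D : ℤ[X]) (u : Fin 3 → ℤ[X]) : Prop where
  hD : Squarefree (D.map (Int.castRingHom ℚ))
  hu0 : ∀ k, u k ≠ 0
  hu : u 0 - u 1 = u 2
  hc : IsCoprime ((u 0).map (Int.castRingHom ℚ)) ((u 1).map (Int.castRingHom ℚ))

variable {D : ℤ[X]} {u : Fin 3 → ℤ[X]}

lemma HZ.D0 (h : HZ D u) : D ≠ 0 := by
  rintro rfl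
  have := h.hD
  rw [Polynomial.map_zero] at this
  exact not_squarefree_zero this

lemma map_nu {g : ℤ[X]} (hg : 0 < g.natDegree) : ¬ IsUnit (g.map (Int.castRingHom ℚ)) := by
  intro h
  have h1 := natDegree_eq_zero_of_isUnit h
  rw [natDegree_map_eq_of_injective (RingHom.injective_int (Int.castRingHom ℚ))] at h1
  omega

lemma HZ.un (h : HZ D u) {g : ℤ[X]} (hg : 0 < g.natDegree) {k l : Fin 3} (hk : g ∣ u k)
    (hl : g ∣ u l) : k = l := by
  by_contra hkl
  have key : g ∣ u 0 → g ∣ u 1 → False := by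
    intro h0 h1
    apply map_nu hg
    exact h.hc.isUnit_of_dvd' (Polynomial.map_dvd _ h0) (Polynomial.map_dvd _ h1)
  have h2 := h.hu
  have F02 : g ∣ u 0 → g ∣ u 2 → False := fun h0 h2' => key h0 (by
    have := dvd_sub h0 h2'
    rwa [← h2, sub_sub_cancel] at this)
  have F12 : g ∣ u 1 → g ∣ u 2 → False := fun h1 h2' => key (by
    have := dvd_add h2' h1
    rwa [← h2, sub_add_cancel] at this) h1
  fin_cases k <;> fin_cases l <;>
    first
      | exact absurd rfl hkl
      | exact key hk hl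
      | exact key hl hk
      | exact F02 hk hl
      | exact F02 hl hk
      | exact F12 hk hl
      | exact F12 hl hk

lemma HZ.mltD (h : HZ D u) {g : ℤ[X]} (hg : Irreducible g) (hn : normalize g = g)
    (hd : 0 < g.natDegree) (hgD : g ∣ D) : mlt g D = 1 := by
  have h1 := (mlt_pos hg hn h.D0).2 hgD
  by_contra h2
  have h3 : g ^ 2 ∣ D := (mlt_dvd hg hn h.D0).2 (by omega)
  apply map_nu hd
  apply h.hD
  have := Polynomial.map_dvd (Int.castRingHom ℚ) h3
  rwa [Polynomial.map_pow, sq] at this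

/-- the largest degree -/
noncomputable def Mx (u : Fin 3 → ℤ[X]) : ℕ := univ.sup fun k => (u k).natDegree

lemma le_Mx (u : Fin 3 → ℤ[X]) (k : Fin 3) : (u k).natDegree ≤ Mx u :=
  le_sup (f := fun k => (u k).natDegree) (mem_univ k)

lemma HZ.unI (h : HZ D u) {k l : Fin 3} (hk : (u k).natDegree < Mx u)
    (hl : (u l).natDegree < Mx u) : k = l := by
  by_contra hkl
  obtain ⟨j, hj⟩ : ∃ j, Mx u = (u j).natDegree := by
    obtain ⟨j, _, hj⟩ := exists_mem_eq_sup (s := (univ : Finset (Fin 3))) univ_nonempty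
      fun k => (u k).natDegree
    exact ⟨j, hj⟩
  have h0 := h.hu
  have hsub : ∀ p q : ℤ[X], p.natDegree < Mx u → q.natDegree < Mx u →
      (p - q).natDegree < Mx u := fun p q h1 h2 =>
    (natDegree_sub_le p q).trans_lt (max_lt h1 h2)
  have hadd : ∀ p q : ℤ[X], p.natDegree < Mx u → q.natDegree < Mx u →
      (p + q).natDegree < Mx u := fun p q h1 h2 =>
    (natDegree_add_le p q).trans_lt (max_lt h1 h2)
  have F01 : (u 0).natDegree < Mx u → (u 1).natDegree < Mx u → (u 2).natDegree < Mx u := by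
    intro h1 h2
    have := hsub _ _ h1 h2
    rwa [h0] at this
  have F02 : (u 0).natDegree < Mx u → (u 2).natDegree < Mx u → (u 1).natDegree < Mx u := by
    intro h1 h2
    have := hsub _ _ h1 h2
    rwa [← h0, sub_sub_cancel] at this
  have F12 : (u 1).natDegree < Mx u → (u 2).natDegree < Mx u → (u 0).natDegree < Mx u := by
    intro h1 h2
    have := hadd _ _ h1 h2
    rwa [← h0, add_sub_cancel] at this
  have key : (u j).natDegree < Mx u := by
    fin_cases k <;> fin_cases l <;> fin_cases j <;>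
      first
        | exact absurd rfl hkl
        | exact hk
        | exact hl
        | exact F01 hk hl
        | exact F01 hl hk
        | exact F02 hk hl
        | exact F02 hl hk
        | exact F12 hk hl
        | exact F12 hl hk
  omega

/-- half of the degree of the model -/
noncomputable def mm (D : ℤ[X]) (u : Fin 3 → ℤ[X]) : ℕ := (D.natDegree + Mx u + 1) / 2

/-- infinity is a place of bad reduction -/
def QI (D : ℤ[X]) (u : Fin 3 → ℤ[X]) : Prop :=
  Odd (D.natDegree + Mx u) ∨ ∃ k, (u k).natDegree < Mx u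

/-- the finite places -/
noncomputable def PPl (D : ℤ[X]) (u : Fin 3 → ℤ[X]) : Finset ℤ[X] :=
  pf (D * (u 0 * (u 1 * u 2)))

/-- the places -/
abbrev JJ (D : ℤ[X]) (u : Fin 3 → ℤ[X]) : Type := {g : ℤ[X] // g ∈ PPl D u} ⊕ {x : Unit // QI D u}

open Classical in
/-- the class of a finite place -/
noncomputable def clg (D : ℤ[X]) (u : Fin 3 → ℤ[X]) (g : ℤ[X]) : Fin 4 :=
  if g ∣ D then 3 else if g ∣ u 0 then 0 else if g ∣ u 1 then 1 else 2

open Classical in
/-- the class of infinity -/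
noncomputable def cli (D : ℤ[X]) (u : Fin 3 → ℤ[X]) : Fin 4 :=
  if Odd (D.natDegree + Mx u) then 3 else if (u 0).natDegree < Mx u then 0
  else if (u 1).natDegree < Mx u then 1 else 2

/-- the classes -/
noncomputable def cJ (D : ℤ[X]) (u : Fin 3 → ℤ[X]) : JJ D u → Fin 4 :=
  Sum.elim (fun g => clg D u g.1) (fun _ => cli D u)

/-- the polynomials -/
noncomputable def fJ (D : ℤ[X]) (u : Fin 3 → ℤ[X]) : JJ D u → ℤ[X] :=
  Sum.elim (fun g => g.1) (fun _ => 1)

/-- the degrees -/
noncomputable def nJ (D : ℤ[X]) (u : Fin 3 → ℤ[X]) : JJ D u → ℕ :=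
  Sum.elim (fun g => g.1.natDegree) (fun _ => 1)

/-- the exponents -/
noncomputable def eJ (D : ℤ[X]) (u : Fin 3 → ℤ[X]) (k : Fin 3) : JJ D u → ℕ :=
  Sum.elim (fun g => mlt g.1 (D * u k)) (fun _ => 2 * mm D u - (D.natDegree + (u k).natDegree))

lemma HZ.U0 (h : HZ D u) : D * (u 0 * (u 1 * u 2)) ≠ 0 :=
  mul_ne_zero h.D0 (mul_ne_zero (h.hu0 0) (mul_ne_zero (h.hu0 1) (h.hu0 2)))

lemma HZ.DU0 (h : HZ D u) (k : Fin 3) : D * u k ≠ 0 := mul_ne_zero h.D0 (h.hu0 k)

lemma HZ.mem (h : HZ D u) (g : ℤ[X]) : g ∈ PPl D u ↔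
    (Irreducible g ∧ normalize g = g ∧ 0 < g.natDegree) ∧ (g ∣ D ∨ ∃ k, g ∣ u k) := by
  unfold PPl
  rw [mem_pf h.U0]
  constructor
  · rintro ⟨⟨h1, h2, h3⟩, h4⟩
    refine ⟨⟨h1, h2, h4⟩, ?_⟩
    rcases h1.prime.dvd_or_dvd h3 with h5 | h5
    · exact Or.inl h5
    · rcases h1.prime.dvd_or_dvd h5 with h5 | h5
      · exact Or.inr ⟨0, h5⟩
      · rcases h1.prime.dvd_or_dvd h5 with h5 | h5
        · exact Or.inr ⟨1, h5⟩
        · exact Or.inr ⟨2, h5⟩
  · rintro ⟨⟨h1, h2, h4⟩, h3⟩
    refine ⟨⟨h1, h2, ?_⟩, h4⟩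
    rcases h3 with h3 | ⟨k, h3⟩
    · exact h3.mul_right _
    · apply Dvd.dvd.mul_left
      fin_cases k
      · exact h3.mul_right _
      · exact (h3.mul_right _).mul_left _
      · exact (h3.mul_left _).mul_left _

lemma HZ.clg3 (h : HZ D u) {g : ℤ[X]} : clg D u g = 3 ↔ g ∣ D := by
  unfold clg
  split_ifs with h1 h2 h3
  · simp [h1]
  · simp [h1]
  · simp [h1]
  · simp [h1]

lemma HZ.clg_eq (h : HZ D u) {g : ℤ[X]} (hg : g ∈ PPl D u) (k : Fin 3) :
    clg D u g = k.castSucc ↔ ¬ g ∣ D ∧ g ∣ u k := by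
  classical
  obtain ⟨⟨h1, h2, h3⟩, h4⟩ := (h.mem g).1 hg
  have hu : ∀ {k l : Fin 3}, g ∣ u k → g ∣ u l → k = l := fun hk hl => h.un h3 hk hl
  unfold clg
  by_cases hD : g ∣ D
  · rw [if_pos hD]
    constructor
    · intro h5
      exfalso
      revert h5
      revert k
      intro k h5
      fin_cases k <;> exact absurd h5 (by decide)
    · exact fun h5 => absurd hD h5.1
  rw [if_neg hD]
  obtain ⟨l, hl⟩ := h4.resolve_left hD
  have h5 : (if g ∣ u 0 then (0 : Fin 4) else if g ∣ u 1 then 1 else 2) = l.castSucc := by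
    have hne : ∀ k, k ≠ l → ¬ g ∣ u k := fun k hk hd => hk (hu hd hl)
    have hl3 : l = 0 ∨ l = 1 ∨ l = 2 := by
      clear hl hne
      revert l
      decide
    rcases hl3 with rfl | rfl | rfl
    · rw [if_pos hl]
      rfl
    · rw [if_neg (hne 0 (by decide)), if_pos hl]
      rfl
    · rw [if_neg (hne 0 (by decide)), if_neg (hne 1 (by decide))]
      rfl
  rw [h5]
  constructor
  · intro h6
    have := Fin.castSucc_injective _ h6
    subst this
    exact ⟨hD, hl⟩
  · rintro ⟨-, h6⟩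
    rw [hu h6 hl]

lemma cli3 : cli D u = 3 ↔ Odd (D.natDegree + Mx u) := by
  unfold cli
  split_ifs with h1 h2 h3
  · simp [h1]
  · simp [h1]
  · simp [h1]
  · simp [h1]

lemma HZ.cli_eq (h : HZ D u) (hQ : QI D u) (k : Fin 3) :
    cli D u = k.castSucc ↔ Even (D.natDegree + Mx u) ∧ (u k).natDegree < Mx u := by
  unfold cli
  by_cases hD : Odd (D.natDegree + Mx u)
  · rw [if_pos hD]
    constructor
    · intro h5
      exfalso
      revert h5
      revert k
      intro k h5
      fin_cases k <;> exact absurd h5 (by decide)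
    · exact fun h5 => absurd hD (Nat.not_odd_iff_even.2 h5.1)
  rw [if_neg hD]
  have hE : Even (D.natDegree + Mx u) := Nat.not_odd_iff_even.1 hD
  obtain ⟨l, hl⟩ := hQ.resolve_left hD
  have h5 : (if (u 0).natDegree < Mx u then (0 : Fin 4) else if (u 1).natDegree < Mx u then 1
      else 2) = l.castSucc := by
    have hne : ∀ k, k ≠ l → ¬ (u k).natDegree < Mx u := fun k hk hd => hk (h.unI hd hl)
    have hl3 : l = 0 ∨ l = 1 ∨ l = 2 := by
      clear hl hne
      revert l
      decide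
    rcases hl3 with rfl | rfl | rfl
    · rw [if_pos hl]
      rfl
    · rw [if_neg (hne 0 (by decide)), if_pos hl]
      rfl
    · rw [if_neg (hne 0 (by decide)), if_neg (hne 1 (by decide))]
      rfl
  rw [h5]
  constructor
  · intro h6
    have := Fin.castSucc_injective _ h6
    subst this
    exact ⟨hE, hl⟩
  · rintro ⟨-, h6⟩
    rw [h.unI h6 hl]

end Pool.Agent.K7.H54.GT
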