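import Pool.Agent.K7.H54.GT.Bas

/-!
# Project GT: the family
-/

set_option autoImplicit false
set_option linter.all false

namespace Pool.Agent.K7.H54.GT

open Finset Polynomial Pool.Agent.W262.RK Pool.Agent.W307.RT Pool.Agent.TH841.PT
open Pool.Agent.R421.HF
open Pool.Agent.K7.H54.HR
open Pool.Agent.K7.H54.SG (SFam)

open Pool.Agent.H474R2.PG (rho)
open Pool.Agent.R421.HF (NeuM)

section

variable {J : Type} [Fintype J] [DecidableEq J]

/-- the hypotheses -/
structure HG (cls : J → Fin 4) (a : Fin 3 → ℤ) (f : J → ℤ[X]) (ε : Fin 3 → J → ℕ) (m : ℕ) :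
    Prop where
  hE : HE cls ε
  ha : ∀ k, a k ≠ 0
  hf : Irr f
  deg : ∀ k, ∑ l, ε k l * (f l).natDegree = 2 * m
  rel : UQ a f ε 0 - UQ a f ε 1 = UQ a f ε 2

variable {cls : J → Fin 4} {a : Fin 3 → ℤ} {f : J → ℤ[X]} {ε : Fin 3 → J → ℕ} {m z c : ℕ}

lemma HG.UV_eq (h : HG cls a f ε m) (x y : ℤ) (k : Fin 3) :
    UV a ε (fh f x y) k = hv (2 * m) (UQ a f ε k) x y := by
  unfold UV fh UQ
  rw [hv_C_mul, ← h.deg k, hv_prod _ _ _ _ fun i _ => le_rfl]

lemma HG.UV_sub (h : HG cls a f ε m) (x y : ℤ) :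
    UV a ε (fh f x y) 0 - UV a ε (fh f x y) 1 = UV a ε (fh f x y) 2 := by
  rw [h.UV_eq, h.UV_eq, h.UV_eq, ← hv_sub, h.rel]

lemma HG.UQ_deg (h : HG cls a f ε m) (k : Fin 3) : (UQ a f ε k).natDegree ≤ 2 * m := by
  unfold UQ
  refine (natDegree_C_mul_le _ _).trans ((natDegree_prod_le _ _).trans ?_)
  rw [← h.deg k]
  exact sum_le_sum fun i _ => natDegree_pow_le

lemma HG.KQ_deg (h : HG cls a f ε m) (j : J) : (KQ cls a f ε j).natDegree ≤ 2 * m :=
  (natDegree_C_mul_le _ _).trans (h.UQ_deg _)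

lemma HG.KV_eq (h : HG cls a f ε m) (j : J) (x y : ℤ) :
    KV cls a ε (fh f x y) j = hv (2 * m) (KQ cls a f ε j) x y := by
  unfold KV KQ
  rw [hv_C_mul, h.UV_eq]

lemma HG.degE (h : HG cls a f ε m) (j : J) (k : Fin 3) :
    ε k j * (f j).natDegree + ∑ l ∈ univ.erase j, ε k l * (f l).natDegree = 2 * m := by
  rw [← h.deg k, ← add_sum_erase univ (fun l => ε k l * (f l).natDegree) (mem_univ j)]

lemma HG.CQ_deg0 (h : HG cls a f ε m) (j : J) (k : Fin 3) :
    (CQ a f ε j k).natDegree ≤ ∑ l ∈ univ.erase j, ε k l * (f l).natDegree := by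
  unfold CQ
  refine (natDegree_C_mul_le _ _).trans ((natDegree_prod_le _ _).trans ?_)
  exact sum_le_sum fun i _ => natDegree_pow_le

lemma HG.CQ_deg (h : HG cls a f ε m) (j : J) (k : Fin 3) : (CQ a f ε j k).natDegree ≤ 2 * m :=
  (h.CQ_deg0 j k).trans (by rw [← h.degE j k]; exact Nat.le_add_left _ _)

/-- raising the degree -/
lemma hv_lift {n : ℕ} (d : ℕ) {g : ℤ[X]} (hg : g.natDegree ≤ n) (x y : ℤ) :
    hv (d + n) g x y = y ^ d * hv n g x y := by
  have h1 : hv (d + n) (1 * g) x y = hv d 1 x y * hv n g x y :=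
    hv_mul (by simp) hg x y
  rw [one_mul] at h1
  rw [h1]
  congr 1
  unfold hv
  rw [sum_eq_single 0]
  · simp
  · intro i _ hi
    simp [coeff_one, hi]
  · intro h
    exact absurd (mem_range.2 (Nat.succ_pos d)) h

lemma HG.CV_eq (h : HG cls a f ε m) (j : J) (k : Fin 3) (x y : ℤ) :
    y ^ (ε k j * (f j).natDegree) * CV a ε (fh f x y) j k = hv (2 * m) (CQ a f ε j k) x y := by
  rw [← h.degE j k, hv_lift _ (h.CQ_deg0 j k)]
  congr 1
  unfold CV CQ fh
  rw [hv_C_mul, hv_prod _ _ _ _ fun i _ => le_rfl]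

lemma sgv_cong {p : ℕ} (g : ℤ[X]) (n : ℕ) {x x' y y' : ℤ} (hx : (p : ℤ) ∣ x - x')
    (hy : (p : ℤ) ∣ y - y') : sg0 p (hv n g x y) = sg0 p (hv n g x' y') :=
  HR.sg0_congr (hv_cong n g hx hy)

lemma sgv_scale {g : ℤ[X]} (hg : g.natDegree ≤ 2 * m) {p : ℕ} (hp : p.Prime) {x y t : ℤ}
    (hy : ¬ (p : ℤ) ∣ y) (ht : (p : ℤ) ∣ x - t * y) :
    sg0 p (hv (2 * m) g x y) = sg0 p (g.eval t) := by
  have h1 := hv_red (f := g) (n := 2 * m) hg ht
  rw [HR.sg0_congr h1]
  unfold sg0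
  have h2 : jacobiSym (y ^ (2 * m)) p = 1 := by
    rw [pow_mul, jacobiSym.pow_left]
    have h3 : jacobiSym (y ^ 2) p = 1 := by
      rw [jacobiSym.pow_left, jacobiSym.sq_one]
      rw [← Int.isCoprime_iff_gcd_eq_one, isCoprime_comm]
      exact ((Nat.prime_iff_prime_int.1 hp).coprime_iff_not_dvd).2 hy
    rw [h3, one_pow]
  rw [jacobiSym.mul_left, h2, one_mul]

/-- the type of a prime at a pair -/
noncomputable def tyq (cls : J → Fin 4) (a : Fin 3 → ℤ) (f : J → ℤ[X]) (ε : Fin 3 → J → ℕ)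
    (m : ℕ) (j : J) (p : ℕ) (x y : ℤ) : Option Ty :=
  if cls j = 3 then some (t3 (od (ε 0 j)) (od (ε 1 j)) (od (ε 2 j)) (sg0 p (-1))
    (fun k => sg0 p (hv (2 * m) (CQ a f ε j k) x y)))
  else tyo (eo ε j) (sg0 p (hv (2 * m) (KQ cls a f ε j) x y))

lemma tyq_cong {p : ℕ} {x x' y y' : ℤ} (hx : (p : ℤ) ∣ x - x') (hy : (p : ℤ) ∣ y - y') (j : J) :
    tyq cls a f ε m j p x y = tyq cls a f ε m j p x' y' := by
  unfold tyq
  have h1 : (fun k => sg0 p (hv (2 * m) (CQ a f ε j k) x y)) =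
      fun k => sg0 p (hv (2 * m) (CQ a f ε j k) x' y') := by
    funext k
    exact sgv_cong _ _ hx hy
  rw [h1, sgv_cong _ _ hx hy]

lemma HG.tyq_scale (h : HG cls a f ε m) {p : ℕ} (hp : p.Prime) {x y t : ℤ}
    (hy : ¬ (p : ℤ) ∣ y) (ht : (p : ℤ) ∣ x - t * y) (j : J) :
    tyq cls a f ε m j p x y = tyq cls a f ε m j p t 1 := by
  unfold tyq
  have h1 : ¬ (p : ℤ) ∣ 1 := (Nat.prime_iff_prime_int.1 hp).not_dvd_one
  have h2 : (fun k => sg0 p (hv (2 * m) (CQ a f ε j k) x y)) =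
      fun k => sg0 p (hv (2 * m) (CQ a f ε j k) t 1) := by
    funext k
    rw [sgv_scale (h.CQ_deg j k) hp hy ht, sgv_scale (t := t) (h.CQ_deg j k) hp h1 (by simp)]
  rw [h2, sgv_scale (h.KQ_deg j) hp hy ht, sgv_scale (t := t) (h.KQ_deg j) hp h1 (by simp)]

/-- the roots of a given type -/
noncomputable def Rtq (cls : J → Fin 4) (a : Fin 3 → ℤ) (f : J → ℤ[X]) (ε : Fin 3 → J → ℕ) (m : ℕ)
    (i : J × Ty) (p : ℕ) : Finset ℕ :=
  (range p).filter (fun x : ℕ => (p : ℤ) ∣ (f i.1).eval (x : ℤ) ∧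
      tyq cls a f ε m i.1 p x 1 = some i.2)

/-- the normalisation of the signs -/
noncomputable def snq (f : J → ℤ[X]) (j : J) (p : ℕ) (w : ℤ) : ℤ :=
  if (od (f j).natDegree && sg0 p w) = true then -1 else 1

/-- the family -/
noncomputable def famq (cls : J → Fin 4) (a : Fin 3 → ℤ) (f : J → ℤ[X]) (ε : Fin 3 → J → ℕ)
    (m z c : ℕ) : SFam J Ty where
  F x y j := fh f x y j
  sc j := decide (cls j = 3)
  κ := 0
  z1 := z
  c := c
  dg := ∑ j, (f j).natDegree
  ty j p x y := tyq cls a f ε m j p x y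
  sn j p w := snq f j p w
  nr i p := if p.Prime ∧ z < p then (Rtq cls a f ε m i p).card else 0

lemma Rtq_sum (hG : Gp a f z c) {p : ℕ} (hp : p.Prime) (hz : z < p) :
    ∑ i : J × Ty, (Rtq cls a f ε m i p).card ≤ c := by
  have h1 := (hG.good p hp hz).1
  rw [rho_prod hG hp hz] at h1
  rw [Fintype.sum_prod_type]
  refine le_trans (sum_le_sum fun j _ => ?_) h1
  unfold rho
  have h2 : ∑ θ : Ty, (Rtq cls a f ε m (j, θ) p).card =
      ((univ : Finset Ty).biUnion fun θ => Rtq cls a f ε m (j, θ) p).card := by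
    rw [card_biUnion]
    intro θ _ θ' _ hne
    rw [Function.onFun, disjoint_left]
    intro x hx hx'
    unfold Rtq at hx hx'
    apply hne
    have e1 := (mem_filter.1 hx).2.2
    have e2 := (mem_filter.1 hx').2.2
    exact Option.some.inj (e1.symm.trans e2)
  rw [h2]
  apply card_le_card
  intro x hx
  obtain ⟨θ, _, hx⟩ := mem_biUnion.1 hx
  unfold Rtq at hx
  have h3 := mem_filter.1 hx
  exact mem_filter.2 ⟨h3.1, h3.2.1⟩

/-- **the family satisfies the hypotheses** -/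
theorem famq_ok (h : HG cls a f ε m) (hG : ZZ a f z c) : (famq cls a f ε m z c).OK where
  c1 := hG.gp.one
  cong := by
    intro p w x x' j hx hd
    simp only [famq, zero_mul, add_zero] at hd ⊢
    have h1 := hv_cong (f j).natDegree (f j) hx (by simp : (p : ℤ) ∣ w - w)
    unfold fh at hd ⊢
    have h2 := dvd_sub hd h1
    rwa [sub_sub_cancel] at h2
  tcong := by
    intro p w x x' j _ _ hx _
    simp only [famq, zero_mul, add_zero]
    exact tyq_cong hx (by simp) j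
  un := fun p hp hz x y hxy j l hj hl => hG.un hp hz hxy hj hl
  ndw := by
    intro p hp hz w x hcop j hd
    simp only [famq, zero_mul, add_zero] at hd hcop
    exact hG.ndy hp hz hd (Pool.Agent.K7.H54.HR.cop_nd hcop hp)
  hens := by
    intro p hp hz w x x' hw j hx h1 h2
    simp only [famq, zero_mul, add_zero] at h1 h2
    exact Pool.Agent.K7.H54.SG.hens_hv hp hw (fun t ht => hG.simple hp hz ht) hx h1 h2
  snv := by
    intro j p w
    simp only [famq, snq]
    split_ifs <;> simp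
  card := by
    intro p hp hz w N hw i
    have h1 : p.Prime ∧ z < p := ⟨hp, hz⟩
    simp only [famq, zero_mul, add_zero, if_pos h1]
    have h2 := Pool.Agent.K7.H54.SG.card_lineP hp N hw
      (fun x => (p : ℤ) ∣ fh f x w i.1 ∧ tyq cls a f ε m i.1 p x w = some i.2)
      (fun t => (p : ℤ) ∣ (f i.1).eval t ∧ tyq cls a f ε m i.1 p t 1 = some i.2)
      (fun x t hxt => by
        rw [root_of1 hp hw hxt, h.tyq_scale hp hw hxt])
      (fun t t' htt => by
        rw [tyq_cong htt (by simp : (p : ℤ) ∣ 1 - 1)]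
        exact and_congr (Pool.Agent.K7.H54.SG.dvd_congr
          (htt.trans (Polynomial.sub_dvd_eval_sub t t' (f i.1)))) Iff.rfl)
    unfold Rtq
    convert h2 using 2
    · ext n
      simp
    · ext n
      simp
  nrs := by
    intro p
    simp only [famq]
    by_cases h1 : p.Prime ∧ z < p
    · simp only [if_pos h1]
      exact Rtq_sum hG.gp h1.1 h1.2
    · simp only [if_neg h1, sum_const_zero]
      exact Nat.zero_le _
  sz := by
    intro X x y hx hy hX j
    simp only [famq]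
    refine (hv_size (f j).natDegree (f j) hx hy).trans ?_
    refine Nat.mul_le_mul (hG.co j) (Nat.pow_le_pow_right hX ?_)
    exact single_le_sum (f := fun j => (f j).natDegree) (fun _ _ => Nat.zero_le _) (mem_univ j)

end

end Pool.Agent.K7.H54.GT
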