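import Pool.Agent.K7.H54.GT.Fac
import Pool.Agent.K7.H54.HR.Fin

/-!
# Project GT: the rational parameters
-/

set_option autoImplicit false
set_option linter.all false

namespace Pool.Agent.K7.H54.GT

open Finset Polynomial UniqueFactorizationMonoid Pool.Agent.W262.RK Pool.Agent.W307.RT
open Pool.Agent.TH841.PT
open Pool.Agent.R421.HF
open Pool.Agent.R421.UR
open Pool.Agent.K7.H54.HR
open Pool.Agent.W307.SE (SN SN_nonneg)
open Pool.Agent.TH841.SH.D (ShaTor HasDiv rk)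

variable {D : ℤ[X]} {u : Fin 3 → ℤ[X]}

/-- the places, as a type -/
def JK (D : ℤ[X]) (u : Fin 3 → ℤ[X]) : Type := JJ D u

open Classical in
noncomputable instance : Fintype (JK D u) :=
  (inferInstance : Fintype ({g : ℤ[X] // g ∈ PPl D u} ⊕ {x : Unit // QI D u}))

open Classical in
noncomputable instance : DecidableEq (JK D u) := Classical.decEq _

open Classical in
lemma sum_JK {M : Type} [AddCommMonoid M] (F : JK D u → M) :
    ∑ j, F j = (∑ g : {g : ℤ[X] // g ∈ PPl D u}, F (Sum.inl g)) +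
      (if h : QI D u then F (Sum.inr ⟨(), h⟩) else 0) := by
  have h1 := Fintype.sum_sum_type
    (f := fun j : ({g : ℤ[X] // g ∈ PPl D u} ⊕ {x : Unit // QI D u}) => F j)
  refine Eq.trans h1 ?_
  congr 1
  split_ifs with h
  · exact Fintype.sum_eq_single (⟨(), h⟩ : {x : Unit // QI D u}) (fun x hx => absurd rfl hx)
  · refine Finset.sum_eq_zero fun x _ => absurd x.2 h

open Classical in
lemma prod_JK {M : Type} [CommMonoid M] (F : JK D u → M) :
    ∏ j, F j = (∏ g : {g : ℤ[X] // g ∈ PPl D u}, F (Sum.inl g)) *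
      (if h : QI D u then F (Sum.inr ⟨(), h⟩) else 1) := by
  have h1 := Fintype.prod_sum_type
    (f := fun j : ({g : ℤ[X] // g ∈ PPl D u} ⊕ {x : Unit // QI D u}) => F j)
  refine Eq.trans h1 ?_
  congr 1
  split_ifs with h
  · exact Fintype.prod_eq_single (⟨(), h⟩ : {x : Unit // QI D u}) (fun x hx => absurd rfl hx)
  · refine Finset.prod_eq_one fun x _ => absurd x.2 h

/-- the classes -/
noncomputable def cK (D : ℤ[X]) (u : Fin 3 → ℤ[X]) : JK D u → Fin 4 := cJ D u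

/-- the polynomials -/
noncomputable def fK (D : ℤ[X]) (u : Fin 3 → ℤ[X]) : JK D u → ℤ[X] := fJ D u

/-- the degrees -/
noncomputable def nK (D : ℤ[X]) (u : Fin 3 → ℤ[X]) : JK D u → ℕ := nJ D u

/-- the exponents -/
noncomputable def eK (D : ℤ[X]) (u : Fin 3 → ℤ[X]) (k : Fin 3) : JK D u → ℕ := eJ D u k

lemma HZ.uq (h : HZ D u) : ∃ a : Fin 3 → ℤ, (∀ k, a k ≠ 0) ∧
    ∀ k, D * u k = C (a k) * ∏ g ∈ PPl D u, g ^ mlt g (D * u k) := by
  have h1 : ∀ k, ∃ a : ℤ, a ≠ 0 ∧ D * u k = C a * ∏ g ∈ PPl D u, g ^ mlt g (D * u k) := by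
    intro k
    refine fac (h.DU0 k) (PPl D u) ?_ fun g hg => ((h.mem g).1 hg).1.2.2
    intro g hg
    rw [mem_pf (h.DU0 k)] at hg
    rw [h.mem]
    refine ⟨⟨hg.1.1, hg.1.2.1, hg.2⟩, ?_⟩
    rcases hg.1.1.prime.dvd_or_dvd hg.1.2.2 with h5 | h5
    · exact Or.inl h5
    · exact Or.inr ⟨k, h5⟩
  choose a h2 h3 using h1
  exact ⟨a, h2, h3⟩

lemma UQ_JK {a : Fin 3 → ℤ} (hq : ∀ k, D * u k = C (a k) * ∏ g ∈ PPl D u, g ^ mlt g (D * u k))
    (k : Fin 3) : UQ a (fK D u) (eK D u) k = D * u k := by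
  classical
  unfold UQ
  rw [prod_JK]
  have h1 : (if h : QI D u then fK D u (Sum.inr ⟨(), h⟩) ^ eK D u k (Sum.inr ⟨(), h⟩) else 1) =
      1 := by
    split_ifs
    · exact one_pow _
    · rfl
  rw [h1, mul_one]
  have h2 : ∏ g : {g : ℤ[X] // g ∈ PPl D u}, fK D u (Sum.inl g) ^ eK D u k (Sum.inl g) =
      ∏ g ∈ PPl D u, g ^ mlt g (D * u k) :=
    Finset.prod_coe_sort (PPl D u) (fun g => g ^ mlt g (D * u k))
  rw [h2]
  exact (hq k).symm

lemma HZ.mlt_u (h : HZ D u) {g : ℤ[X]} (hg : g ∈ PPl D u) (k : Fin 3) :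
    mlt g (D * u k) = mlt g D + mlt g (u k) := mlt_mul h.D0 (h.hu0 k) g

lemma HZ.mm_odd (ho : Odd (D.natDegree + Mx u)) : 2 * mm D u = D.natDegree + Mx u + 1 := by
  unfold mm
  obtain ⟨b, hb⟩ := ho
  omega

lemma HZ.mm_even (ho : Even (D.natDegree + Mx u)) : 2 * mm D u = D.natDegree + Mx u := by
  unfold mm
  obtain ⟨b, hb⟩ := ho
  omega

lemma HZ.hE (h : HZ D u) : HE (cK D u) (eK D u) where
  e3 := by
    rintro (g | x) hj
    · have hg := (h.mem g.1).1 g.2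
      have hgD : g.1 ∣ D := h.clg3.1 hj
      have h1 : ∀ k, eK D u k (Sum.inl g) = 1 + mlt g.1 (u k) := by
        intro k
        have h2 : eK D u k (Sum.inl g) = mlt g.1 (D * u k) := rfl
        rw [h2, h.mlt_u g.2, h.mltD hg.1.1 hg.1.2.1 hg.1.2.2 hgD]
      have h0 : ∀ k l, k ≠ l → mlt g.1 (u k) = 0 ∨ mlt g.1 (u l) = 0 := by
        intro k l hkl
        by_contra hcon
        push Not at hcon
        apply hkl
        exact h.un hg.1.2.2 ((mlt_pos hg.1.1 hg.1.2.1 (h.hu0 k)).1 (by omega))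
          ((mlt_pos hg.1.1 hg.1.2.1 (h.hu0 l)).1 (by omega))
      have a01 := h0 0 1 (by decide)
      have a02 := h0 0 2 (by decide)
      have a12 := h0 1 2 (by decide)
      unfold E3
      rw [h1, h1, h1]
      omega
    · have ho : Odd (D.natDegree + Mx u) := cli3.1 hj
      have h2 := HZ.mm_odd ho
      have h1 : ∀ k, eK D u k (Sum.inr x) = 2 * mm D u - (D.natDegree + (u k).natDegree) :=
        fun k => rfl
      have hl := le_Mx u
      have h0 : ∀ k l, k ≠ l → (u k).natDegree = Mx u ∨ (u l).natDegree = Mx u := by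
        intro k l hkl
        by_contra hcon
        push Not at hcon
        apply hkl
        exact h.unI (lt_of_le_of_ne (hl k) hcon.1) (lt_of_le_of_ne (hl l) hcon.2)
      have a01 := h0 0 1 (by decide)
      have a02 := h0 0 2 (by decide)
      have a12 := h0 1 2 (by decide)
      have b0 := hl 0
      have b1 := hl 1
      have b2 := hl 2
      unfold E3
      rw [h1, h1, h1]
      omega
  e1 := by
    rintro (g | x) k hj
    · have hg := (h.mem g.1).1 g.2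
      have h2 := (h.clg_eq g.2 k).1 hj
      have h3 : eK D u k (Sum.inl g) = mlt g.1 (D * u k) := rfl
      rw [h3]
      exact (mlt_pos hg.1.1 hg.1.2.1 (h.DU0 k)).2 (h2.2.mul_left _)
    · have h2 := (h.cli_eq x.2 k).1 hj
      have h3 : eK D u k (Sum.inr x) = 2 * mm D u - (D.natDegree + (u k).natDegree) := rfl
      have h4 := HZ.mm_even h2.1
      rw [h3]
      omega
  e0 := by
    rintro (g | x) k hj3 hj
    · have hg := (h.mem g.1).1 g.2
      have hgD : ¬ g.1 ∣ D := fun h5 => hj3 (h.clg3.2 h5)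
      have h2 : ¬ g.1 ∣ u k := fun h5 => hj ((h.clg_eq g.2 k).2 ⟨hgD, h5⟩)
      have h3 : eK D u k (Sum.inl g) = mlt g.1 (D * u k) := rfl
      rw [h3]
      apply mlt_zero hg.1.1 hg.1.2.1 (h.DU0 k)
      intro h5
      rcases hg.1.1.prime.dvd_or_dvd h5 with h6 | h6
      · exact hgD h6
      · exact h2 h6
    · have ho : ¬ Odd (D.natDegree + Mx u) := fun h5 => hj3 (cli3.2 h5)
      have he : Even (D.natDegree + Mx u) := Nat.not_odd_iff_even.1 ho
      have h2 : ¬ (u k).natDegree < Mx u := fun h5 => hj ((h.cli_eq x.2 k).2 ⟨he, h5⟩)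
      have h3 : eK D u k (Sum.inr x) = 2 * mm D u - (D.natDegree + (u k).natDegree) := rfl
      have h4 := HZ.mm_even he
      rw [h3]
      omega

lemma HZ.deg_fac (h : HZ D u) {a : Fin 3 → ℤ} (ha : ∀ k, a k ≠ 0)
    (hq : ∀ k, D * u k = C (a k) * ∏ g ∈ PPl D u, g ^ mlt g (D * u k)) (k : Fin 3) :
    D.natDegree + (u k).natDegree = ∑ g ∈ PPl D u, mlt g (D * u k) * g.natDegree := by
  rw [← natDegree_mul h.D0 (h.hu0 k)]
  conv_lhs => rw [hq k]
  rw [natDegree_C_mul (ha k), natDegree_prod _ _ fun g hg =>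
    pow_ne_zero _ ((h.mem g).1 hg).1.1.ne_zero]
  exact sum_congr rfl fun i _ => natDegree_pow _ _

lemma HZ.pg (h : HZ D u) {a : Fin 3 → ℤ} (ha : ∀ k, a k ≠ 0)
    (hq : ∀ k, D * u k = C (a k) * ∏ g ∈ PPl D u, g ^ mlt g (D * u k)) :
    PG (cK D u) a (fK D u) (nK D u) (eK D u) (mm D u) where
  hE := h.hE
  ha := ha
  kind := by
    rintro (g | x)
    · have hg := (h.mem g.1).1 g.2
      exact Or.inl ⟨hg.1.1, hg.1.2.2, rfl⟩
    · exact Or.inr ⟨rfl, rfl⟩
  assoc := by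
    rintro (g | x) (g' | x') hne
    · have hg := (h.mem g.1).1 g.2
      have hg' := (h.mem g'.1).1 g'.2
      intro h2
      have h3 : g.1 = g'.1 := by
        have h4 := normalize_eq_normalize_iff.2
          (show g.1 ∣ g'.1 ∧ g'.1 ∣ g.1 from ⟨h2.dvd, h2.symm.dvd⟩)
        rwa [hg.1.2.1, hg'.1.2.1] at h4
      exact hne (congrArg Sum.inl (Subtype.ext h3))
    · intro h2
      exact ((h.mem g.1).1 g.2).1.1.not_isUnit (associated_one_iff_isUnit.1 h2)
    · intro h2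
      exact ((h.mem g'.1).1 g'.2).1.1.not_isUnit (associated_one_iff_isUnit.1 h2.symm)
    · exact absurd (congrArg Sum.inr (Subtype.ext (Subsingleton.elim _ _))) hne
  deg := by
    classical
    intro k
    rw [sum_JK]
    have e1 : ∑ g : {g : ℤ[X] // g ∈ PPl D u}, eK D u k (Sum.inl g) * nK D u (Sum.inl g) =
        ∑ g ∈ PPl D u, mlt g (D * u k) * g.natDegree :=
      Finset.sum_coe_sort (PPl D u) (fun g => mlt g (D * u k) * g.natDegree)
    have e2 : ∀ x : {x : Unit // QI D u}, eK D u k (Sum.inr x) * nK D u (Sum.inr x) =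
        2 * mm D u - (D.natDegree + (u k).natDegree) := fun x => mul_one _
    rw [e1, ← h.deg_fac ha hq k]
    have hl := le_Mx u k
    split_ifs with hQ
    · rw [e2]
      rcases Nat.even_or_odd (D.natDegree + Mx u) with ho | ho
      · have := HZ.mm_even ho
        omega
      · have := HZ.mm_odd ho
        omega
    · unfold QI at hQ
      push Not at hQ
      have h1 := hQ.2 k
      have h2 := HZ.mm_even (Nat.not_odd_iff_even.1 hQ.1)
      omega
  rel := by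
    rw [UQ_JK hq, UQ_JK hq, UQ_JK hq, ← mul_sub, h.hu]

/-- the tangent directions -/
noncomputable def vv (D : ℤ[X]) (u : Fin 3 → ℤ[X]) : Fin 3 → ℤ[X] :=
  ![-(D * u 1), -(D * u 0), D * u 0]

lemma KQ_vv {a : Fin 3 → ℤ}
    (hq : ∀ k, D * u k = C (a k) * ∏ g ∈ PPl D u, g ^ mlt g (D * u k)) (j : JK D u)
    {k : Fin 3} (hj : cK D u j = k.castSucc) :
    KQ (cK D u) a (fK D u) (eK D u) j = vv D u k := by
  unfold KQ
  rw [hj, UQ_JK hq]
  revert k
  intro k _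
  fin_cases k
  · simp [sgM, cpM, vv]
  · simp [sgM, cpM, vv]
  · simp [sgM, cpM, vv]

lemma SqG_inl {a : Fin 3 → ℤ} (h : HZ D u)
    (hq : ∀ k, D * u k = C (a k) * ∏ g ∈ PPl D u, g ^ mlt g (D * u k))
    (g : {g : ℤ[X] // g ∈ PPl D u}) {k : Fin 3} (hj : cK D u (Sum.inl g) = k.castSucc) :
    SqG (cK D u) a (fK D u) (eK D u) (mm D u) (Sum.inl g) ↔ SqMd g.1 (vv D u k) := by
  unfold SqG
  rw [KQ_vv hq (Sum.inl g) hj]
  have h1 : fK D u (Sum.inl g) = g.1 := rfl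
  have h2 : g.1 ≠ 1 := by
    intro h3
    have := ((h.mem g.1).1 g.2).1.2.2
    rw [h3, natDegree_one] at this
    exact lt_irrefl _ this
  rw [h1]
  unfold SqMd mQ
  simp [h2]

lemma vv_deg (h : HZ D u) {k : Fin 3} (he : Even (D.natDegree + Mx u))
    (hk : (u k).natDegree < Mx u) : (vv D u k).natDegree = 2 * mm D u := by
  have h1 : ∀ l, l ≠ k → (u l).natDegree = Mx u := by
    intro l hl
    by_contra hcon
    exact hl (h.unI (lt_of_le_of_ne (le_Mx u l) hcon) hk)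
  rw [HZ.mm_even he]
  have h2 : ∀ l, l ≠ k → (D * u l).natDegree = D.natDegree + Mx u := by
    intro l hl
    rw [natDegree_mul h.D0 (h.hu0 l), h1 l hl]
  have hk3 : k = 0 ∨ k = 1 ∨ k = 2 := by
    clear hk h1 h2
    revert k
    decide
  rcases hk3 with rfl | rfl | rfl
  · have : vv D u 0 = -(D * u 1) := rfl
    rw [this, natDegree_neg]
    exact h2 1 (by decide)
  · have : vv D u 1 = -(D * u 0) := rfl
    rw [this, natDegree_neg]
    exact h2 0 (by decide)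
  · have : vv D u 2 = D * u 0 := rfl
    rw [this]
    exact h2 0 (by decide)

lemma SqG_inr {a : Fin 3 → ℤ} (h : HZ D u)
    (hq : ∀ k, D * u k = C (a k) * ∏ g ∈ PPl D u, g ^ mlt g (D * u k))
    (x : {x : Unit // QI D u}) {k : Fin 3} (hj : cK D u (Sum.inr x) = k.castSucc) :
    SqG (cK D u) a (fK D u) (eK D u) (mm D u) (Sum.inr x) ↔
      IsSquare (vv D u k).leadingCoeff := by
  obtain ⟨he, hk⟩ := (h.cli_eq x.2 k).1 hj
  unfold SqG
  rw [KQ_vv hq (Sum.inr x) hj]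
  have h1 : fK D u (Sum.inr x) = 1 := rfl
  rw [h1, ← vv_deg h he hk]
  unfold leadingCoeff
  simp [Rat.isSquare_intCast_iff]

open Classical in
/-- the places of bad multiplicative reduction of the class `k` -/
noncomputable def Fk (D : ℤ[X]) (u : Fin 3 → ℤ[X]) (k : Fin 3) : Finset ℤ[X] :=
  (normalizedFactors (u k)).toFinset.filter (fun g => 0 < g.natDegree ∧ ¬ g ∣ D)

open Classical in
/-- the first weight -/
noncomputable def sZ (D : ℤ[X]) (u : Fin 3 → ℤ[X]) (k : Fin 3) : ℝ :=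
  ∑ g ∈ Fk D u k, (if SqMd g (vv D u k) then (1 : ℝ) else 1 / 2) +
    (if Even (D.natDegree + Mx u) ∧ (u k).natDegree < Mx u then
      (if IsSquare (vv D u k).leadingCoeff then (1 : ℝ) else 1 / 2) else 0)

open Classical in
/-- the second weight -/
noncomputable def dZ (D : ℤ[X]) (u : Fin 3 → ℤ[X]) (k : Fin 3) : ℝ :=
  ∑ g ∈ Fk D u k, (if Odd (multiplicity g (u k)) ∨ SqMd g (vv D u k) then (1 : ℝ) else 1 / 2) +
    (if Even (D.natDegree + Mx u) ∧ (u k).natDegree < Mx u then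
      (if Odd (Mx u - (u k).natDegree) ∨ IsSquare (vv D u k).leadingCoeff then (1 : ℝ)
        else 1 / 2) else 0)

open Classical in
/-- the places of split reduction -/
noncomputable def spK (D : ℤ[X]) (u : Fin 3 → ℤ[X]) (a : Fin 3 → ℤ) (j : JK D u) : Bool :=
  decide (SqG (cK D u) a (fK D u) (eK D u) (mm D u) j)

open Classical in
lemma HZ.Wc_gen (h : HZ D u) (k : Fin 3) (w : JK D u → ℝ) (W : ℤ[X] → ℝ) (W' : ℝ)
    (h1 : ∀ g : {g : ℤ[X] // g ∈ PPl D u}, cK D u (Sum.inl g) = k.castSucc →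
      w (Sum.inl g) = W g.1)
    (h2 : ∀ x : {x : Unit // QI D u}, cK D u (Sum.inr x) = k.castSucc → w (Sum.inr x) = W') :
    Wc (cK D u) w k.castSucc = ∑ g ∈ Fk D u k, W g +
      (if Even (D.natDegree + Mx u) ∧ (u k).natDegree < Mx u then W' else 0) := by
  unfold Wc
  rw [sum_filter, sum_JK]
  congr 1
  · have e1 : ∀ g : {g : ℤ[X] // g ∈ PPl D u},
        (if cK D u (Sum.inl g) = k.castSucc then w (Sum.inl g) else 0) =
          (if clg D u g.1 = k.castSucc then W g.1 else 0) := by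
      intro g
      by_cases hg : clg D u g.1 = k.castSucc
      · have hg' : cK D u (Sum.inl g) = k.castSucc := hg
        rw [if_pos hg, if_pos hg', h1 g hg']
      · have hg' : ¬ cK D u (Sum.inl g) = k.castSucc := hg
        rw [if_neg hg, if_neg hg']
    rw [sum_congr rfl fun g _ => e1 g]
    have e2 := Finset.sum_coe_sort (PPl D u)
      (fun g => if clg D u g = k.castSucc then W g else (0 : ℝ))
    refine e2.trans ?_
    rw [← sum_filter]
    refine sum_congr ?_ fun _ _ => rfl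
    ext g
    unfold Fk
    rw [mem_filter, mem_filter, Multiset.mem_toFinset, mem_normalizedFactors_iff' (h.hu0 k)]
    constructor
    · rintro ⟨hg, hc⟩
      obtain ⟨h3, h4⟩ := (h.clg_eq hg k).1 hc
      obtain ⟨⟨h5, h6, h7⟩, -⟩ := (h.mem g).1 hg
      exact ⟨⟨h5, h6, h4⟩, h7, h3⟩
    · rintro ⟨⟨h5, h6, h4⟩, h7, h3⟩
      have hg : g ∈ PPl D u := (h.mem g).2 ⟨⟨h5, h6, h7⟩, Or.inr ⟨k, h4⟩⟩
      exact ⟨hg, (h.clg_eq hg k).2 ⟨h3, h4⟩⟩
  · by_cases hc : Even (D.natDegree + Mx u) ∧ (u k).natDegree < Mx u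
    · have hQ : QI D u := Or.inr ⟨k, hc.2⟩
      have hc' : cK D u (Sum.inr ⟨(), hQ⟩) = k.castSucc := (h.cli_eq hQ k).2 hc
      rw [dif_pos hQ, if_pos hc, if_pos hc', h2 _ hc']
    · rw [if_neg hc]
      split_ifs with hQ h5
      · exact absurd ((h.cli_eq hQ k).1 h5) hc
      · rfl
      · rfl

open Classical in
lemma HZ.Wc_s (h : HZ D u) {a : Fin 3 → ℤ}
    (hq : ∀ k, D * u k = C (a k) * ∏ g ∈ PPl D u, g ^ mlt g (D * u k)) (k : Fin 3) :
    Wc (cK D u) (sg1 (spK D u a)) k.castSucc = sZ D u k := by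
  unfold sZ
  apply h.Wc_gen
  · intro g hg
    unfold sg1 spK
    simp only [decide_eq_true_eq, SqG_inl h hq g hg]
  · intro x hx
    unfold sg1 spK
    simp only [decide_eq_true_eq, SqG_inr h hq x hx]

open Classical in
lemma HZ.Wc_d (h : HZ D u) {a : Fin 3 → ℤ}
    (hq : ∀ k, D * u k = C (a k) * ∏ g ∈ PPl D u, g ^ mlt g (D * u k)) (k : Fin 3) :
    Wc (cK D u) (ddq (cK D u) (eK D u) (spK D u a)) k.castSucc = dZ D u k := by
  have hk3 : ∀ k : Fin 3, k.castSucc ≠ (3 : Fin 4) := by decide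
  unfold dZ
  apply h.Wc_gen
  · intro g hg
    obtain ⟨hD, hu⟩ := (h.clg_eq g.2 k).1 hg
    obtain ⟨⟨h5, h6, h7⟩, -⟩ := (h.mem g.1).1 g.2
    have h3 : cK D u (Sum.inl g) ≠ 3 := by rw [hg]; exact hk3 k
    have he : eo (eK D u) (Sum.inl g) = multiplicity g.1 (u k) := by
      rw [h.hE.eo_eq hg]
      have h8 : eK D u k (Sum.inl g) = mlt g.1 (D * u k) := rfl
      rw [h8, h.mlt_u g.2, mlt_zero h5 h6 h.D0 hD, zero_add, mlt_eq h5 h6 (h.hu0 k)]
    unfold ddq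
    rw [he]
    simp only [h3, false_or]
    unfold spK
    simp only [decide_eq_true_eq, SqG_inl h hq g hg]
  · intro x hx
    obtain ⟨he1, hk⟩ := (h.cli_eq x.2 k).1 hx
    have h3 : cK D u (Sum.inr x) ≠ 3 := by rw [hx]; exact hk3 k
    have he : eo (eK D u) (Sum.inr x) = Mx u - (u k).natDegree := by
      rw [h.hE.eo_eq hx]
      have h8 : eK D u k (Sum.inr x) = 2 * mm D u - (D.natDegree + (u k).natDegree) := rfl
      rw [h8, HZ.mm_even he1]
      omega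
    unfold ddq
    rw [he]
    simp only [h3, false_or]
    unfold spK
    simp only [decide_eq_true_eq, SqG_inr h hq x hx]

/-- the fibre at `t`, `y² = x (x - q ^ (2 m) D(t) u₀(t)) (x - q ^ (2 m) D(t) u₁(t))` -/
noncomputable def FtZ (D : ℤ[X]) (u : Fin 3 → ℤ[X]) (t : ℚ) : WeierstrassCurve ℚ :=
  Er ((t.den : ℚ) ^ (2 * mm D u) * (vl D t * vl (u 0) t))
    ((t.den : ℚ) ^ (2 * mm D u) * (vl D t * vl (u 1) t))

lemma vl_mul (p q : ℤ[X]) (t : ℚ) : vl (p * q) t = vl p t * vl q t := by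
  unfold vl
  rw [Polynomial.map_mul, eval_mul]

lemma HZ.U_t (h : HZ D u) {a : Fin 3 → ℤ} (ha : ∀ k, a k ≠ 0)
    (hq : ∀ k, D * u k = C (a k) * ∏ g ∈ PPl D u, g ^ mlt g (D * u k)) (t : ℚ) (k : Fin 3) :
    ((Ug a (fK D u) (nK D u) (eK D u) t.num (t.den : ℤ) k : ℤ) : ℚ) =
      (t.den : ℚ) ^ (2 * mm D u) * (vl D t * vl (u k) t) := by
  have hp := h.pg ha hq
  have hd := hp.UQ_deg k
  rw [UQ_JK hq] at hd
  rw [hp.Ug_eq, UQ_JK hq, hv_t hd, vl_mul]

lemma HZ.bd (h : HZ D u) {a : Fin 3 → ℤ} (ha : ∀ k, a k ≠ 0)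
    (hq : ∀ k, D * u k = C (a k) * ∏ g ∈ PPl D u, g ^ mlt g (D * u k)) (t : ℚ)
    (ht0 : vl D t ≠ 0) (ht : ∀ k, vl (u k) t ≠ 0) :
    Pool.Agent.TH841.SH.Bd (FtZ D u t)
      (SN (Ug a (fK D u) (nK D u) (eK D u) t.num (t.den : ℤ) 0)
        (Ug a (fK D u) (nK D u) (eK D u) t.num (t.den : ℤ) 1)) := by
  have hp := h.pg ha hq
  have hU := h.U_t ha hq t
  have hd : (t.den : ℚ) ≠ 0 := by exact_mod_cast t.den_nz
  have hne : ∀ k, Ug a (fK D u) (nK D u) (eK D u) t.num (t.den : ℤ) k ≠ 0 := by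
    intro k h0
    have h1 := hU k
    rw [h0, Int.cast_zero] at h1
    exact mul_ne_zero (pow_ne_zero _ hd) (mul_ne_zero ht0 (ht k)) h1.symm
  have h1 := bd_EQ (hne 0) (hne 1) (fun h2 => by
    apply hne 2
    rw [← hp.Ug_sub, h2, sub_self])
  have h2 : EQ (Ug a (fK D u) (nK D u) (eK D u) t.num (t.den : ℤ) 0)
      (Ug a (fK D u) (nK D u) (eK D u) t.num (t.den : ℤ) 1) = FtZ D u t := by
    unfold EQ FtZ Er
    rw [hU, hU]
  rw [h2] at h1
  exact h1

lemma vl_dvd {g p : ℤ[X]} (hd : g ∣ p) {t : ℚ} (h : vl g t = 0) : vl p t = 0 := by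
  obtain ⟨q, rfl⟩ := hd
  rw [vl_mul, h, zero_mul]

open Classical in
lemma HZ.img (h : HZ D u) (T : ℕ) (S : Finset ℚ)
    (hS : ∀ t ∈ S, t.num.natAbs ≤ T ∧ t.den ≤ T ∧ vl D t ≠ 0 ∧ ∀ k, vl (u k) t ≠ 0)
    (φ : ℚ → ℤ × ℤ) (hφ : ∀ t, φ t = (t.num, (t.den : ℤ))) :
    S.image φ ⊆ (Box T).filter (fun t : ℤ × ℤ => IsCoprime t.1 t.2 ∧
      ∀ j, hv (nK D u j) (fK D u j) t.1 t.2 ≠ 0) := by
  intro s hs'
  obtain ⟨t, ht, rfl⟩ := mem_image.1 hs'
  obtain ⟨h3, h4, h5, h5'⟩ := hS t ht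
  have hd : (t.den : ℚ) ≠ 0 := by exact_mod_cast t.den_nz
  rw [hφ, mem_filter, mem_Box]
  refine ⟨⟨h3, by simpa using h4⟩, ?_, ?_⟩
  · exact Int.isCoprime_iff_gcd_eq_one.2 t.reduced
  · rintro (g | x)
    · intro h6
      have h7 := hv_t (d := g.1.natDegree) (g := g.1) le_rfl t
      have h8 : hv g.1.natDegree g.1 t.num (t.den : ℤ) = 0 := h6
      rw [h8, Int.cast_zero] at h7
      have h9 : vl g.1 t = 0 := (mul_eq_zero.1 h7.symm).resolve_left (pow_ne_zero _ hd)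
      rcases ((h.mem g.1).1 g.2).2 with h10 | ⟨k, h10⟩
      · exact h5 (vl_dvd h10 h9)
      · exact h5' k (vl_dvd h10 h9)
    · have h6 : hv 1 1 t.num (t.den : ℤ) = (t.den : ℤ) := by
        unfold hv
        rw [sum_range_succ, sum_range_one]
        simp [coeff_one]
      change hv 1 1 t.num (t.den : ℤ) ≠ 0
      rw [h6]
      exact_mod_cast t.den_nz

open Classical in
/-- **ranks and Tate-Shafarevich groups over the rational parameters** -/
theorem mainZ (h : HZ D u) (hs : ∀ k, sZ D u k + dZ D u k < dZ D u 0 + dZ D u 1 + dZ D u 2) :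
    ∃ α : ℝ, 0 < α ∧ ∃ C : ℝ, ∀ T : ℕ, 1 ≤ T → ∀ S : Finset ℚ,
      (∀ t ∈ S, t.num.natAbs ≤ T ∧ t.den ≤ T ∧ vl D t ≠ 0 ∧ ∀ k, vl (u k) t ≠ 0) →
      (∀ t ∈ S, ∀ k : ℕ, Finite (ShaTor (FtZ D u t) (2 ^ k))) ∧
      (∀ k : ℕ, 1 ≤ k → ∑ t ∈ S, ((2 : ℝ) ^ rk (FtZ D u t) *
        (Nat.card (ShaTor (FtZ D u t) (2 ^ k)) : ℝ) ^ ((1 : ℝ) / k)) ^ α ≤ C * (T : ℝ) ^ 2) ∧
      ∀ r q : ℕ, ((S.filter (fun t => r ≤ rk (FtZ D u t) ∧
        HasDiv (FtZ D u t) q)).card : ℝ) ≤ C * (T : ℝ) ^ 2 / (2 : ℝ) ^ (α * (r + q)) := by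
  obtain ⟨a, ha, hq⟩ := h.uq
  have hp := h.pg ha hq
  have hsp : ∀ j, cK D u j ≠ 3 → (spK D u a j = true ↔
      SqG (cK D u) a (fK D u) (eK D u) (mm D u) j) := by
    intro j _
    unfold spK
    exact decide_eq_true_iff
  have hw : ∀ k : Fin 4, k ≠ 3 → Wc (cK D u) (sg1 (spK D u a)) k <
      Wo (cK D u) (ddq (cK D u) (eK D u) (spK D u a)) -
        Wc (cK D u) (ddq (cK D u) (eK D u) (spK D u a)) k := by
    intro k hk
    obtain ⟨l, rfl⟩ : ∃ l : Fin 3, l.castSucc = k := by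
      revert k
      decide
    rw [Wo_eq]
    have e0 := h.Wc_d hq 0
    have e1 := h.Wc_d hq 1
    have e2 := h.Wc_d hq 2
    have e3 := h.Wc_d hq l
    have e4 := h.Wc_s hq l
    have e5 := hs l
    have c0 : (Fin.castSucc (0 : Fin 3)) = (0 : Fin 4) := rfl
    have c1 : (Fin.castSucc (1 : Fin 3)) = (1 : Fin 4) := rfl
    have c2 : (Fin.castSucc (2 : Fin 3)) = (2 : Fin 4) := rfl
    rw [c0] at e0
    rw [c1] at e1
    rw [c2] at e2
    rw [e0, e1, e2, e3, e4]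
    linarith
  obtain ⟨α, hα0, hα1, C, hC0, hC⟩ := coreG hp (spK D u a) hsp hw
  refine ⟨α, hα0, C, fun T hT S hS => ?_⟩
  refine familyA S (fun t => FtZ D u t)
    (fun t => SN (Ug a (fK D u) (nK D u) (eK D u) t.num (t.den : ℤ) 0)
      (Ug a (fK D u) (nK D u) (eK D u) t.num (t.den : ℤ) 1)) _ hα0.le
    (fun t ht => h.bd ha hq t (hS t ht).2.2.1 (hS t ht).2.2.2) ?_
  obtain ⟨φ, hφ⟩ : ∃ φ : ℚ → ℤ × ℤ, ∀ t, φ t = (t.num, (t.den : ℤ)) := ⟨_, fun t => rfl⟩
  have hφi : Function.Injective φ := by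
    intro t t' htt
    rw [hφ, hφ, Prod.mk.injEq] at htt
    exact Rat.ext htt.1 (by exact_mod_cast htt.2)
  have h1 := hC T hT
  refine le_trans ?_ h1
  have h2 := h.img T S hS φ hφ
  have h3 := sum_le_sum_of_subset_of_nonneg (f := fun t : ℤ × ℤ =>
    SN (Ug a (fK D u) (nK D u) (eK D u) t.1 t.2 0)
      (Ug a (fK D u) (nK D u) (eK D u) t.1 t.2 1) ^ α) h2
    fun t _ _ => Real.rpow_nonneg (SN_nonneg _ _) _
  refine le_trans (le_of_eq ?_) h3
  rw [sum_image fun _ _ _ _ hh => hφi hh]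
  refine sum_congr rfl fun t _ => ?_
  simp only [hφ]

end Pool.Agent.K7.H54.GT
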