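import Pool.Agent.K7.H54.GT.Avg1
import Pool.Agent.K7.H54.GT.Fin

/-!
# Project GT: the average over the rational parameters
-/

set_option autoImplicit false
set_option linter.all false

namespace Pool.Agent.K7.H54.GT

open Finset Polynomial UniqueFactorizationMonoid Pool.Agent.W262.RK Pool.Agent.W307.RT
open Pool.Agent.TH841.PT
open Pool.Agent.R421.HF
open Pool.Agent.R421.UR
open Pool.Agent.K7.H54.HR
open Pool.Agent.W307.SE (SN SN_nonneg)
open Pool.Agent.TH841.SH.D (ShaTor HasDiv rk)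

section

variable {J : Type} [Fintype J] [DecidableEq J] {cls : J → Fin 4} {ε : Fin 3 → J → ℕ}

lemma wtri_of (sp : J → Bool) (hs : ∀ k : Fin 4, k ≠ 3 →
    Wc cls (ddq cls ε sp) k + 2 * Wc cls (sg1 sp) k ≤ Wo cls (ddq cls ε sp)) :
    WTri cls (ddq cls ε sp) (sqb ε sp) := by
  intro k hk
  have h1 := hs k hk
  have h2 : Wc cls (ddq cls ε sp) k +
      ∑ j ∈ univ.filter (fun j => cls j = k ∧ sqb ε sp j = true), ddq cls ε sp j =
      2 * Wc cls (sg1 sp) k := by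
    unfold Wc
    rw [← filter_filter, sum_filter (fun j => sqb ε sp j = true), ← sum_add_distrib, mul_sum]
    refine sum_congr rfl fun j hj => ?_
    have hjk : cls j ≠ 3 := by rw [(mem_filter.1 hj).2]; exact hk
    unfold ddq sqb sg1
    by_cases h3 : sp j = true
    · simp [h3]
      norm_num
    · have h3' : sp j = false := by simpa using h3
      by_cases h4 : Odd (eo ε j)
      · have h5 : ¬ Even (eo ε j) := Nat.not_even_iff_odd.2 h4
        simp [h3', h4, h5]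
      · have h5 : Even (eo ε j) := Nat.not_odd_iff_even.1 h4
        simp [h3', h4, h5, hjk]
        norm_num
  linarith

end

variable {D : ℤ[X]} {u : Fin 3 → ℤ[X]}

open Classical in
/-- **the average of ranks and Tate-Shafarevich groups over the rational parameters** -/
theorem mainZ1 (h : HZ D u)
    (hs : ∀ k, 2 * sZ D u k + dZ D u k ≤ dZ D u 0 + dZ D u 1 + dZ D u 2) :
    ∃ C : ℝ, ∀ T : ℕ, 1 ≤ T → ∀ S : Finset ℚ,
      (∀ t ∈ S, t.num.natAbs ≤ T ∧ t.den ≤ T ∧ vl D t ≠ 0 ∧ ∀ k, vl (u k) t ≠ 0) →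
      (∀ t ∈ S, ∀ k : ℕ, Finite (ShaTor (FtZ D u t) (2 ^ k))) ∧
      (∀ k : ℕ, 1 ≤ k → ∑ t ∈ S, (2 : ℝ) ^ rk (FtZ D u t) *
        (Nat.card (ShaTor (FtZ D u t) (2 ^ k)) : ℝ) ^ ((1 : ℝ) / k) ≤ C * (T : ℝ) ^ 2) ∧
      ∀ r q : ℕ, ((S.filter (fun t => r ≤ rk (FtZ D u t) ∧
        HasDiv (FtZ D u t) q)).card : ℝ) ≤ C * (T : ℝ) ^ 2 / 2 ^ (r + q) := by
  obtain ⟨a, ha, hq⟩ := h.uq
  have hp := h.pg ha hq
  have hsp : ∀ j, cK D u j ≠ 3 → (spK D u a j = true ↔
      SqG (cK D u) a (fK D u) (eK D u) (mm D u) j) := by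
    intro j _
    unfold spK
    exact decide_eq_true_iff
  have hT : WTri (cK D u) (ddq (cK D u) (eK D u) (spK D u a)) (sqb (eK D u) (spK D u a)) := by
    apply wtri_of
    intro k hk
    obtain ⟨l, rfl⟩ : ∃ l : Fin 3, l.castSucc = k := by
      revert k
      decide
    rw [Wo_eq]
    have e0 := h.Wc_d hq 0
    have e1 := h.Wc_d hq 1
    have e2 := h.Wc_d hq 2
    have e3 := h.Wc_d hq l
    have e4 := h.Wc_s hq l
    have e5 := hs l
    have c0 : (Fin.castSucc (0 : Fin 3)) = (0 : Fin 4) := rfl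
    have c1 : (Fin.castSucc (1 : Fin 3)) = (1 : Fin 4) := rfl
    have c2 : (Fin.castSucc (2 : Fin 3)) = (2 : Fin 4) := rfl
    rw [c0] at e0
    rw [c1] at e1
    rw [c2] at e2
    rw [e0, e1, e2, e3, e4]
    linarith
  obtain ⟨C, hC0, hC⟩ := coreG1 hp (spK D u a) hsp hT
  refine ⟨C, fun T hT S hS => ?_⟩
  have hsum : ∑ t ∈ S, SN (Ug a (fK D u) (nK D u) (eK D u) t.num (t.den : ℤ) 0)
      (Ug a (fK D u) (nK D u) (eK D u) t.num (t.den : ℤ) 1) ≤ C * (T : ℝ) ^ 2 := by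
    obtain ⟨φ, hφ⟩ : ∃ φ : ℚ → ℤ × ℤ, ∀ t, φ t = (t.num, (t.den : ℤ)) := ⟨_, fun t => rfl⟩
    have hφi : Function.Injective φ := by
      intro t t' htt
      rw [hφ, hφ, Prod.mk.injEq] at htt
      exact Rat.ext htt.1 (by exact_mod_cast htt.2)
    have h1 := hC T hT
    refine le_trans ?_ h1
    have h2 := h.img T S hS φ hφ
    have h3 := sum_le_sum_of_subset_of_nonneg (f := fun t : ℤ × ℤ =>
      SN (Ug a (fK D u) (nK D u) (eK D u) t.1 t.2 0)
        (Ug a (fK D u) (nK D u) (eK D u) t.1 t.2 1)) h2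
      fun t _ _ => SN_nonneg _ _
    refine le_trans (le_of_eq ?_) h3
    rw [sum_image fun _ _ _ _ hh => hφi hh]
    refine sum_congr rfl fun t _ => ?_
    simp only [hφ]
  have h1 := familyA S (fun t => FtZ D u t)
    (fun t => SN (Ug a (fK D u) (nK D u) (eK D u) t.num (t.den : ℤ) 0)
      (Ug a (fK D u) (nK D u) (eK D u) t.num (t.den : ℤ) 1)) _ (zero_le_one' ℝ)
    (fun t ht => h.bd ha hq t (hS t ht).2.2.1 (hS t ht).2.2.2)
    (by simpa only [Real.rpow_one] using hsum)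
  simp only [Real.rpow_one] at h1
  refine ⟨h1.1, h1.2.1, fun r q => (h1.2.2 r q).trans (le_of_eq ?_)⟩
  rw [one_mul, ← Nat.cast_add, Real.rpow_natCast]

end Pool.Agent.K7.H54.GT
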