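import Pool.Agent.K7.H54.HR.Sel1
import Pool.Agent.TH841.PT.Stm4

/-!
# Project GT: the local conditions at the primes of additive, potentially multiplicative reduction
-/

set_option autoImplicit false
set_option linter.all false

namespace Pool.Agent.K7.H54.GT

open Pool.Agent.W262.RK Pool.Agent.W342.RK2 Pool.Agent.W22.RK

section

variable {p : ℕ} [hp : Fact p.Prime]

/-- a rational number that is a square in the `p`-adic numbers -/
def Sqp (p : ℕ) [Fact p.Prime] (r : ℚ) : Prop := IsSquare ((r : ℚ) : ℚ_[p])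

lemma Sqp.cancel {r c : ℚ} (hc : c ≠ 0) (h : Sqp p (r * (c * c))) : Sqp p r := sq_cancel hc h

lemma Sqp.mul {r s : ℚ} (h1 : Sqp p r) (h2 : Sqp p s) : Sqp p (r * s) := sq_mul h1 h2

lemma Sqp.third {x a b y e1 e2 : ℚ} (hx : x ≠ 0) (ha : a ≠ 0) (he1 : e1 ≠ 0) (he2 : e2 ≠ 0)
    (hxy : y ^ 2 = x * a * b) (h1 : Sqp p (x * e1)) (h2 : Sqp p (a * e2)) :
    Sqp p (b * (e1 * e2)) := Pool.Agent.W342.RK2.third hx ha he1 he2 hxy h1 h2

lemma Sqp.near (hp2 : p ≠ 2) {r c : ℚ} (hc : c ≠ 0)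
    (h : padicValRat p c < padicValRat p (r - c)) : Sqp p (r * c) :=
  Pool.Agent.W342.RK2.near hp2 hc (Or.inr h)

/-- the square classes of the points on a curve with roots `a`, `b`, `c` -/
lemma near3 (hp2 : p ≠ 2) {a b c X Y : ℚ} {δ : ℤ} (hδ : 1 ≤ δ) (hab : a - b ≠ 0)
    (hac : a - c ≠ 0) (hbc : b - c ≠ 0) (vab : padicValRat p (a - b) = δ)
    (vac : padicValRat p (a - c) = 1) (vbc : padicValRat p (b - c) = 1) (ha : X - a ≠ 0)
    (hb : X - b ≠ 0) (hc : X - c ≠ 0) (hY : Y ^ 2 = (X - a) * (X - b) * (X - c)) :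
    (Sqp p (X - a) ∧ Sqp p (X - b)) ∨
      (Sqp p ((X - a) * (c - a)) ∧ Sqp p ((X - b) * (c - b))) ∨
      (Sqp p ((X - b) * (a - b)) ∧ Sqp p ((X - c) * (a - c))) ∨
      (Sqp p ((X - a) * (b - a)) ∧ Sqp p ((X - c) * (b - c))) := by
  have hsum := v_mul3 (p := p) ha hb hc hY
  have e1 : c - a = -(a - c) := by ring
  have e2 : c - b = -(b - c) := by ring
  have e3 : b - a = -(a - b) := by ring
  have vca : padicValRat p (c - a) = 1 := by rw [e1, v_neg, vac]
  have vcb : padicValRat p (c - b) = 1 := by rw [e2, v_neg, vbc]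
  have vba : padicValRat p (b - a) = δ := by rw [e3, v_neg, vab]
  have hca : c - a ≠ 0 := by rw [e1]; exact neg_ne_zero.2 hac
  have hcb : c - b ≠ 0 := by rw [e2]; exact neg_ne_zero.2 hbc
  have hba : b - a ≠ 0 := by rw [e3]; exact neg_ne_zero.2 hab
  have hge : ∀ u v : ℚ, ∀ n : ℤ, u + v ≠ 0 → n ≤ padicValRat p u → n ≤ padicValRat p v →
      n ≤ padicValRat p (u + v) := fun u v n h h1 h2 =>
    (le_min h1 h2).trans (padicValRat.min_le_padicValRat_add (p := p) h)
  rcases lt_trichotomy (padicValRat p (X - c)) 1 with h | h | h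
  · left
    have h1 : Sqp p ((X - a) * (X - c)) := Sqp.near hp2 hc (by
      have : X - a - (X - c) = c - a := by ring
      rw [this, vca]
      exact h)
    have h2 : Sqp p ((X - b) * (X - c)) := Sqp.near hp2 hc (by
      have : X - b - (X - c) = c - b := by ring
      rw [this, vcb]
      exact h)
    have h3 : Sqp p (X - c) := (Sqp.third ha hb hc hc hY h1 h2).cancel hc
    constructor
    · have := (h1.mul h3)
      rw [mul_assoc] at this
      exact this.cancel hc
    · have := (h2.mul h3)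
      rw [mul_assoc] at this
      exact this.cancel hc
  · right; right
    have ga : 1 ≤ padicValRat p (X - a) := by
      have : X - a = (X - c) + (c - a) := by ring
      rw [this]
      exact hge _ _ _ (by rw [← this]; exact ha) h.ge vca.ge
    rcases lt_trichotomy (padicValRat p (X - a)) δ with h1 | h1 | h1
    · exfalso
      have h2 : padicValRat p (X - b) = padicValRat p (X - a) := by
        have e : X - b = (X - a) + (a - b) := by ring
        rw [e]
        exact v_add ha hab (by rw [← e]; exact hb) (by rw [vab]; exact h1)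
      omega
    · right
      have gb : δ ≤ padicValRat p (X - b) := by
        have : X - b = (X - a) + (a - b) := by ring
        rw [this]
        exact hge _ _ _ (by rw [← this]; exact hb) h1.ge vab.ge
      have gb' : δ < padicValRat p (X - b) := by
        rcases gb.lt_or_eq with h2 | h2
        · exact h2
        · exfalso
          omega
      constructor
      · refine Sqp.near hp2 hba ?_
        have : X - a - (b - a) = X - b := by ring
        rw [this, vba]
        exact gb'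
      · refine Sqp.near hp2 hbc ?_
        have : X - c - (b - c) = X - b := by ring
        rw [this, vbc]
        omega
    · left
      constructor
      · refine Sqp.near hp2 hab ?_
        have : X - b - (a - b) = X - a := by ring
        rw [this, vab]
        exact h1
      · refine Sqp.near hp2 hac ?_
        have : X - c - (a - c) = X - a := by ring
        rw [this, vac]
        omega
  · right; left
    constructor
    · refine Sqp.near hp2 hca ?_
      have : X - a - (c - a) = X - c := by ring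
      rw [this, vca]
      exact h
    · refine Sqp.near hp2 hcb ?_
      have : X - b - (c - b) = X - c := by ring
      rw [this, vcb]
      exact h

/-- the valuations at an additive prime -/
def V3 (p : ℕ) (A B : ℚ) : Prop := ∃ δ : ℤ, 1 ≤ δ ∧
  ((padicValRat p A = δ ∧ padicValRat p B = 1 ∧ padicValRat p (A - B) = 1) ∨
   (padicValRat p A = 1 ∧ padicValRat p B = δ ∧ padicValRat p (A - B) = 1) ∨
   (padicValRat p A = 1 ∧ padicValRat p B = 1 ∧ padicValRat p (A - B) = δ))

/-- the square classes of the points are those of the 2-torsion points -/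
lemma cls4 (hp2 : p ≠ 2) {A B x y : ℚ} (hA : A ≠ 0) (hB : B ≠ 0) (hAB : A - B ≠ 0)
    (hV : V3 p A B) (hx : x ≠ 0) (hxA : x - A ≠ 0) (hxB : x - B ≠ 0)
    (hy : y ^ 2 = x * (x - A) * (x - B)) :
    (Sqp p x ∧ Sqp p (x - A)) ∨ (Sqp p (x * (A * B)) ∧ Sqp p ((x - A) * (-A))) ∨
      (Sqp p (x * A) ∧ Sqp p ((x - A) * (A * (A - B)))) ∨
      (Sqp p (x * B) ∧ Sqp p ((x - A) * (B - A))) := by
  obtain ⟨δ, hδ, hV⟩ := hV
  have hnA : 0 - A ≠ 0 := by rw [zero_sub]; exact neg_ne_zero.2 hA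
  have hnB : 0 - B ≠ 0 := by rw [zero_sub]; exact neg_ne_zero.2 hB
  have hx0 : x - 0 ≠ 0 := by rwa [sub_zero]
  have hBA : B - A ≠ 0 := by rw [← neg_sub]; exact neg_ne_zero.2 hAB
  have vn : ∀ q : ℚ, padicValRat p (0 - q) = padicValRat p q := fun q => by rw [zero_sub, v_neg]
  have v0 : ∀ q : ℚ, padicValRat p (q - 0) = padicValRat p q := fun q => by rw [sub_zero]
  rcases hV with ⟨v1, v2, v3⟩ | ⟨v1, v2, v3⟩ | ⟨v1, v2, v3⟩
  · rcases near3 (a := 0) (b := A) (c := B) (X := x) (Y := y) hp2 hδ hnA hnB hAB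
      (by rw [vn]; exact v1) (by rw [vn]; exact v2) v3 hx0 hxA hxB (by rw [hy]; ring) with
      h | h | h | h
    · left
      refine ⟨?_, h.2⟩
      have := h.1
      rwa [sub_zero] at this
    · right; right; right
      refine ⟨?_, h.2⟩
      have := h.1
      rwa [sub_zero, sub_zero] at this
    · right; left
      have h3 := Sqp.third (p := p) (b := x) (y := y) hxA hxB hnA hnB (by rw [hy]; ring) h.1 h.2
      constructor
      · convert h3 using 1
        ring
      · have := h.1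
        rwa [zero_sub] at this
    · right; right; left
      have h1 := h.1
      rw [sub_zero, sub_zero] at h1
      exact ⟨h1, Sqp.third (p := p) (b := x - A) (y := y) hx hxB hA hAB (by rw [hy]; ring)
        h1 h.2⟩
  · rcases near3 (a := 0) (b := B) (c := A) (X := x) (Y := y) hp2 hδ hnB hnA hBA
      (by rw [vn]; exact v2) (by rw [vn]; exact v1) (by rw [← neg_sub, v_neg]; exact v3)
      hx0 hxB hxA (by rw [hy]; ring) with h | h | h | h
    · left
      have h1 := h.1
      rw [sub_zero] at h1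
      have h3 := Sqp.third (p := p) (b := x - A) (y := y) (e1 := 1) (e2 := 1) hx hxB one_ne_zero
        one_ne_zero (by rw [hy]; ring) (by rw [mul_one]; exact h1) (by rw [mul_one]; exact h.2)
      refine ⟨h1, ?_⟩
      rwa [mul_one, mul_one] at h3
    · right; right; left
      have h1 := h.1
      rw [sub_zero, sub_zero] at h1
      exact ⟨h1, Sqp.third (p := p) (b := x - A) (y := y) hx hxB hA hAB (by rw [hy]; ring)
        h1 h.2⟩
    · right; left
      have h3 := Sqp.third (p := p) (b := x) (y := y) hxB hxA hnB hnA (by rw [hy]; ring) h.1 h.2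
      constructor
      · convert h3 using 1
        ring
      · have := h.2
        rwa [zero_sub] at this
    · right; right; right
      have h1 := h.1
      rw [sub_zero, sub_zero] at h1
      exact ⟨h1, h.2⟩
  · rcases near3 (a := A) (b := B) (c := 0) (X := x) (Y := y) hp2 hδ hAB (by rwa [sub_zero])
      (by rwa [sub_zero]) v3 (by rw [v0]; exact v1) (by rw [v0]; exact v2)
      hxA hxB hx0 (by rw [hy]; ring) with h | h | h | h
    · left
      have h3 := Sqp.third (p := p) (b := x) (y := y) (e1 := 1) (e2 := 1) hxA hxB one_ne_zero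
        one_ne_zero (by rw [hy]; ring) (by rw [mul_one]; exact h.1) (by rw [mul_one]; exact h.2)
      refine ⟨?_, h.1⟩
      rwa [mul_one, mul_one] at h3
    · right; left
      have h3 := Sqp.third (p := p) (b := x) (y := y) hxA hxB hnA hnB (by rw [hy]; ring) h.1 h.2
      constructor
      · convert h3 using 1
        ring
      · have := h.1
        rwa [zero_sub] at this
    · right; right; left
      have h1 := h.2
      rw [sub_zero, sub_zero] at h1
      have h3 := Sqp.third (p := p) (b := x - A) (y := y) hxB hx hAB hA (by rw [hy]; ring)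
        h.1 h1
      refine ⟨h1, ?_⟩
      convert h3 using 1
      ring
    · right; right; right
      have h1 := h.2
      rw [sub_zero, sub_zero] at h1
      exact ⟨h1, h.1⟩

/-- the representative of a square class -/
def rp (p n : ℕ) (z : ℤ) : ℤ := if Even n then z else p * z

lemma rp_sq {X : ℚ} {n : ℕ} {z : ℤ} (h : Sqp p (X * (((p : ℤ) ^ n * z : ℤ) : ℚ))) :
    Sqp p (X * (rp p n z : ℚ)) := by
  have hpq : ((p : ℚ)) ≠ 0 := by exact_mod_cast hp.out.ne_zero
  unfold rp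
  rcases Nat.even_or_odd' n with ⟨m, rfl | rfl⟩
  · rw [if_pos (even_two_mul m)]
    apply Sqp.cancel (c := (p : ℚ) ^ m) (pow_ne_zero _ hpq)
    convert h using 1
    push_cast
    ring
  · rw [if_neg (by rw [Nat.not_even_iff_odd]; exact ⟨m, rfl⟩)]
    apply Sqp.cancel (c := (p : ℚ) ^ m) (pow_ne_zero _ hpq)
    convert h using 1
    push_cast
    ring

lemma rp_nsq {n : ℕ} {z : ℤ} (hz : ¬ (p : ℤ) ∣ z) : ¬ (p : ℤ) ^ 2 ∣ rp p n z := by
  unfold rp
  split_ifs
  · exact not_sq_of_unit hz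
  · intro h
    apply hz
    rw [pow_two] at h
    exact (mul_dvd_mul_iff_left (by exact_mod_cast hp.out.ne_zero)).1 h

lemma rp_dv {n : ℕ} {z : ℤ} (hz : ¬ (p : ℤ) ∣ z) : dv p (rp p n z) = !decide (Even n) := by
  unfold rp
  split_ifs with h
  · rw [dv_unit hz]
    simp [h]
  · rw [dv_mul]
    simp [h]

lemma rp_sgn {n : ℕ} {z : ℤ} (hz : ¬ (p : ℤ) ∣ z) : sgn p (rp p n z) = sg0 p z := by
  unfold rp
  split_ifs with h
  · exact sgn_unit hz
  · exact sgn_mul

/-- the bits at an additive prime -/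
def Rel3 (oa ob oc sA sB sC m neg : Bool) (e : Fin 3 → Bool) : Prop :=
  if oa = false then e 0 = xor neg (xor sA sB) ∧ e 1 = xor neg sB ∧ e 2 = xor m (e 1)
  else if ob = false then e 0 = xor neg sA ∧ e 1 = xor neg (xor sA sB) ∧ e 2 = e 0
  else if oc = false then e 0 = xor neg sA ∧ e 1 = e 0 ∧ e 2 = xor neg (xor m (xor sA sC))
  else e 0 = xor neg sA ∧ e 1 = xor neg sB ∧ e 2 = xor neg sC

/-- the data at an additive prime -/
structure D3 (p : ℕ) (A B : ℤ) (α β γ : ℕ) (A1 B1 C1 : ℤ) : Prop where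
  hA : A = (p : ℤ) ^ α * A1
  hB : B = (p : ℤ) ^ β * B1
  hC : A - B = (p : ℤ) ^ γ * C1
  nA : ¬ (p : ℤ) ∣ A1
  nB : ¬ (p : ℤ) ∣ B1
  nC : ¬ (p : ℤ) ∣ C1
  val : (1 ≤ α ∧ β = 1 ∧ γ = 1) ∨ (α = 1 ∧ 1 ≤ β ∧ γ = 1) ∨ (α = 1 ∧ β = 1 ∧ 1 ≤ γ)

lemma sg0_cong {x y : ℤ} (h : (p : ℤ) ∣ x - y) : sg0 p x = sg0 p y := by
  unfold sg0
  have : jacobiSym x p = jacobiSym y p := by
    rw [jacobiSym.mod_left x, jacobiSym.mod_left y]
    congr 1
    exact (Int.emod_eq_emod_iff_emod_sub_eq_zero).2 (Int.emod_eq_zero_of_dvd h)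
  rw [this]

lemma v_pow_unit {n : ℕ} {z : ℤ} (hz : ¬ (p : ℤ) ∣ z) :
    padicValRat p (((p : ℤ) ^ n * z : ℤ) : ℚ) = n := by
  have hpq : ((p : ℚ)) ≠ 0 := by exact_mod_cast hp.out.ne_zero
  have hz0 : (z : ℚ) ≠ 0 := by
    intro h
    apply hz
    have : z = 0 := by exact_mod_cast h
    simp [this]
  push_cast
  rw [padicValRat.mul (pow_ne_zero _ hpq) hz0, v_int hz, add_zero, padicValRat.pow,
    padicValRat.self hp.out.one_lt, mul_one]

/-- the relations between the signs -/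
lemma D3.signs {A B A1 B1 C1 : ℤ} {α β γ : ℕ} (h : D3 p A B α β γ A1 B1 C1) :
    (Even α → sg0 p C1 = xor (sg0 p (-1)) (sg0 p B1)) ∧ (Even β → sg0 p C1 = sg0 p A1) ∧
      (Even γ → sg0 p A1 = sg0 p B1) := by
  have hpz : ((p : ℤ)) ≠ 0 := by exact_mod_cast hp.out.ne_zero
  have hs := h.hC
  rw [h.hA, h.hB] at hs
  refine ⟨fun hev => ?_, fun hev => ?_, fun hev => ?_⟩
  · rcases h.val with ⟨h1, h2, h3⟩ | ⟨h1, h2, h3⟩ | ⟨h1, h2, h3⟩
    · subst h2 h3
      obtain ⟨k, rfl⟩ : ∃ k, α = k + 2 := ⟨α - 2, by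
        rcases hev with ⟨r, hr⟩
        omega⟩
      have e1 : C1 = (p : ℤ) ^ (k + 1) * A1 - B1 := by
        apply mul_left_cancel₀ hpz
        have e2 : (p : ℤ) ^ 1 * C1 = (p : ℤ) ^ (k + 2) * A1 - (p : ℤ) ^ 1 * B1 := hs.symm
        rw [pow_one] at e2
        rw [e2]
        ring
      rw [← sg0_neg h.nB]
      apply sg0_cong
      refine ⟨(p : ℤ) ^ k * A1, ?_⟩
      rw [e1]
      ring
    · subst h1
      exact absurd hev (by decide)
    · subst h1
      exact absurd hev (by decide)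
  · rcases h.val with ⟨h1, h2, h3⟩ | ⟨h1, h2, h3⟩ | ⟨h1, h2, h3⟩
    · subst h2
      exact absurd hev (by decide)
    · subst h1 h3
      obtain ⟨k, rfl⟩ : ∃ k, β = k + 2 := ⟨β - 2, by
        rcases hev with ⟨r, hr⟩
        omega⟩
      have e1 : C1 = A1 - (p : ℤ) ^ (k + 1) * B1 := by
        apply mul_left_cancel₀ hpz
        have e2 : (p : ℤ) ^ 1 * C1 = (p : ℤ) ^ 1 * A1 - (p : ℤ) ^ (k + 2) * B1 := hs.symm
        rw [pow_one] at e2
        rw [e2]
        ring
      apply sg0_cong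
      refine ⟨-((p : ℤ) ^ k * B1), ?_⟩
      rw [e1]
      ring
    · subst h2
      exact absurd hev (by decide)
  · rcases h.val with ⟨h1, h2, h3⟩ | ⟨h1, h2, h3⟩ | ⟨h1, h2, h3⟩
    · subst h3
      exact absurd hev (by decide)
    · subst h3
      exact absurd hev (by decide)
    · subst h1 h2
      obtain ⟨k, rfl⟩ : ∃ k, γ = k + 2 := ⟨γ - 2, by
        rcases hev with ⟨r, hr⟩
        omega⟩
      have e1 : A1 - B1 = (p : ℤ) ^ (k + 1) * C1 := by
        apply mul_left_cancel₀ hpz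
        have e2 : (p : ℤ) ^ 1 * A1 - (p : ℤ) ^ 1 * B1 = (p : ℤ) ^ (k + 2) * C1 := hs
        rw [pow_one] at e2
        rw [mul_sub, e2]
        ring
      apply sg0_cong
      refine ⟨(p : ℤ) ^ k * C1, ?_⟩
      rw [e1]
      ring

/-- the Boolean part -/
lemma bool3 (oa ob oc sA sB sC m neg : Bool) (e : Fin 3 → Bool)
    (hr : Rel3 oa ob oc sA sB sC m neg e)
    (h1 : (oa = true ∧ ob = true ∧ oc = true) ∨
      (oa = false ∧ ob = true ∧ oc = true ∧ sC = xor m sB) ∨
      (oa = true ∧ ob = false ∧ oc = true ∧ sC = sA) ∨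
      (oa = true ∧ ob = true ∧ oc = false ∧ sA = sB)) :
    Pool.Agent.TH841.PT.LT 3 e m neg false false false false ∧
    Pool.Agent.TH841.PT.LT 3 e m neg (xor oa ob) oa (xor sA sB) (xor m sA) ∧
    Pool.Agent.TH841.PT.LT 3 e m neg oa (xor oa oc) sA (xor sA sC) ∧
    Pool.Agent.TH841.PT.LT 3 e m neg ob oc sB (xor m sC) := by
  unfold Rel3 at hr
  unfold Pool.Agent.TH841.PT.LT
  generalize e 0 = e0 at *
  generalize e 1 = e1 at *
  generalize e 2 = e2 at *
  rcases h1 with ⟨rfl, rfl, rfl⟩ | ⟨rfl, rfl, rfl, rfl⟩ | ⟨rfl, rfl, rfl, rfl⟩ |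
    ⟨rfl, rfl, rfl, rfl⟩
  · rw [if_neg (by decide), if_neg (by decide), if_neg (by decide)] at hr
    obtain ⟨rfl, rfl, rfl⟩ := hr
    revert sA sB sC m neg
    decide
  · rw [if_pos rfl] at hr
    obtain ⟨rfl, rfl, rfl⟩ := hr
    revert sA sB m neg
    decide
  · rw [if_neg (by decide), if_pos rfl] at hr
    obtain ⟨rfl, rfl, rfl⟩ := hr
    revert sB sC m neg
    decide
  · rw [if_neg (by decide), if_neg (by decide), if_pos rfl] at hr
    obtain ⟨rfl, rfl, rfl⟩ := hr
    revert sA sC m neg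
    decide

/-- the local conditions for rational points -/
lemma loc3q (hp2 : p ≠ 2) {A B A1 B1 C1 : ℤ} {α β γ : ℕ} (h : D3 p A B α β γ A1 B1 C1)
    {e : Fin 3 → Bool} {neg : Bool}
    (hr : Rel3 (!decide (Even α)) (!decide (Even β)) (!decide (Even γ)) (sg0 p A1) (sg0 p B1)
      (sg0 p C1) (sg0 p (-1)) neg e) {x y : ℚ} (hy : y ≠ 0)
    (hxy : y ^ 2 = x * (x - A) * (x - B)) {e1 e2 : ℤ} (he1 : Squarefree e1)
    (he2 : Squarefree e2) (s1 : Sqp p (x * e1)) (s2 : Sqp p ((x - A) * e2)) :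
    Pool.Agent.TH841.PT.LT 3 e (sg0 p (-1)) neg (dv p e1) (dv p e2) (sgn p e1) (sgn p e2) := by
  have hy2 : y ^ 2 ≠ 0 := pow_ne_zero 2 hy
  rw [hxy] at hy2
  have hx : x ≠ 0 := left_ne_zero_of_mul (left_ne_zero_of_mul hy2)
  have hxA : x - A ≠ 0 := right_ne_zero_of_mul (left_ne_zero_of_mul hy2)
  have hxB : x - B ≠ 0 := right_ne_zero_of_mul hy2
  have hq1 := not_sq_of_squarefree (p := p) he1
  have hq2 := not_sq_of_squarefree (p := p) he2
  have hpz : ((p : ℤ)) ≠ 0 := by exact_mod_cast hp.out.ne_zero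
  have hz0 : ∀ z : ℤ, ¬ (p : ℤ) ∣ z → z ≠ 0 := by
    rintro z hz rfl
    exact hz (dvd_zero _)
  have hA0 : (A : ℚ) ≠ 0 := by
    rw [h.hA]
    exact_mod_cast mul_ne_zero (pow_ne_zero _ hpz) (hz0 _ h.nA)
  have hB0 : (B : ℚ) ≠ 0 := by
    rw [h.hB]
    exact_mod_cast mul_ne_zero (pow_ne_zero _ hpz) (hz0 _ h.nB)
  have hC0 : (A : ℚ) - B ≠ 0 := by
    have : ((A - B : ℤ) : ℚ) ≠ 0 := by
      rw [h.hC]
      exact_mod_cast mul_ne_zero (pow_ne_zero _ hpz) (hz0 _ h.nC)
    push_cast at this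
    exact this
  have vA : padicValRat p (A : ℚ) = α := by rw [h.hA]; exact v_pow_unit h.nA
  have vB : padicValRat p (B : ℚ) = β := by rw [h.hB]; exact v_pow_unit h.nB
  have vC : padicValRat p ((A : ℚ) - B) = γ := by
    have : (A : ℚ) - B = ((A - B : ℤ) : ℚ) := by push_cast; ring
    rw [this, h.hC]
    exact v_pow_unit h.nC
  have hV : V3 p A B := by
    rcases h.val with ⟨h1, h2, h3⟩ | ⟨h1, h2, h3⟩ | ⟨h1, h2, h3⟩
    · refine ⟨α, by exact_mod_cast h1, Or.inl ⟨vA, ?_, ?_⟩⟩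
      · rw [vB, h2]
        rfl
      · rw [vC, h3]
        rfl
    · refine ⟨β, by exact_mod_cast h2, Or.inr (Or.inl ⟨?_, vB, ?_⟩)⟩
      · rw [vA, h1]
        rfl
      · rw [vC, h3]
        rfl
    · refine ⟨γ, by exact_mod_cast h3, Or.inr (Or.inr ⟨?_, ?_, vC⟩)⟩
      · rw [vA, h1]
        rfl
      · rw [vB, h2]
        rfl
  obtain ⟨g1, g2, g3⟩ := h.signs
  have hpar : ((!decide (Even α)) = true ∧ (!decide (Even β)) = true ∧ (!decide (Even γ)) = true) ∨
      ((!decide (Even α)) = false ∧ (!decide (Even β)) = true ∧ (!decide (Even γ)) = true ∧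
        sg0 p C1 = xor (sg0 p (-1)) (sg0 p B1)) ∨
      ((!decide (Even α)) = true ∧ (!decide (Even β)) = false ∧ (!decide (Even γ)) = true ∧
        sg0 p C1 = sg0 p A1) ∨
      ((!decide (Even α)) = true ∧ (!decide (Even β)) = true ∧ (!decide (Even γ)) = false ∧
        sg0 p A1 = sg0 p B1) := by
    rcases h.val with ⟨h1, h2, h3⟩ | ⟨h1, h2, h3⟩ | ⟨h1, h2, h3⟩
    · rw [h2, h3]
      by_cases hev : Even α
      · exact Or.inr (Or.inl ⟨by simp [hev], by decide, by decide, g1 hev⟩)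
      · exact Or.inl ⟨by simp [hev], by decide, by decide⟩
    · rw [h1, h3]
      by_cases hev : Even β
      · exact Or.inr (Or.inr (Or.inl ⟨by decide, by simp [hev], by decide, g2 hev⟩))
      · exact Or.inl ⟨by decide, by simp [hev], by decide⟩
    · rw [h1, h2]
      by_cases hev : Even γ
      · exact Or.inr (Or.inr (Or.inr ⟨by decide, by decide, by simp [hev], g3 hev⟩))
      · exact Or.inl ⟨by decide, by decide, by simp [hev]⟩
  obtain ⟨b1, b2, b3, b4⟩ := bool3 _ _ _ _ _ _ _ _ _ hr hpar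
  have fin : ∀ (n1 n2 : ℕ) (z1 z2 : ℤ), ¬ (p : ℤ) ∣ z1 → ¬ (p : ℤ) ∣ z2 →
      Sqp p (x * (((p : ℤ) ^ n1 * z1 : ℤ) : ℚ)) → Sqp p ((x - A) * (((p : ℤ) ^ n2 * z2 : ℤ) : ℚ)) →
      dv p e1 = !decide (Even n1) ∧ sgn p e1 = sg0 p z1 ∧ dv p e2 = !decide (Even n2) ∧
        sgn p e2 = sg0 p z2 := by
    intro n1 n2 z1 z2 hz1 hz2 t1 t2
    obtain ⟨k1, k2⟩ := cmpx hx hq1 (rp_nsq (n := n1) hz1) s1 (rp_sq t1)
    obtain ⟨k3, k4⟩ := cmpx hxA hq2 (rp_nsq (n := n2) hz2) s2 (rp_sq t2)
    rw [rp_dv hz1] at k1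
    rw [rp_sgn hz1] at k2
    rw [rp_dv hz2] at k3
    rw [rp_sgn hz2] at k4
    exact ⟨k1, k2, k3, k4⟩
  have hpar2 : ∀ a b : ℕ, (!decide (Even (a + b))) =
      xor (!decide (Even a)) (!decide (Even b)) := by
    intro a b
    by_cases h1 : Even a <;> by_cases h2 : Even b <;> simp [Nat.even_add, h1, h2]
  rcases cls4 hp2 hA0 hB0 hC0 hV hx hxA hxB hxy with ⟨t1, t2⟩ | ⟨t1, t2⟩ | ⟨t1, t2⟩ | ⟨t1, t2⟩
  · obtain ⟨k1, k2, k3, k4⟩ := fin 0 0 1 1 not_dvd_one not_dvd_one (by simpa using t1)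
      (by simpa using t2)
    rw [k1, k2, k3, k4, sg0_one]
    exact b1
  · obtain ⟨k1, k2, k3, k4⟩ := fin (α + β) α (A1 * B1) (-A1) (not_dvd_mul h.nA h.nB)
      (not_dvd_neg h.nA) (by
        convert t1 using 2
        rw [h.hA, h.hB]
        push_cast
        ring) (by
        convert t2 using 2
        rw [h.hA]
        push_cast
        ring)
    rw [k1, k2, k3, k4, hpar2, sg0_mul h.nA h.nB, sg0_neg h.nA]
    exact b2
  · obtain ⟨k1, k2, k3, k4⟩ := fin α (α + γ) A1 (A1 * C1) h.nA (not_dvd_mul h.nA h.nC) (by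
        convert t1 using 2
        rw [h.hA]) (by
        convert t2 using 2
        have : (A : ℚ) - B = ((A - B : ℤ) : ℚ) := by push_cast; ring
        rw [this, h.hC, h.hA]
        push_cast
        ring)
    rw [k1, k2, k3, k4, hpar2, sg0_mul h.nA h.nC]
    exact b3
  · obtain ⟨k1, k2, k3, k4⟩ := fin β γ B1 (-C1) h.nB (not_dvd_neg h.nC) (by
        convert t1 using 2
        rw [h.hB]) (by
        convert t2 using 2
        have : (B : ℚ) - A = -((A - B : ℤ) : ℚ) := by push_cast; ring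
        rw [this, h.hC]
        push_cast
        ring)
    rw [k1, k2, k3, k4, sg0_neg h.nC]
    exact b4

/-- **the local conditions at an additive prime** -/
theorem loc3p (hp2 : p ≠ 2) {A B A1 B1 C1 : ℤ} {α β γ : ℕ} (h : D3 p A B α β γ A1 B1 C1)
    {e : Fin 3 → Bool} {neg : Bool}
    (hr : Rel3 (!decide (Even α)) (!decide (Even β)) (!decide (Even γ)) (sg0 p A1) (sg0 p B1)
      (sg0 p C1) (sg0 p (-1)) neg e) (x y : ℚ_[p]) (hy : y ≠ 0)
    (hxy : y ^ 2 = x * (x - A) * (x - B)) (e1 e2 : ℤ) (he1 : Squarefree e1)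
    (he2 : Squarefree e2) (s1 : IsSquare (x * e1)) (s2 : IsSquare ((x - A) * e2)) :
    Pool.Agent.TH841.PT.LT 3 e (sg0 p (-1)) neg (dv p e1) (dv p e2) (sgn p e1) (sgn p e2) := by
  obtain ⟨D, x', y', hD, hDj, hy', hxy', t1, t2⟩ :=
    Pool.Agent.W407.SE.ratp p A B x y hp2 hy hxy
  have hy2 : y ^ 2 ≠ 0 := pow_ne_zero 2 hy
  rw [hxy] at hy2
  have hx : x ≠ 0 := left_ne_zero_of_mul (left_ne_zero_of_mul hy2)
  have hxA : x - A ≠ 0 := right_ne_zero_of_mul (left_ne_zero_of_mul hy2)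
  have hsD : sg0 p D = false := sg0_eq_false hDj
  have h' : D3 p (A * D) (B * D) α β γ (A1 * D) (B1 * D) (C1 * D) :=
    { hA := by rw [h.hA]; ring
      hB := by rw [h.hB]; ring
      hC := by rw [← sub_mul, h.hC]; ring
      nA := not_dvd_mul h.nA hD
      nB := not_dvd_mul h.nB hD
      nC := not_dvd_mul h.nC hD
      val := h.val }
  have hr' : Rel3 (!decide (Even α)) (!decide (Even β)) (!decide (Even γ)) (sg0 p (A1 * D))
      (sg0 p (B1 * D)) (sg0 p (C1 * D)) (sg0 p (-1)) neg e := by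
    rw [sg0_mul h.nA hD, sg0_mul h.nB hD, sg0_mul h.nC hD, hsD, Bool.xor_false, Bool.xor_false,
      Bool.xor_false]
    exact hr
  refine loc3q hp2 h' hr' hy' hxy' he1 he2 ?_ ?_
  · have := Pool.Agent.W307.SE.sq_tr hx t1 s1
    unfold Sqp
    push_cast
    exact this
  · have := Pool.Agent.W307.SE.sq_tr hxA t2 s2
    unfold Sqp
    push_cast at this ⊢
    exact this

end

end Pool.Agent.K7.H54.GT
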