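import Pool.Agent.K7.H54.GT.Fam
import Pool.Agent.K7.H54.HR.MdlR

/-!
# Project GT: the sums over the primes
-/

set_option autoImplicit false
set_option linter.all false

namespace Pool.Agent.K7.H54.GT

open Finset Polynomial Pool.Agent.W262.RK Pool.Agent.W307.RT Pool.Agent.TH841.PT
open Pool.Agent.R421.HF
open Pool.Agent.R421.UR
open Pool.Agent.K7.H54.HR
open Pool.Agent.K7.H54.SG (SFam)

open Pool.Agent.H474R2.PG (rho)

section

variable {J : Type} [Fintype J] [DecidableEq J]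

variable {cls : J → Fin 4} {a : Fin 3 → ℤ} {f : J → ℤ[X]} {ε : Fin 3 → J → ℕ} {m z c : ℕ}

/-- the density of the primes with a type -/
noncomputable def ddq (cls : J → Fin 4) (ε : Fin 3 → J → ℕ) (sp : J → Bool) (j : J) : ℝ :=
  if cls j = 3 ∨ Odd (eo ε j) ∨ sp j = true then 1 else 1 / 2

lemma KQ_ndvd (h : HG cls a f ε m) (hG : ZZ a f z c) {p : ℕ} (hp : p.Prime) (hz : z < p)
    {t : ℤ} {j : J} (h3 : cls j ≠ 3) (hj : (p : ℤ) ∣ (f j).eval t) :
    ¬ (p : ℤ) ∣ (KQ cls a f ε j).eval t := by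
  have hpi := Nat.prime_iff_prime_int.1 hp
  intro hd
  unfold KQ at hd
  rw [eval_mul, eval_C] at hd
  rcases hpi.dvd_mul.1 hd with h1 | h1
  · rcases sgM_cases (cls j) with h2 | h2
    · rw [h2] at h1
      exact hpi.not_dvd_one h1
    · rw [h2, dvd_neg] at h1
      exact hpi.not_dvd_one h1
  · have h0 := h.hE.e0 j _ h3 (fun h2 => cpM_ne h3 h2.symm)
    rw [UQ_CQ j, h0, pow_zero, one_mul] at h1
    unfold CQ at h1
    rw [eval_mul, eval_C, eval_prod] at h1
    rcases hpi.dvd_mul.1 h1 with h1 | h1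
    · exact hG.gp.const p hp hz _ h1
    · obtain ⟨l, hl1, hl2⟩ := (hpi.dvd_finsetProd_iff _).1 h1
      rw [eval_pow] at hl2
      exact hG.gp.pair p hp hz j l (ne_of_mem_erase hl1).symm t ⟨hj, hpi.dvd_of_dvd_pow hl2⟩

lemma CQ_ndvd (hG : ZZ a f z c) {p : ℕ} (hp : p.Prime) (hz : z < p)
    {t : ℤ} {j : J} (k : Fin 3) (hj : (p : ℤ) ∣ (f j).eval t) :
    ¬ (p : ℤ) ∣ (CQ a f ε j k).eval t := by
  have hpi := Nat.prime_iff_prime_int.1 hp
  intro h1
  unfold CQ at h1
  rw [eval_mul, eval_C, eval_prod] at h1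
  rcases hpi.dvd_mul.1 h1 with h1 | h1
  · exact hG.gp.const p hp hz _ h1
  · obtain ⟨l, hl1, hl2⟩ := (hpi.dvd_finsetProd_iff _).1 h1
    rw [eval_pow] at hl2
    exact hG.gp.pair p hp hz j l (ne_of_mem_erase hl1).symm t ⟨hj, hpi.dvd_of_dvd_pow hl2⟩

/-- the sums over the types as sums over the roots -/
lemma sum_root (j : J) {p : ℕ} (hp : p.Prime) (hz : z < p) (Φ : Ty → ℝ) :
    ∑ θ : Ty, Φ θ * (famq cls a f ε m z c).g (j, θ) p =
      ∑ x ∈ (range p).filter (fun x : ℕ => (p : ℤ) ∣ (f j).eval (x : ℤ)),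
        ∑ θ : Ty, if tyq cls a f ε m j p x 1 = some θ then Φ θ else 0 := by
  classical
  set R := (range p).filter (fun x : ℕ => (p : ℤ) ∣ (f j).eval (x : ℤ)) with hR
  have h1 : ∀ θ : Ty, Φ θ * (famq cls a f ε m z c).g (j, θ) p =
      ∑ x ∈ R.filter (fun x : ℕ => tyq cls a f ε m j p x 1 = some θ), Φ θ := by
    intro θ
    unfold SFam.g
    simp only [famq]
    rw [if_pos ⟨hp, hz⟩, sum_const, nsmul_eq_mul, mul_comm]
    unfold Rtq
    rw [hR, filter_filter]
  rw [sum_congr rfl fun θ _ => h1 θ]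
  have h2 : ∀ θ : Ty, ∑ x ∈ R.filter (fun x : ℕ => tyq cls a f ε m j p x 1 = some θ), Φ θ =
      ∑ x ∈ R, if tyq cls a f ε m j p x 1 = some θ then Φ θ else 0 := fun θ => sum_filter _ _
  rw [sum_congr rfl fun θ _ => h2 θ, sum_comm]

lemma sum_some (θ0 : Ty) (Φ : Ty → ℝ) :
    ∑ θ : Ty, (if some θ0 = some θ then Φ θ else 0) = Φ θ0 := by
  rw [sum_eq_single θ0]
  · rw [if_pos rfl]
  · intro θ _ hne
    rw [if_neg]
    intro h3
    exact hne (Option.some.inj h3).symm
  · intro h3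
    exact absurd (mem_univ _) h3

/-- the sums over the types, classes `0`, `1`, `2` -/
lemma sum_tyq (h : HG cls a f ε m) (hG : ZZ a f z c) {j : J} (h3 : cls j ≠ 3) {p : ℕ}
    (hp : p.Prime) (hz : z < p) (φ : Bool → ℝ) :
    ∑ θ : Ty, φ (θ 0) * (famq cls a f ε m z c).g (j, θ) p =
      cA (eo ε j) φ * rho (f j) p + cB (eo ε j) φ * rhoc (f j) (KQ cls a f ε j) p := by
  classical
  rw [sum_root j hp hz (fun θ => φ (θ 0))]
  unfold rho rhoc
  rw [Finset.cast_card, mul_sum, mul_sum, ← sum_add_distrib]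
  refine sum_congr rfl fun x hx => ?_
  have hxd := (mem_filter.1 hx).2
  have hnd := KQ_ndvd h hG hp hz h3 hxd
  have hJ : Jr ((KQ cls a f ε j).eval (x : ℤ)) p =
      if sg0 p ((KQ cls a f ε j).eval (x : ℤ)) = true then -1 else 1 := by
    rw [← Pool.Agent.W762.RK2.sg_sg0 hp hnd]
    rfl
  rw [hJ]
  unfold tyq
  rw [if_neg h3, hv_one (h.KQ_deg j)]
  unfold tyo cA cB
  by_cases ho : Odd (eo ε j)
  · simp only [if_pos ho]
    rw [sum_some (tyb (sg0 p ((KQ cls a f ε j).eval (x : ℤ)))) (fun θ => φ (θ 0))]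
    cases hs : sg0 p ((KQ cls a f ε j).eval (x : ℤ)) <;> simp [tyb] <;> ring
  · simp only [if_neg ho]
    cases hs : sg0 p ((KQ cls a f ε j).eval (x : ℤ))
    · simp only [if_true]
      rw [sum_some (tyb false) (fun θ => φ (θ 0))]
      simp [tyb]
    · simp

/-- the sums over the types, class `3` -/
lemma sum_ty3 (h : HG cls a f ε m) {j : J} (h3 : cls j = 3) {p : ℕ}
    (hp : p.Prime) (hz : z < p) (Φ : Ty → ℝ) :
    ∑ θ : Ty, Φ θ * (famq cls a f ε m z c).g (j, θ) p =
      ∑ x ∈ (range p).filter (fun x : ℕ => (p : ℤ) ∣ (f j).eval (x : ℤ)),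
        Φ (t3 (od (ε 0 j)) (od (ε 1 j)) (od (ε 2 j)) (sg0 p (-1))
          (fun k => sg0 p ((CQ a f ε j k).eval (x : ℤ)))) := by
  rw [sum_root j hp hz Φ]
  refine sum_congr rfl fun x _ => ?_
  unfold tyq
  rw [if_pos h3, sum_some]
  congr 2
  funext k
  rw [hv_one (h.CQ_deg j k)]

/-- the polynomials of the class `3` -/
noncomputable def G3 (a : Fin 3 → ℤ) (f : J → ℤ[X]) (ε : Fin 3 → J → ℕ) (j : J)
    (cs k0 k1 k2 : Bool) : ℤ[X] :=
  C (if cs = true then -1 else 1) * ((if k0 = true then CQ a f ε j 0 else 1) *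
    ((if k1 = true then CQ a f ε j 1 else 1) * (if k2 = true then CQ a f ε j 2 else 1)))

/-- the sign of a Boolean -/
noncomputable def sb (b : Bool) : ℝ := if b = true then -1 else 1

lemma sb_xor (b c : Bool) : sb (xor b c) = sb b * sb c := by
  unfold sb
  cases b <;> cases c <;> simp

lemma Jr_sb {p : ℕ} (hp : p.Prime) {k : ℤ} (hk : ¬ (p : ℤ) ∣ k) : Jr k p = sb (sg0 p k) := by
  rw [← Pool.Agent.W762.RK2.sg_sg0 hp hk]
  rfl

lemma G3_eval (hG : ZZ a f z c) {p : ℕ} (hp : p.Prime) (hz : z < p) {x : ℤ} {j : J}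
    (hj : (p : ℤ) ∣ (f j).eval x) (cs k0 k1 k2 : Bool) :
    Jr ((G3 a f ε j cs k0 k1 k2).eval x) p = sb (xor (cs && sg0 p (-1))
      (xor (k0 && sg0 p ((CQ a f ε j 0).eval x)) (xor (k1 && sg0 p ((CQ a f ε j 1).eval x))
        (k2 && sg0 p ((CQ a f ε j 2).eval x))))) := by
  have hpi := Nat.prime_iff_prime_int.1 hp
  have h1 : ∀ (b : Bool) (k : Fin 3), Jr ((if b = true then CQ a f ε j k else 1).eval x) p =
      sb (b && sg0 p ((CQ a f ε j k).eval x)) := by
    intro b k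
    cases b
    · simp [sb, Jr]
    · simp only [if_true, Bool.true_and]
      exact Jr_sb hp (CQ_ndvd hG hp hz k hj)
  have h2 : Jr ((C (if cs = true then (-1 : ℤ) else 1)).eval x) p = sb (cs && sg0 p (-1)) := by
    rw [eval_C]
    cases cs
    · simp [sb, Jr]
    · simp only [if_true, Bool.true_and]
      exact Jr_sb hp (fun h => hpi.not_dvd_one ((dvd_neg).1 h))
  unfold G3
  rw [eval_mul, eval_mul, eval_mul, Jr_mul_left', Jr_mul_left', Jr_mul_left', h1, h1, h1, h2,
    sb_xor, sb_xor, sb_xor]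

lemma G3_ndvd (h : HG cls a f ε m) (j : J) (cs k0 k1 k2 : Bool) :
    ¬ mQ (f j) ∣ mQ (G3 a f ε j cs k0 k1 k2) := by
  have hp := (h.hf.irrQ j).prime
  have h0 : ∀ k, ¬ mQ (f j) ∣ mQ (CQ a f ε j k) := fun k =>
    mul_finprod_ndvd h.hf (h.ha k) (notMem_erase j univ)
  have h1 : ¬ mQ (f j) ∣ mQ 1 := by
    unfold mQ
    rw [Polynomial.map_one]
    exact hp.not_dvd_one
  have h2 : ∀ (b : Bool) (k : Fin 3), ¬ mQ (f j) ∣ mQ (if b = true then CQ a f ε j k else 1) := by
    intro b k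
    cases b
    · simpa using h1
    · simpa using h0 k
  have hm : ∀ p q : ℤ[X], ¬ mQ (f j) ∣ mQ p → ¬ mQ (f j) ∣ mQ q → ¬ mQ (f j) ∣ mQ (p * q) := by
    intro p q h3 h4 hd
    unfold mQ at hd
    rw [Polynomial.map_mul] at hd
    rcases hp.dvd_or_dvd hd with h5 | h5
    · exact h3 h5
    · exact h4 h5
  unfold G3
  refine hm _ _ ?_ (hm _ _ (h2 _ _) (hm _ _ (h2 _ _) (h2 _ _)))
  cases cs
  · simpa using h1
  · intro hd
    apply hp.not_dvd_one
    unfold mQ at hd
    simpa using hd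

/-- the bits of the class `3` -/
lemma bits3 {i : I4 cls} (hi : cls i.1.1 = 3) (oa ob oc : Bool) :
    ∃ cs k0 k1 k2 : Bool, ∀ (m : Bool) (σ : Fin 3 → Bool),
      xor (bit4 cls (fun _ => t3 oa ob oc m σ) i) (decide (κm cls i = -1) && m) =
        xor (cs && m) (xor (k0 && σ 0) (xor (k1 && σ 1) (k2 && σ 2))) := by
  have ht : ∀ (m : Bool) (σ : Fin 3 → Bool),
      t3 oa ob oc m σ 0 = (if oa = false then xor (σ 0) (σ 1) else σ 0) ∧
      t3 oa ob oc m σ 1 = (if oa = false then σ 1 else if ob = false then xor (σ 0) (σ 1)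
        else if oc = false then σ 0 else σ 1) ∧
      t3 oa ob oc m σ 2 = (if oa = false then xor m (σ 1) else if ob = false then σ 0
        else if oc = false then xor m (xor (σ 0) (σ 2)) else σ 2) := by
    intro m σ
    unfold t3
    cases oa <;> cases ob <;> cases oc <;> simp
  unfold bit4 κm
  by_cases h0 : i.1.2.1 = (false, false) ∨ i.1.2.2 = (false, false)
  · refine ⟨false, false, false, false, fun m σ => ?_⟩
    rw [if_pos h0, if_pos h0]
    simp
  by_cases h1 : i.1.2.1 = (true, false)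
  · obtain ⟨w, hw⟩ : ∃ w : Bool × Bool × Bool × Bool, w =
        (if oa = false then (true, true, false, false)
          else if ob = false then (false, false, false, false)
          else if oc = false then (true, false, false, true) else (false, true, false, true)) :=
      ⟨_, rfl⟩
    refine ⟨w.1, w.2.1, w.2.2.1, w.2.2.2, fun m σ => ?_⟩
    obtain ⟨e0, e1, e2⟩ := ht m σ
    rw [if_neg h0, if_pos hi, if_pos h1, if_neg h0, if_pos hi, if_pos h1]
    beta_reduce
    rw [e0, e2, hw]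
    clear e0 e1 e2 ht hw w
    generalize σ 0 = s0
    generalize σ 1 = s1
    generalize σ 2 = s2
    revert oa ob oc m s0 s1 s2
    decide
  by_cases h2 : i.1.2.1 = (false, true)
  · obtain ⟨w, hw⟩ : ∃ w : Bool × Bool × Bool × Bool, w =
        (if oa = false then (false, true, false, false)
          else if ob = false then (false, false, true, false)
          else if oc = false then (false, false, false, false) else (false, true, true, false)) :=
      ⟨_, rfl⟩
    refine ⟨w.1, w.2.1, w.2.2.1, w.2.2.2, fun m σ => ?_⟩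
    obtain ⟨e0, e1, e2⟩ := ht m σ
    rw [if_neg h0, if_pos hi, if_neg h1, if_pos h2, if_neg h0, if_pos hi, if_neg h1, if_pos h2]
    beta_reduce
    rw [e0, e1, hw]
    clear e0 e1 e2 ht hw w
    generalize σ 0 = s0
    generalize σ 1 = s1
    generalize σ 2 = s2
    revert oa ob oc m s0 s1 s2
    decide
  · obtain ⟨w, hw⟩ : ∃ w : Bool × Bool × Bool × Bool, w =
        (if oa = false then (false, false, false, false)
          else if ob = false then (true, false, true, false)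
          else if oc = false then (false, false, false, true) else (true, false, true, true)) :=
      ⟨_, rfl⟩
    refine ⟨w.1, w.2.1, w.2.2.1, w.2.2.2, fun m σ => ?_⟩
    obtain ⟨e0, e1, e2⟩ := ht m σ
    rw [if_neg h0, if_pos hi, if_neg h1, if_neg h2, if_neg h0, if_pos hi, if_neg h1, if_neg h2]
    beta_reduce
    rw [e1, e2, hw]
    clear e0 e1 e2 ht hw w
    generalize σ 0 = s0
    generalize σ 1 = s1
    generalize σ 2 = s2
    revert oa ob oc m s0 s1 s2
    decide

/-- the coefficients of the class `3` -/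
lemma acf3 (h : HG cls a f ε m) (hG : ZZ a f z c) (i : I4 cls) (hi : cls i.1.1 = 3) :
    ∃ G : ℤ[X], ¬ mQ (f i.1.1) ∣ mQ G ∧ ∀ p : ℕ, p.Prime → z < p →
      acf cls (famq cls a f ε m z c).g i p = w4 cls i * rhoc (f i.1.1) G p := by
  obtain ⟨cs, k0, k1, k2, hb⟩ := bits3 hi (od (ε 0 i.1.1)) (od (ε 1 i.1.1)) (od (ε 2 i.1.1))
  refine ⟨G3 a f ε i.1.1 cs k0 k1 k2, G3_ndvd h _ _ _ _ _, fun p hp hz => ?_⟩
  have hpi := Nat.prime_iff_prime_int.1 hp
  have hm1 : ¬ (p : ℤ) ∣ -1 := fun h => hpi.not_dvd_one ((dvd_neg).1 h)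
  have hk : Jr (κm cls i) p = sb (decide (κm cls i = -1) && sg0 p (-1)) := by
    have hcase : κm cls i = 1 ∨ κm cls i = -1 := by
      unfold κm
      split_ifs <;> simp
    rcases hcase with h1 | h1
    · rw [h1]
      simp [sb, Jr]
    · rw [h1]
      simp only [decide_true, Bool.true_and]
      exact Jr_sb hp hm1
  unfold acf
  have hsum := sum_ty3 (a := a) (f := f) (z := z) (c := c) h hi hp hz
    (fun θ => if bit4 cls (fun _ => θ) i then (-1 : ℝ) else 1)
  have e1 : ∑ θ : Ty, w4 cls i * ((if bit4 cls (fun _ => θ) i then (-1 : ℝ) else 1) *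
      (famq cls a f ε m z c).g (i.1.1, θ) p) = w4 cls i * ∑ θ : Ty,
        (if bit4 cls (fun _ => θ) i then (-1 : ℝ) else 1) *
          (famq cls a f ε m z c).g (i.1.1, θ) p := by
    rw [mul_sum]
  rw [e1, hsum, hk]
  unfold rhoc
  rw [mul_left_comm, mul_sum]
  congr 1
  refine sum_congr rfl fun x hx => ?_
  have hxd := (mem_filter.1 hx).2
  have hb' := hb (sg0 p (-1)) (fun k => sg0 p ((CQ a f ε i.1.1 k).eval (x : ℤ)))
  beta_reduce at hb'
  rw [G3_eval hG hp hz hxd, ← hb', sb_xor, mul_comm]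
  rfl

end

end Pool.Agent.K7.H54.GT
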