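import Pool.Agent.K7.H54.GT.Loc3
import Pool.Agent.K7.H54.HR.Sel2

/-!
# Project GT: the bound of the 2-Selmer group by the local count, with additive primes
-/

set_option autoImplicit false
set_option linter.all false

namespace Pool.Agent.K7.H54.GT

open Finset Pool.Agent.W262.RK Pool.Agent.W307.RT Pool.Agent.TH841.PT Pool.Agent.R421.HF
open Pool.Agent.W307.SE (SN)
open Pool.Agent.K7.H54.HR (seld5 neump)

lemma LT_xc3 (e : Fin 3 → Bool) (m neg : Bool) : XC (LT 3 e m neg) := by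
  unfold XC Pool.Agent.TH841.PT.LT
  generalize e 0 = e0
  generalize e 1 = e1
  generalize e 2 = e2
  simp only [show ¬ ((3 : Fin 4) = 0) by decide, show ¬ ((3 : Fin 4) = 1) by decide,
    show ¬ ((3 : Fin 4) = 2) by decide, if_false]
  refine ⟨by revert e0 e1 e2 m neg; decide, ?_⟩
  rintro a b c d a' b' c' d' ⟨rfl, rfl⟩ ⟨rfl, rfl⟩
  revert a b a' b' e0 e1 e2 m neg
  decide

lemma LT_neg {c : Fin 4} (hc : c ≠ 3) {e : Fin 3 → Bool} {m neg : Bool} {v w x y : Bool}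
    (hL : LT c e m false v w x y) : LT c e m neg v w x y := by
  have h3 : ∀ c : Fin 4, c ≠ 3 → c = 0 ∨ c = 1 ∨ c = 2 := by decide
  unfold Pool.Agent.TH841.PT.LT at hL ⊢
  rcases h3 c hc with rfl | rfl | rfl
  · rw [if_pos rfl] at hL ⊢
    exact hL
  · rw [if_neg (show ¬ (1 : Fin 4) = 0 by decide), if_pos rfl] at hL ⊢
    exact hL
  · rw [if_neg (show ¬ (2 : Fin 4) = 0 by decide), if_neg (show ¬ (2 : Fin 4) = 1 by decide),
      if_pos rfl] at hL ⊢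
    exact hL

variable {J : Type} [Fintype J] [DecidableEq J]

/-- The bound of the 2-Selmer group by the local count. -/
theorem selk6 {cls : J → Fin 4} {ty : J → ℕ → Option Ty} {f : J → ℤ}
    {A B : ℤ} {z y D : ℕ} (E : Finset ℕ) (hz : 2 ≤ z) (hzy : z < y) (h0 : ∀ j, f j ≠ 0)
    (hA0 : A ≠ 0) (hB0 : B ≠ 0) (hAB : A ≠ B)
    (hun : ∀ p : ℕ, p.Prime → z < p → ∀ j l, (p : ℤ) ∣ f j → (p : ℤ) ∣ f l → j = l)
    (hloc : ∀ p : ℕ, p.Prime → z < p → ∀ j θ, cls j ≠ 3 → (p : ℤ) ∣ f j →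
      ¬ (p : ℤ) ^ 2 ∣ f j →
      ty j p = some θ → ∃ k : ℤ, ¬ (p : ℤ) ∣ k ∧ LocM (cls j) k p A B ∧ sg0 p k = θ 0)
    (hloc3 : ∀ p : ℕ, p.Prime → z < p → p ≤ y → ∀ j θ, cls j = 3 → (p : ℤ) ∣ f j →
      ¬ (p : ℤ) ^ 2 ∣ f j → ty j p = some θ → ∃ (α β γ : ℕ) (A1 B1 C1 : ℤ),
        D3 p A B α β γ A1 B1 C1 ∧ Rel3 (!decide (Even α)) (!decide (Even β)) (!decide (Even γ))
          (sg0 p A1) (sg0 p B1) (sg0 p C1) (sg0 p (-1)) (decide (p ∈ E)) θ)
    (hneu : ∀ p : ℕ, p.Prime → z < p → ∀ j, (p : ℤ) ∣ f j → ty j p = none →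
      NeuM (cls j) p A B)
    (hbad : ∀ p : ℕ, p.Prime → z < p → (p : ℤ) ∣ 2 * A * B * (A - B) → ∃ j, (p : ℤ) ∣ f j)
    (hsz : ∀ j, (f j).natAbs < (y + 1) ^ D) :
    SN A B ≤
      4 ^ (z + Fintype.card J * D + 2) *
        4 ^ (∑ i, (S2 z y (prv ty z f) i).primeFactors.card) *
        (NL (∏ i, S1 z y (prv ty z f) i)
          (LTs (clsI cls) eI (S1 z y (prv ty z f)) E) : ℝ) := by
  classical
  set g := prv ty z f with hg
  set s := S1 z y g with hs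
  have hmem : s ∈ Tup (J × Ty) z y := by
    apply Pool.Agent.W571.RT.S1_mem
    rintro p hp hzp i i' hii' ⟨h1, h2⟩
    exact (prv_Gd h0 hun).2 p hp hzp i i' hii' ⟨h1, h2⟩
  have hmd : ∏ i, s i ∣ PP z y := Pool.Agent.W262.RK.Tup_prod_dvd hmem
  have hPSof : ∀ p : ℕ, p.Prime → p ∣ ∏ i, s i → p ∈ PS z y := fun p hp h =>
    (prime_dvd_PP hp).1 (h.trans hmd)
  have hodd2 : ∀ p : ℕ, p.Prime → p ∣ ∏ i, s i → 2 < p := by
    intro p hp h
    have h1 := (mem_PS.1 (hPSof p hp h)).1.1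
    omega
  have hlocm : Pool.Agent.W307.SE.LOCMP := Pool.Agent.W307.SE.locmp_of Pool.Agent.W407.SE.ratp
  obtain ⟨Nt, hNt⟩ : ∃ Nt : ℕ → Prop, ∀ p, Nt p ↔ (z < p ∧ ∃ j, (p : ℤ) ∣ f j ∧ ty j p = none) :=
    ⟨_, fun p => Iff.rfl⟩
  have hxc : ∀ (i : J × Ty) (m neg : Bool), XC (LT (clsI cls i) (eI i) m neg) := by
    intro i m neg
    by_cases hi : clsI cls i = 3
    · rw [hi]
      exact LT_xc3 _ _ _
    · exact Pool.Agent.Y474.Z8.LT_xc hi _ _ _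
  have hd := seld5 (Pool.Agent.W405.SE.goodp_of Pool.Agent.W407.SE.ratp) (∏ i, s i)
    (LTs (clsI cls) eI s E) A B Nt hA0 hB0 hAB
    (by
      rw [← Nat.not_even_iff_odd, even_iff_two_dvd]
      intro h
      exact absurd (hodd2 2 Nat.prime_two h) (by norm_num))
    ((PP_squarefree z y).squarefree_of_dvd hmd)
    (fun p hp hpd => ⟨fun i hi => (hxc i _ _).1,
      fun a1 b1 c1 d1 a2 b2 c2 d2 e1 e2 i hi =>
        (hxc i _ _).2 a1 b1 c1 d1 a2 b2 c2 d2 (e1 i hi) (e2 i hi)⟩)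
    (fun p hp hpd x x' hx' hcurve e1 e2 he1 he2 hsq1 hsq2 i hi => by
      have hpp : p.Prime := Fact.out
      have his := (Pool.Agent.W571.RT.S1_dvd_iff hpp).1 hi
      have hzp := (mem_PS.1 his.1).1.1
      have h2p : 2 < p := hodd2 p hpp hpd
      have h1 := his.2.1
      rw [hg, prv_dvd h0 i hpp hzp] at h1
      have h2 : ¬ (p : ℤ) ^ 2 ∣ f i.1 := by
        intro h3
        apply his.2.2
        rw [hg, prv_pow h0 i hpp hzp two_ne_zero]
        exact ⟨h3, h1.2⟩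
      by_cases hc : cls i.1 = 3
      · obtain ⟨α, β, γ, A1, B1, C1, h3, h4⟩ := hloc3 p hpp hzp (mem_PS.1 his.1).1.2 i.1 i.2 hc
          h1.1 h2 h1.2
        have hcI : clsI cls i = 3 := hc
        rw [hcI]
        exact loc3p (by omega) h3 h4 x x' hx' hcurve e1 e2 he1 he2 hsq1 hsq2
      · obtain ⟨k, hκ, h3, h4⟩ := hloc p hpp hzp i.1 i.2 hc h1.1 h2 h1.2
        have hfin := hlocm (clsI cls i) k p A B hc
          (by omega) hκ hA0 hB0 hAB h3 x x' hx' hcurve e1 e2 he1 he2 hsq1 hsq2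
        exact LT_neg hc (Pool.Agent.Y474.Z8.LT_of_LL hc h4 hfin))
    (fun p hp hN x x' hx' hcurve e1 e2 he1 he2 hsq1 hsq2 => by
      obtain ⟨hzp, j, hj, hty⟩ := (hNt p).1 hN
      exact neump (by omega) hA0 hB0 hAB (hneu p hp.out hzp j hj hty) x x' hx' hcurve e1 e2 he1 he2
        hsq1 hsq2)
  have hc := bad5 (ty := ty) hzy h0 hbad hsz Nt
    (fun p hp hzp j hj hty => (hNt p).2 ⟨hzp, j, hj, hty⟩)
  rw [← hg, ← hs] at hc
  have h1 : SN A B ≤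
      4 ^ (((2 * A * B * (A - B)).natAbs.primeFactors.filter
        (fun q => ¬ q ∣ ∏ i, s i ∧ ¬ Nt q)).card + 2) *
          (NL (∏ i, s i) (LTs (clsI cls) eI s E) : ℝ) := by
    have h2 : (((Pool.Agent.W307.SE.Sel A B).ncard : ℕ) : ℝ) ≤ _ :=
      Nat.cast_le.2 hd.2
    push_cast at h2
    unfold SN
    convert h2 using 2
  refine h1.trans (mul_le_mul_of_nonneg_right ?_ (Nat.cast_nonneg _))
  rw [← pow_add]
  exact pow_le_pow_right₀ (by norm_num) (by omega)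

end Pool.Agent.K7.H54.GT
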