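import Pool.Agent.K7.H54.GT.Fam
import Pool.Agent.K7.H54.GT.Sel
import Pool.Agent.R421.UR.AvgA

/-!
# Project GT: the bound of a power of the order of the 2-Selmer group
-/

set_option autoImplicit false
set_option linter.all false

namespace Pool.Agent.K7.H54.GT

open Finset Polynomial Pool.Agent.W262.RK Pool.Agent.W307.RT Pool.Agent.TH841.PT
open Pool.Agent.R421.HF
open Pool.Agent.R421.UR
open Pool.Agent.K7.H54.HR
open Pool.Agent.K7.H54.SG (SFam)
open Pool.Agent.W307.SE (SN SN_nonneg)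

section

variable {J : Type} [Fintype J] [DecidableEq J]

variable {cls : J → Fin 4} {a : Fin 3 → ℤ} {f : J → ℤ[X]} {ε : Fin 3 → J → ℕ} {m z1 c : ℕ}

lemma oneF (hG : ZZ a f z1 c) {p : ℕ} (hp : p.Prime) (hz : z1 < p) {x y : ℤ}
    (hxy : IsCoprime x y) (h0 : ∀ j, fh f x y j ≠ 0) {j : J} (hj : (p : ℤ) ∣ fh f x y j) :
    One p a (fh f x y) j where
  pr := hp
  X0 := h0
  ndv := hG.gp.const p hp hz
  dv := hj
  un := fun l hl hd => hl (hG.un hp hz (Pool.Agent.K7.H54.HR.cop_nd hxy hp) hd hj)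

lemma val_one {p : ℕ} (hp : p.Prime) {x : ℤ} (h0 : x ≠ 0) (h1 : (p : ℤ) ∣ x)
    (h2 : ¬ (p : ℤ) ^ 2 ∣ x) : padicValInt p x = 1 := by
  haveI := Fact.mk hp
  have h6 : 1 ≤ padicValInt p x := by
    have := (padicValInt_dvd_iff (p := p) 1 x).1 (by simpa using h1)
    exact this.resolve_left h0
  have h7 : ¬ 2 ≤ padicValInt p x := fun h8 =>
    h2 ((padicValInt_dvd_iff (p := p) 2 x).2 (Or.inr h8))
  omega

/-- the local conditions at the primes of the classes `0`, `1`, `2` -/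
lemma locF (h : HG cls a f ε m) (hG : ZZ a f z1 c) {p : ℕ} (hp : p.Prime) (hz : z1 < p) {x y : ℤ}
    (hxy : IsCoprime x y) (h0 : ∀ j, fh f x y j ≠ 0) {j : J} {θ : Ty} (h3 : cls j ≠ 3)
    (hj : (p : ℤ) ∣ fh f x y j) (hj2 : ¬ (p : ℤ) ^ 2 ∣ fh f x y j)
    (hty : tyq cls a f ε m j p x y = some θ) :
    ∃ k : ℤ, ¬ (p : ℤ) ∣ k ∧ LocM (cls j) k p (UV a ε (fh f x y) 0) (UV a ε (fh f x y) 1) ∧
      sg0 p k = θ 0 := by
  have ho := oneF (a := a) hG hp hz hxy h0 hj
  have h1 := ho.KV h.hE h3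
  obtain ⟨h4, -⟩ := ho.loc h.hE h3 (h.UV_sub x y)
  rw [val_one hp (h0 j) hj hj2, mul_one] at h4
  have h5 := jac_cases hp h1
  unfold tyq at hty
  rw [if_neg h3, ← h.KV_eq] at hty
  refine ⟨KV cls a ε (fh f x y) j, h1, h4 ?_, ?_⟩
  · by_cases hodd : Odd (eo ε j)
    · exact Or.inl hodd
    · right
      unfold tyo at hty
      rw [if_neg hodd] at hty
      rcases h5 with h5 | h5
      · exact h5
      · exfalso
        have : sg0 p (KV cls a ε (fh f x y) j) = true := by
          unfold sg0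
          rw [h5]
          simp
        rw [this] at hty
        simp at hty
  · unfold tyo at hty
    by_cases hodd : Odd (eo ε j)
    · rw [if_pos hodd] at hty
      rw [← Option.some.inj hty]
      simp [tyb]
    · rw [if_neg hodd] at hty
      by_cases hs : sg0 p (KV cls a ε (fh f x y) j) = false
      · rw [if_pos hs] at hty
        rw [← Option.some.inj hty, hs]
        simp [tyb]
      · rw [if_neg hs] at hty
        simp at hty

/-- the primes without a type -/
lemma neuF (h : HG cls a f ε m) (hG : ZZ a f z1 c) {p : ℕ} (hp : p.Prime) (hz : z1 < p) {x y : ℤ}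
    (hxy : IsCoprime x y) (h0 : ∀ j, fh f x y j ≠ 0) {j : J}
    (hj : (p : ℤ) ∣ fh f x y j) (hty : tyq cls a f ε m j p x y = none) :
    NeuM (cls j) p (UV a ε (fh f x y) 0) (UV a ε (fh f x y) 1) := by
  have h3 : cls j ≠ 3 := by
    intro h3
    unfold tyq at hty
    rw [if_pos h3] at hty
    simp at hty
  have ho := oneF (a := a) hG hp hz hxy h0 hj
  obtain ⟨-, h4⟩ := ho.loc h.hE h3 (h.UV_sub x y)
  unfold tyq at hty
  rw [if_neg h3, ← h.KV_eq] at hty
  unfold tyo at hty
  by_cases hodd : Odd (eo ε j)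
  · rw [if_pos hodd] at hty
    simp at hty
  · rw [if_neg hodd] at hty
    by_cases hs : sg0 p (KV cls a ε (fh f x y) j) = false
    · rw [if_pos hs] at hty
      simp at hty
    · apply h4
      · exact (Nat.not_odd_iff_even.1 hodd).mul_right _
      · intro h5
        apply hs
        unfold sg0
        rw [h5]
        simp

lemma neg_bool {P : Prop} [Decidable P] {v : ℤ} (hv : v = 1 ∨ v = -1) (b : Bool)
    (hP : P ↔ v = -(if b = true then -1 else 1)) : decide P = xor (decide (v = -1)) b := by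
  rcases hv with rfl | rfl
  · cases b
    · have : ¬ P := by rw [hP]; decide
      simp [this]
    · have : P := by rw [hP]; decide
      simp [this]
  · cases b
    · have : P := by rw [hP]; decide
      simp [this]
    · have : ¬ P := by rw [hP]; decide
      simp [this]

/-- the negative primes -/
lemma negF (h : HG cls a f ε m) (hG : ZZ a f z1 c) {z y : ℕ} (hz1 : z1 ≤ z) {p : ℕ}
    (hp : p.Prime) (hz : z < p) (hpy : p ≤ y) {x w : ℤ}
    (hxy : IsCoprime x w) (h0 : ∀ j, fh f x w j ≠ 0) {j : J} {θ : Ty} (h3 : cls j = 3)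
    (hj : (p : ℤ) ∣ fh f x w j) (hj2 : ¬ (p : ℤ) ^ 2 ∣ fh f x w j)
    (hty : tyq cls a f ε m j p x w = some θ) :
    decide (p ∈ (famq cls a f ε m z1 c).neg 1 (S1 z y ((famq cls a f ε m z1 c).pr 1 z x w)) x w) =
      xor (sg0 p (fh f x w j / p)) (od (f j).natDegree && sg0 p w) := by
  set D := famq cls a f ε m z1 c with hD
  set s := S1 z y (D.pr 1 z x w) with hs
  haveI := Fact.mk hp
  have hpi := Nat.prime_iff_prime_int.1 hp
  have hX : fh f x w j = p * (fh f x w j / p) := (Int.mul_ediv_cancel' hj).symm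
  have hu : ¬ (p : ℤ) ∣ fh f x w j / p := by
    intro hd
    apply hj2
    rw [hX, sq]
    exact mul_dvd_mul_left _ hd
  have hne : ∀ l, D.F x w l ≠ 0 := h0
  have h1d : ¬ (p : ℤ) ∣ 1 := hpi.not_dvd_one
  have hty' : D.tyh 1 j p x w = some θ := Pool.Agent.K7.H54.SG.SFam.tyh_some.2 ⟨h1d, hty⟩
  -- `p` divides `s (j, θ)`
  have hps : p ∣ s (j, θ) := by
    rw [hs, Pool.Agent.W29.RT.dvd_S1 hp]
    refine ⟨mem_PS.2 ⟨⟨hz, hpy⟩, hp⟩, ?_, ?_⟩
    · exact (Pool.Agent.K7.H54.SG.prw_dvd (ty := fun j p => D.tyh 1 j p x w) hne (j, θ) hp hz).2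
        ⟨hj, hty'⟩
    · intro h5
      exact hj2 ((Pool.Agent.K7.H54.SG.prw_pow (ty := fun j p => D.tyh 1 j p x w) hne (j, θ) hp hz
        two_ne_zero).1 h5).1
  have hm3 : p ∈ (D.m3 s).primeFactors := by
    refine Nat.mem_primeFactors.2 ⟨hp, ?_, ?_⟩
    · unfold SFam.m3
      refine hps.trans (dvd_prod_of_mem s (mem_filter.2 ⟨mem_univ _, ?_⟩))
      simp [hD, famq, h3]
    · unfold SFam.m3
      refine prod_ne_zero_iff.2 fun i _ => ?_
      have hmem : s ∈ Tup (J × Ty) z y := by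
        apply Pool.Agent.W571.RT.S1_mem
        rintro q hq hzq i i' hii' ⟨h1, h2⟩
        exact (Pool.Agent.K7.H54.SG.prw_Gd (ty := fun j p => D.tyh 1 j p x w) hne
          (fun q hq hzq l l' hl hl' => hG.un hq (by omega)
            (Pool.Agent.K7.H54.HR.cop_nd hxy hq) hl hl')).2 q hq hzq i i' hii' ⟨h1, h2⟩
      exact Tup_ne hmem i
  have h5 := jac_cases hp hu
  have hkey : p ∈ D.neg 1 s x w ↔ jacobiSym (fh f x w j / p) p = -(snq f j p w) := by
    unfold SFam.neg
    rw [mem_filter]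
    constructor
    · rintro ⟨-, l, -, hl, hl2⟩
      have : l = j := hG.un hp (by omega) (Pool.Agent.K7.H54.HR.cop_nd hxy hp) hl hj
      subst this
      rw [jacobiSym.one_left, mul_one] at hl2
      have e : w - D.κ * x = w := by simp [hD, famq]
      rw [e] at hl2
      exact hl2
    · intro h6
      refine ⟨hm3, j, by simp [hD, famq, h3], hj, ?_⟩
      rw [jacobiSym.one_left, mul_one]
      have e : w - D.κ * x = w := by simp [hD, famq]
      rw [e]
      exact h6
  have hsg : sg0 p (fh f x w j / p) = decide (jacobiSym (fh f x w j / p) p = -1) := rfl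
  rw [hsg]
  exact neg_bool h5 _ hkey

/-- **the bound of the power of the order of the Selmer group** -/
lemma rnkF (h : HG cls a f ε m) (hG : ZZ a f z1 c) {α : ℝ} (hα : 0 ≤ α) (hα1 : α ≤ 1) {z : ℕ}
    (hz : z1 ≤ z) (hz2 : 2 ≤ z) {X y k : ℕ} {x w : ℤ} (hxy : IsCoprime x w)
    (h0 : ∀ j, fh f x w j ≠ 0) (ha : x.natAbs ≤ X) (hb : w.natAbs ≤ X) (hX : 1 ≤ X) (hzy : z < y)
    (hk : X < (y + 1) ^ k) :
    SN (UV a ε (fh f x w) 0) (UV a ε (fh f x w) 1) ^ α ≤
      4 ^ (z + Fintype.card J + 2) * (4 ^ (Fintype.card J * ∑ j, (f j).natDegree)) ^ k *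
        4 ^ (∑ i, (S2 z y ((famq cls a f ε m z1 c).pr 1 z x w) i).primeFactors.card) *
        (NL (∏ i, S1 z y ((famq cls a f ε m z1 c).pr 1 z x w) i)
          (LTs (clsI cls) eI (S1 z y ((famq cls a f ε m z1 c).pr 1 z x w))
            ((famq cls a f ε m z1 c).neg 1
              (S1 z y ((famq cls a f ε m z1 c).pr 1 z x w)) x w)) : ℝ) ^ α := by
  classical
  set D := famq cls a f ε m z1 c with hD
  have hOK : D.OK := famq_ok h hG
  have hU : ∀ k, UV a ε (fh f x w) k ≠ 0 := by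
    intro k
    unfold UV
    exact mul_ne_zero (h.ha k) (prod_ne_zero_iff.2 fun l _ => pow_ne_zero _ (h0 l))
  have hAB : UV a ε (fh f x w) 0 ≠ UV a ε (fh f x w) 1 := by
    intro h1
    apply hU 2
    rw [← h.UV_sub, h1, sub_self]
  have hpr : D.pr 1 z x w = prv (fun j p => tyq cls a f ε m j p x w) z (fh f x w) := by
    unfold SFam.pr
    funext i
    unfold Pool.Agent.K7.H54.SG.prw Pool.Agent.R421.HF.prv
    congr 2
    funext p
    apply propext
    constructor
    · rintro ⟨h1, h2⟩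
      exact ⟨h1, (Pool.Agent.K7.H54.SG.SFam.tyh_some.1 h2).2⟩
    · rintro ⟨h1, h2⟩
      refine ⟨h1, Pool.Agent.K7.H54.SG.SFam.tyh_some.2 ⟨?_, h2⟩⟩
      intro h3
      have := Int.le_of_dvd one_pos h3
      omega
  have h1 := selk6 (cls := cls) (f := fh f x w) (ty := fun j p => tyq cls a f ε m j p x w)
    (A := UV a ε (fh f x w) 0) (B := UV a ε (fh f x w) 1)
    (D := (∑ j, (f j).natDegree) * k + 1)
    (D.neg 1 (S1 z y (D.pr 1 z x w)) x w) hz2 hzy h0 (hU 0) (hU 1) hAB
    (fun p hp hzp j l hj hl => hG.un hp (by omega) (Pool.Agent.K7.H54.HR.cop_nd hxy hp) hj hl)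
    (fun p hp hzp j θ h3 hj hj2 hty => locF h hG hp (by omega) hxy h0 h3 hj hj2 hty)
    (fun p hp hzp hpy j θ h3 hj hj2 hty => by
      have ho := oneF (a := a) hG hp (by omega) hxy h0 hj
      have hw : ¬ (p : ℤ) ∣ w :=
        hG.ndy hp (by omega) hj (Pool.Agent.K7.H54.HR.cop_nd hxy hp)
      have hng := negF h hG hz hp hzp hpy hxy h0 h3 hj hj2 hty
      refine ⟨_, _, _, _, _, _, ho.loc3 hj2 (h.hE.e3 j h3) (h.UV_sub x w), ?_⟩
      unfold tyq at hty
      rw [if_pos h3] at hty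
      rw [← Option.some.inj hty]
      exact ho.rel3 hj2 (h.hE.e3 j h3) (h.UV_sub x w) hw (f j).natDegree hng
        (fun k => by rw [h.CV_eq]))
    (fun p hp hzp j hj hty => neuF h hG hp (by omega) hxy h0 hj hty)
    (fun p hp hzp hd => by
      have hpi := Nat.prime_iff_prime_int.1 hp
      rw [h.UV_sub] at hd
      have h2 : ¬ (p : ℤ) ∣ 2 := by
        intro h5
        have := Int.le_of_dvd (by norm_num) h5
        omega
      have hUd : ∀ k, (p : ℤ) ∣ UV a ε (fh f x w) k → ∃ j, (p : ℤ) ∣ fh f x w j := by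
        intro k hk
        unfold UV at hk
        rcases hpi.dvd_mul.1 hk with h1 | h1
        · exact absurd h1 (hG.gp.const p hp (by omega) _)
        · obtain ⟨l, hl1, hl2⟩ := (hpi.dvd_finsetProd_iff _).1 h1
          exact ⟨l, hpi.dvd_of_dvd_pow hl2⟩
      rcases hpi.dvd_mul.1 hd with hd | hd
      · rcases hpi.dvd_mul.1 hd with hd | hd
        · rcases hpi.dvd_mul.1 hd with hd | hd
          · exact absurd hd h2
          · exact hUd _ hd
        · exact hUd _ hd
      · exact hUd _ hd)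
    (fun j => by
      have h2 : (fh f x w j).natAbs ≤ z1 * X ^ (∑ j, (f j).natDegree) :=
        hOK.sz X x w ha hb hX j
      have h3 : X ^ (∑ j, (f j).natDegree) ≤ ((y + 1) ^ k) ^ (∑ j, (f j).natDegree) :=
        Nat.pow_le_pow_left hk.le _
      have h4 : 0 < ((y + 1) ^ k) ^ (∑ j, (f j).natDegree) := by positivity
      calc (fh f x w j).natAbs ≤ z1 * X ^ (∑ j, (f j).natDegree) := h2
        _ ≤ z1 * ((y + 1) ^ k) ^ (∑ j, (f j).natDegree) := Nat.mul_le_mul_left _ h3
        _ < (y + 1) * ((y + 1) ^ k) ^ (∑ j, (f j).natDegree) :=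
            Nat.mul_lt_mul_of_pos_right (by omega) h4
        _ = (y + 1) ^ ((∑ j, (f j).natDegree) * k + 1) := by
            rw [← pow_mul, pow_succ, mul_comm k]; ring)
  rw [← hpr] at h1
  have hK1 : (1 : ℝ) ≤ 4 ^ (z + Fintype.card J * ((∑ j, (f j).natDegree) * k + 1) + 2) *
      4 ^ (∑ i, (S2 z y (D.pr 1 z x w) i).primeFactors.card) :=
    one_le_mul_of_one_le_of_one_le (one_le_pow₀ (by norm_num)) (one_le_pow₀ (by norm_num))
  have h2 := pow_le_K hα hα1 (SN_nonneg _ _) hK1 (Nat.cast_nonneg _) h1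
  refine h2.trans (le_of_eq ?_)
  have e : z + Fintype.card J * ((∑ j, (f j).natDegree) * k + 1) + 2 =
      (z + Fintype.card J + 2) + (Fintype.card J * (∑ j, (f j).natDegree)) * k := by ring
  rw [e, pow_add (4 : ℝ) (z + Fintype.card J + 2), pow_mul]

end

end Pool.Agent.K7.H54.GT
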